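import Pool.Agent.H889.RS.MaxMap

/-!
# The action on `M` defined by a homomorphism to `Gal(N/F)`

(helper889.)
-/

set_option autoImplicit false
set_option linter.all false

open Polynomial FF

namespace Pool.Agent.H889.RS

open Pool.Agent.Y157.PS Pool.Agent.H889.PS
open Pool.Agent.Y903.PS (tt ratF_tt)

section act

variable {κ M F Ω : Type} [Field κ] [Field M] [Field F] [Field Ω] [Algebra F Ω] [Algebra κ Ω]
  [Algebra M Ω] {N : IntermediateField F Ω}

/-- the fields `κ` and `M` are contained in `N`, and `M` is stable under `Gal(N/F)` -/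
structure Emb (κ M : Type) {F Ω : Type} [Field κ] [Field M] [Field F] [Field Ω] [Algebra F Ω]
    [Algebra κ Ω] [Algebra M Ω] (N : IntermediateField F Ω) : Prop where
  cst : ∀ c : κ, algebraMap κ Ω c ∈ N
  inM : ∀ y : M, algebraMap M Ω y ∈ N
  stab : ∀ (τ : N ≃ₐ[F] N) (y : M), ∃ y' : M,
    algebraMap M Ω y' = (τ ⟨algebraMap M Ω y, inM y⟩ : N)

/-- the embedding of `M` -/
def iM (h : Emb κ M N) : M →+* N := (algebraMap M Ω).codRestrict N.toSubfield.toSubring h.inM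

/-- the embedding of `κ` -/
def iK (h : Emb κ M N) : κ →+* N := (algebraMap κ Ω).codRestrict N.toSubfield.toSubring h.cst

theorem coe_iM (h : Emb κ M N) (y : M) : ((iM h y : N) : Ω) = algebraMap M Ω y := rfl

theorem coe_iK (h : Emb κ M N) (c : κ) : ((iK h c : N) : Ω) = algebraMap κ Ω c := rfl

theorem exists_act (h : Emb κ M N) (τ : N ≃ₐ[F] N) (y : M) : ∃ y' : M, iM h y' = τ (iM h y) := by
  obtain ⟨y', hy'⟩ := h.stab τ y
  exact ⟨y', Subtype.ext hy'⟩

/-- the action of `Gal(N/F)` on `M` -/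
noncomputable def actF (h : Emb κ M N) (τ : N ≃ₐ[F] N) (y : M) : M := (exists_act h τ y).choose

theorem actF_apply (h : Emb κ M N) (τ : N ≃ₐ[F] N) (y : M) : iM h (actF h τ y) = τ (iM h y) :=
  (exists_act h τ y).choose_spec

theorem actF_mul (h : Emb κ M N) (τ τ' : N ≃ₐ[F] N) (y : M) :
    actF h (τ * τ') y = actF h τ (actF h τ' y) := by
  apply (iM h).injective
  rw [actF_apply, actF_apply, actF_apply]
  rfl

theorem actF_one (h : Emb κ M N) (y : M) : actF h 1 y = y := by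
  apply (iM h).injective
  rw [actF_apply]
  rfl

/-- the action of `Gal(N/F)` on `M` -/
noncomputable def actM (h : Emb κ M N) : (N ≃ₐ[F] N) →* RingAut M where
  toFun τ :=
    { toFun := actF h τ
      invFun := actF h τ⁻¹
      left_inv := fun y => by rw [← actF_mul, inv_mul_cancel, actF_one]
      right_inv := fun y => by rw [← actF_mul, mul_inv_cancel, actF_one]
      map_mul' := fun a b => by
        apply (iM h).injective
        rw [actF_apply, map_mul, map_mul, map_mul, actF_apply, actF_apply]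
      map_add' := fun a b => by
        apply (iM h).injective
        rw [actF_apply, map_add, map_add, map_add, actF_apply, actF_apply] }
  map_one' := by
    ext y
    exact actF_one h y
  map_mul' τ τ' := by
    ext y
    exact actF_mul h τ τ' y

theorem actM_apply (h : Emb κ M N) (τ : N ≃ₐ[F] N) (y : M) : iM h (actM h τ y) = τ (iM h y) :=
  actF_apply h τ y

end act

section sec

variable {k₀ κ₀ K κ R M F Ω : Type} [Field k₀] [Field κ₀] [Field K] [Field κ] [Field R] [Field M]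
  [Field F] [Field Ω] [Algebra k₀ κ₀]
  [Algebra k₀ K] [Algebra K κ] [Algebra κ₀ κ] [Algebra k₀ κ] [IsScalarTower k₀ K κ]
  [IsScalarTower k₀ κ₀ κ] [Algebra κ₀ R] [Algebra R M] [Algebra κ₀ M] [IsScalarTower κ₀ R M]
  [Algebra K F] [Algebra F Ω] [Algebra κ Ω] [Algebra M Ω] [Algebra κ₀ Ω] [IsScalarTower κ₀ κ Ω]
  [IsScalarTower κ₀ M Ω] {N : IntermediateField F Ω} {x : R} {xF : F}
  {S : (κ ≃ₐ[K] κ) →* (N ≃ₐ[F] N)}

/-- `S(σ)` acts on `κ` as `σ` -/
def Cmp (h : Emb κ M N) (S : (κ ≃ₐ[K] κ) →* (N ≃ₐ[F] N)) : Prop :=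
  ∀ (σ : κ ≃ₐ[K] κ) (c : κ), S σ (iK h c) = iK h (σ c)

theorem hsec (h : Emb κ M N) (hS : Cmp h S) [Algebra.IsAlgebraic F N] (hcont : Continuous S)
    (hx : algebraMap M Ω (algebraMap R M x) = algebraMap F Ω xF) :
    HSec κ₀ K κ R M x ((actM h).comp S) := by
  have hM : ∀ σ y, iM h (((actM h).comp S) σ y) = S σ (iM h y) := fun σ y => actM_apply h (S σ) y
  have hc : ∀ a : κ₀, iM h (algebraMap κ₀ M a) = iK h (algebraMap κ₀ κ a) := by
    intro a
    apply Subtype.ext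
    change algebraMap M Ω (algebraMap κ₀ M a) = algebraMap κ Ω (algebraMap κ₀ κ a)
    rw [← IsScalarTower.algebraMap_apply, ← IsScalarTower.algebraMap_apply]
  refine ⟨fun σ a b hab => ?_, fun σ => ?_, fun z => ?_⟩
  · apply (iM h).injective
    rw [hM, hc, hS, hab, hc]
  · apply (iM h).injective
    rw [hM]
    have h1 : iM h (algebraMap R M x) = algebraMap F N xF := Subtype.ext hx
    rw [h1, AlgEquiv.commutes]
  · obtain ⟨E, hE, hE'⟩ := cont_fix S hcont (iM h z)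
    refine ⟨E, hE, fun σ hσ => ?_⟩
    apply (iM h).injective
    rw [hM, hE' σ hσ]

/-- the geometric hypothesis: over `κ₀(t ^ (1 / n))` the field `Kf` is contained in `F` -/
def Twist (κ₀ κ : Type) {M F Ω : Type} [Field κ₀] [Field κ] [Field M] [Field F] [Field Ω]
    [Algebra F Ω] [Algebra κ Ω] [Algebra M Ω] [Algebra κ₀ Ω] (tκ : κ) (Kf : Set M) : Prop :=
  ∃ (n : ℕ) (ρ : κ), 0 < n ∧ ρ ^ n = tκ ∧ ∀ y ∈ Kf, algebraMap M Ω y ∈
    IntermediateField.adjoin F (Set.range (algebraMap κ₀ Ω) ∪ {algebraMap κ Ω ρ})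

/-- the elements of the decomposition groups away from `0` and infinity fix the roots of `t` -/
theorem fix_root [IsAlgClosed κ₀] [CharZero κ₀] {t : K} (ht : RatF k₀ t) {n : ℕ} (hn : 0 < n) {ρ : κ}
    (hρ : ρ ^ n = algebraMap K κ t)
    {V : ValuationSubring κ} (hV : ∀ a : κ₀, algebraMap κ₀ κ a ∈ V) {c : κ₀} (hc : c ≠ 0)
    (htV : V.valuation (algebraMap K κ t - algebraMap κ₀ κ c) < 1) (δ : κ ≃ₐ[TT κ₀ κ t] κ)
    (hδ : ∀ z, δ z ∈ V ↔ z ∈ V) : δ ρ = ρ := by
  haveI : NeZero n := ⟨hn.ne'⟩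
  have hn0 : (n : κ₀) ≠ 0 := Nat.cast_ne_zero.2 hn.ne'
  haveI : NeZero (n : κ₀) := ⟨hn0⟩
  obtain ⟨ζ, hζ⟩ := HasEnoughRootsOfUnity.exists_primitiveRoot κ₀ n
  -- `ρ` is a unit
  have hvt : V.valuation (algebraMap K κ t) = 1 := by
    have h1 : algebraMap K κ t = algebraMap κ₀ κ c + (algebraMap K κ t - algebraMap κ₀ κ c) := by
      ring
    have h2 := Pool.Agent.Y809.PS.val_const hV (W := V) hc
    rw [h1, Valuation.map_add_eq_of_lt_left, h2]
    rw [h2]
    exact htV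
  have hvρ : V.valuation ρ = 1 := by
    have h1 : V.valuation ρ ^ n = 1 := by rw [← map_pow, hρ, hvt]
    exact (pow_eq_one_iff_of_nonneg zero_le hn.ne').1 h1
  have hρ0 : ρ ≠ 0 := by
    rintro rfl
    rw [map_zero] at hvρ
    exact zero_ne_one hvρ
  have hρV : ρ ∈ V := (V.valuation_le_one_iff _).1 hvρ.le
  -- the residue of `ρ`
  obtain ⟨r, hr⟩ : ∃ r : κ₀, r ^ n = c := IsAlgClosed.exists_pow_nat_eq c hn
  have hr0 : r ≠ 0 := by
    rintro rfl
    rw [zero_pow hn.ne'] at hr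
    exact hc hr.symm
  obtain ⟨a, ha⟩ : ∃ a : κ₀, ρ - algebraMap κ₀ κ a ∈ V.nonunits := by
    by_contra hcon
    push Not at hcon
    have hζκ : IsPrimitiveRoot (algebraMap κ₀ κ ζ) n :=
      hζ.map_of_injective (algebraMap κ₀ κ).injective
    have h1 : ∏ μ ∈ nthRootsFinset n (1 : κ), (ρ - μ * algebraMap κ₀ κ r) =
        algebraMap K κ t - algebraMap κ₀ κ c := by
      rw [← hρ, ← hr, map_pow]
      exact (hζκ.pow_sub_pow_eq_prod_sub_mul _ _ hn).symm
    have h2 : ∀ μ ∈ nthRootsFinset n (1 : κ), V.valuation (ρ - μ * algebraMap κ₀ κ r) = 1 := by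
      intro μ hμ
      rw [mem_nthRootsFinset hn] at hμ
      obtain ⟨i, -, hi⟩ := hζκ.eq_pow_of_pow_eq_one hμ
      have h3 : ρ - μ * algebraMap κ₀ κ r = ρ - algebraMap κ₀ κ (ζ ^ i * r) := by
        rw [map_mul, map_pow, hi]
      rw [h3]
      have h4 := hcon (ζ ^ i * r)
      rw [ValuationSubring.mem_nonunits_iff, not_lt] at h4
      exact le_antisymm ((V.valuation_le_one_iff _).2 (sub_mem hρV (hV _))) h4
    rw [← h1, map_prod, Finset.prod_eq_one h2] at htV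
    exact lt_irrefl _ htV
  have hδV : ∀ z, z ∈ V.nonunits → δ z ∈ V.nonunits := by
    intro z hz
    rw [nonunits_iff] at hz ⊢
    refine ⟨(hδ z).2 hz.1, ?_⟩
    rcases hz.2 with h0 | h1
    · left
      rw [h0, map_zero]
    · right
      rw [← map_inv₀, hδ]
      exact h1
  have h1 := hδV _ ha
  have hδa : δ (algebraMap κ₀ κ a) = algebraMap κ₀ κ a :=
    δ.commutes (algebraMap κ₀ (TT κ₀ κ t) a)
  rw [map_sub, hδa] at h1
  -- `δ ρ = ξ ρ`
  have hδt : δ (algebraMap K κ t) = algebraMap K κ t := δ.commutes (tT κ₀ κ t)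
  have h2 : (δ ρ / ρ) ^ n = 1 := by
    rw [div_pow, ← map_pow, hρ, hδt, div_self]
    rw [← hρ]
    exact pow_ne_zero _ hρ0
  have hζκ : IsPrimitiveRoot (algebraMap κ₀ κ ζ) n :=
    hζ.map_of_injective (algebraMap κ₀ κ).injective
  obtain ⟨i, -, hi⟩ := hζκ.eq_pow_of_pow_eq_one h2
  have h3 : δ ρ = algebraMap κ₀ κ (ζ ^ i) * ρ := by
    rw [map_pow, hi, div_mul_cancel₀ _ hρ0]
  have h4 : algebraMap κ₀ κ (ζ ^ i - 1) * ρ ∈ V.nonunits := by
    have h5 := non_add h1 (non_neg ha)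
    have h6 : δ ρ - algebraMap κ₀ κ a + -(ρ - algebraMap κ₀ κ a) =
        algebraMap κ₀ κ (ζ ^ i - 1) * ρ := by
      rw [h3, map_sub, map_one]
      ring
    rwa [h6] at h5
  have h5 : ζ ^ i - 1 = 0 := by
    by_contra h0
    rw [ValuationSubring.mem_nonunits_iff, map_mul, hvρ, mul_one,
      Pool.Agent.Y809.PS.val_const hV (W := V) h0] at h4
    exact lt_irrefl _ h4
  rw [h3, sub_eq_zero.1 h5, map_one, one_mul]

theorem hh_of_twist [IsAlgClosed κ₀] [CharZero κ₀] (h : Emb κ M N) (hS : Cmp h S) {t : K}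
    (ht : RatF k₀ t) {Kf : Set M}
    (hT : Twist (F := F) (Ω := Ω) κ₀ κ (algebraMap K κ t) Kf) :
    HH (κ₀ := κ₀) ht ((actM h).comp S) Kf := by
  obtain ⟨n, ρ, hn, hρ, hKf⟩ := hT
  intro V hV c hc htV δ hδ y hy
  have h1 := fix_root ht hn hρ hV hc htV δ hδ
  apply (iM h).injective
  have h2 : iM h (((actM h).comp S) (ofT ht δ) y) = S (ofT ht δ) (iM h y) := actM_apply h _ y
  rw [h2]
  have key : ∀ z ∈ IntermediateField.adjoin F (Set.range (algebraMap κ₀ Ω) ∪
      {algebraMap κ Ω ρ}), ∃ hz : z ∈ N, S (ofT ht δ) ⟨z, hz⟩ = ⟨z, hz⟩ := by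
    intro z hz
    induction hz using IntermediateField.adjoin_induction with
    | mem y hy =>
      rcases hy with ⟨a, rfl⟩ | hy
      · have h3 : algebraMap κ₀ Ω a = algebraMap κ Ω (algebraMap κ₀ κ a) :=
          IsScalarTower.algebraMap_apply κ₀ κ Ω a
        refine ⟨by rw [h3]; exact h.cst _, ?_⟩
        have h4 : (⟨algebraMap κ₀ Ω a, by rw [h3]; exact h.cst _⟩ : N) =
          iK h (algebraMap κ₀ κ a) := Subtype.ext h3
        rw [h4, hS, ofT_const]
      · rw [Set.mem_singleton_iff] at hy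
        subst hy
        refine ⟨h.cst _, ?_⟩
        have h4 : (⟨algebraMap κ Ω ρ, h.cst _⟩ : N) = iK h ρ := rfl
        rw [h4, hS, ofT_apply, h1]
    | algebraMap c => exact ⟨N.algebraMap_mem c, (S (ofT ht δ)).commutes c⟩
    | add a b _ _ ha hb =>
      obtain ⟨ha, ha'⟩ := ha
      obtain ⟨hb, hb'⟩ := hb
      refine ⟨add_mem ha hb, ?_⟩
      have h5 : (⟨a + b, add_mem ha hb⟩ : N) = ⟨a, ha⟩ + ⟨b, hb⟩ := rfl
      rw [h5, map_add, ha', hb']
    | inv a _ ha =>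
      obtain ⟨ha, ha'⟩ := ha
      refine ⟨inv_mem ha, ?_⟩
      have h5 : (⟨a⁻¹, inv_mem ha⟩ : N) = (⟨a, ha⟩ : N)⁻¹ := rfl
      rw [h5, map_inv₀, ha']
    | mul a b _ _ ha hb =>
      obtain ⟨ha, ha'⟩ := ha
      obtain ⟨hb, hb'⟩ := hb
      refine ⟨mul_mem ha hb, ?_⟩
      have h5 : (⟨a * b, mul_mem ha hb⟩ : N) = ⟨a, ha⟩ * ⟨b, hb⟩ := rfl
      rw [h5, map_mul, ha', hb']
  obtain ⟨hz, h3⟩ := key _ (hKf y hy)
  exact h3

end sec

end Pool.Agent.H889.RS
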