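import Pool.Agent.H889.RS.Gen

/-!
# The Galois groups of `k₀(t)` and `κ₀(t)`

(helper889.)  `κ₀` is an algebraic closure of `k₀`, `K = k₀(t)` and `κ` is an algebraic closure of `K`
which contains `κ₀`.
-/

set_option autoImplicit false
set_option linter.all false

open Polynomial FF

namespace Pool.Agent.H889.RS

open Pool.Agent.Y157.PS Pool.Agent.H889.PS Pool.Agent.H889.SY
open Pool.Agent.Y903.PS (tt ratF_tt)

section

variable {k₀ κ₀ K κ : Type} [Field k₀] [Field κ₀] [Field K] [Field κ] [Algebra k₀ κ₀]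
  [Algebra k₀ K] [Algebra K κ] [Algebra κ₀ κ] [Algebra k₀ κ] [IsScalarTower k₀ K κ]
  [IsScalarTower k₀ κ₀ κ]

variable (κ₀ κ) in
/-- `κ₀(t)` -/
abbrev TT (t : K) : IntermediateField κ₀ κ := IntermediateField.adjoin κ₀ {algebraMap K κ t}

variable (κ₀ κ) in
/-- the element `t` of `κ₀(t)` -/
def tT (t : K) : TT κ₀ κ t := ⟨algebraMap K κ t, IntermediateField.mem_adjoin_simple_self _ _⟩

theorem coe_tT (t : K) : ((tT κ₀ κ t : TT κ₀ κ t) : κ) = algebraMap K κ t := rfl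

theorem ratT [Algebra.IsAlgebraic k₀ κ₀] {t : K} (ht : RatF k₀ t) : RatF κ₀ (tT κ₀ κ t) := by
  constructor
  · intro h
    have h1 : IsAlgebraic κ₀ (algebraMap K κ t) := by
      have := h.algebraMap (A := κ)
      exact this
    have h2 : IsAlgebraic k₀ (algebraMap K κ t) := h1.restrictScalars k₀
    exact ht.trans ((isAlgebraic_algebraMap_iff (algebraMap K κ).injective).1 h2)
  · rw [eq_top_iff]
    intro z _
    have h1 : ∀ (y : κ) (hy : y ∈ TT κ₀ κ t), (⟨y, hy⟩ : TT κ₀ κ t) ∈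
        IntermediateField.adjoin κ₀ {tT κ₀ κ t} := by
      intro y hy
      induction hy using IntermediateField.adjoin_induction with
      | mem y hy =>
        rw [Set.mem_singleton_iff] at hy
        subst hy
        exact IntermediateField.mem_adjoin_simple_self _ _
      | algebraMap c => exact (IntermediateField.adjoin κ₀ {tT κ₀ κ t}).algebraMap_mem c
      | add a b _ _ ha hb => exact add_mem ha hb
      | inv a _ ha => exact inv_mem ha
      | mul a b _ _ ha hb => exact mul_mem ha hb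
    exact h1 z z.2

theorem K_le {t : K} (ht : RatF k₀ t) (a : K) : algebraMap K κ a ∈ TT κ₀ κ t := by
  have ha : a ∈ IntermediateField.adjoin k₀ {t} := by rw [ht.gen]; trivial
  induction ha using IntermediateField.adjoin_induction with
  | mem y hy =>
    rw [Set.mem_singleton_iff] at hy
    subst hy
    exact IntermediateField.mem_adjoin_simple_self _ _
  | algebraMap c =>
    rw [← IsScalarTower.algebraMap_apply k₀ K κ, IsScalarTower.algebraMap_apply k₀ κ₀ κ]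
    exact IntermediateField.algebraMap_mem _ _
  | add a b _ _ ha hb => rw [map_add]; exact add_mem ha hb
  | inv a _ ha => rw [map_inv₀]; exact inv_mem ha
  | mul a b _ _ ha hb => rw [map_mul]; exact mul_mem ha hb

theorem algT [Algebra.IsAlgebraic K κ] {t : K} (ht : RatF k₀ t) :
    Algebra.IsAlgebraic (TT κ₀ κ t) κ := by
  let i : K →+* TT κ₀ κ t := (algebraMap K κ).codRestrict (TT κ₀ κ t).toSubfield.toSubring
    (fun a => K_le ht a)
  letI : Algebra K (TT κ₀ κ t) := i.toAlgebra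
  haveI : IsScalarTower K (TT κ₀ κ t) κ := IsScalarTower.of_algebraMap_eq fun _ => rfl
  exact Algebra.IsAlgebraic.tower_top (K := K) (TT κ₀ κ t)

/-- automorphisms over `κ₀(t)` -/
def ofT {t : K} (ht : RatF k₀ t) : (κ ≃ₐ[TT κ₀ κ t] κ) →* (κ ≃ₐ[K] κ) where
  toFun g := AlgEquiv.ofRingEquiv (f := (g : κ ≃+* κ)) (by
    intro a
    exact g.commutes ⟨algebraMap K κ a, K_le ht a⟩)
  map_one' := by ext z; rfl
  map_mul' a b := by ext z; rfl

theorem ofT_apply {t : K} (ht : RatF k₀ t) (g : κ ≃ₐ[TT κ₀ κ t] κ) (z : κ) :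
    ofT ht g z = g z := rfl

/-- an automorphism over `K` which fixes `κ₀` -/
def toT {t : K} (σ : κ ≃ₐ[K] κ) (hσ : ∀ a : κ₀, σ (algebraMap κ₀ κ a) = algebraMap κ₀ κ a) :
    κ ≃ₐ[TT κ₀ κ t] κ :=
  AlgEquiv.ofRingEquiv (f := (σ : κ ≃+* κ)) (by
    rintro ⟨y, hy⟩
    change σ y = y
    induction hy using IntermediateField.adjoin_induction with
    | mem y hy =>
      rw [Set.mem_singleton_iff] at hy
      subst hy
      exact σ.commutes t
    | algebraMap c => exact hσ c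
    | add a b _ _ ha hb => rw [map_add, ha, hb]
    | inv a _ ha => rw [map_inv₀, ha]
    | mul a b _ _ ha hb => rw [map_mul, ha, hb])

theorem toT_apply {t : K} (σ : κ ≃ₐ[K] κ)
    (hσ : ∀ a : κ₀, σ (algebraMap κ₀ κ a) = algebraMap κ₀ κ a) (z : κ) :
    toT (t := t) σ hσ z = σ z := rfl

theorem ofT_const {t : K} (ht : RatF k₀ t) (g : κ ≃ₐ[TT κ₀ κ t] κ) (a : κ₀) :
    ofT ht g (algebraMap κ₀ κ a) = algebraMap κ₀ κ a :=
  g.commutes (algebraMap κ₀ (TT κ₀ κ t) a)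

/-- the restriction of an automorphism to `κ₀` -/
theorem exists_res [Normal k₀ κ₀] (σ : κ ≃ₐ[K] κ) : ∃ φ₀ : κ₀ ≃ₐ[k₀] κ₀,
    ∀ a : κ₀, σ (algebraMap κ₀ κ a) = algebraMap κ₀ κ (φ₀ a) :=
  ⟨(σ.restrictScalars k₀).restrictNormal κ₀, fun a =>
    (AlgEquiv.restrictNormal_commutes (σ.restrictScalars k₀) κ₀ a).symm⟩

/-- every automorphism of `κ₀` over `k₀` can be extended to `κ`, over `K` -/
theorem exists_ext [Algebra.IsAlgebraic k₀ κ₀] [IsAlgClosed κ] [Algebra.IsAlgebraic K κ] {t : K}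
    (ht : RatF k₀ t) (φ₀ : κ₀ ≃ₐ[k₀] κ₀) :
    ∃ Φ : κ ≃ₐ[K] κ, ∀ a : κ₀, Φ (algebraMap κ₀ κ a) = algebraMap κ₀ κ (φ₀ a) := by
  have hT := ratT (κ := κ) ht (κ₀ := κ₀)
  haveI := algT (κ₀ := κ₀) (κ := κ) ht
  letI : Algebra κ₀[X] (TT κ₀ κ t) := (aeval (tT κ₀ κ t) : κ₀[X] →ₐ[κ₀] TT κ₀ κ t).toRingHom.toAlgebra
  have hmap : ∀ p : κ₀[X], algebraMap κ₀[X] (TT κ₀ κ t) p = aeval (tT κ₀ κ t) p := fun p => rfl
  have hinj : ∀ p : κ₀[X], aeval (tT κ₀ κ t) p = 0 → p = 0 := fun p hp =>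
    (transcendental_iff.1 hT.trans) p hp
  haveI : IsFractionRing κ₀[X] (TT κ₀ κ t) := by
    haveI : FaithfulSMul κ₀[X] (TT κ₀ κ t) := by
      rw [faithfulSMul_iff_algebraMap_injective, injective_iff_map_eq_zero]
      exact hinj
    refine IsFractionRing.of_field _ _ ?_
    intro z
    obtain ⟨p, q, hq, h⟩ := hT.exists_div z
    exact ⟨p, q, h⟩
  let h : κ₀[X] ≃+* κ₀[X] := Polynomial.mapEquiv (φ₀ : κ₀ ≃+* κ₀)
  have hh : ∀ p : κ₀[X], h p = p.map ((φ₀ : κ₀ ≃+* κ₀) : κ₀ →+* κ₀) := fun p => rfl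
  obtain ⟨ψ, hψ⟩ : ∃ ψ : TT κ₀ κ t ≃+* TT κ₀ κ t, ∀ p : κ₀[X],
      ψ (aeval (tT κ₀ κ t) p) = aeval (tT κ₀ κ t) (h p) :=
    ⟨IsFractionRing.ringEquivOfRingEquiv h, fun p =>
      IsFractionRing.ringEquivOfRingEquiv_algebraMap h p⟩
  obtain ⟨Ψ, hΨ⟩ : ∃ Ψ : κ ≃+* κ, ∀ y : TT κ₀ κ t, Ψ y = (ψ y : TT κ₀ κ t) := by
    haveI : IsAlgClosure (TT κ₀ κ t) κ := ⟨inferInstance, inferInstance⟩
    exact ⟨IsAlgClosure.equivOfEquiv κ κ ψ, fun y =>
      IsAlgClosure.equivOfEquiv_algebraMap κ κ ψ y⟩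
  have hconst : ∀ a : κ₀, Ψ (algebraMap κ₀ κ a) = algebraMap κ₀ κ (φ₀ a) := by
    intro a
    have h1 := hΨ (algebraMap κ₀ (TT κ₀ κ t) a)
    have h2 := hψ (C a)
    rw [aeval_C, hh, map_C, aeval_C] at h2
    rw [h2] at h1
    exact h1
  have ht' : Ψ (algebraMap K κ t) = algebraMap K κ t := by
    have h1 := hΨ (tT κ₀ κ t)
    have h2 := hψ X
    rw [aeval_X, hh, map_X, aeval_X] at h2
    rw [h2] at h1
    exact h1
  have hK : ∀ a : K, Ψ (algebraMap K κ a) = algebraMap K κ a := by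
    intro a
    have ha : a ∈ IntermediateField.adjoin k₀ {t} := by rw [ht.gen]; trivial
    induction ha using IntermediateField.adjoin_induction with
    | mem y hy =>
      rw [Set.mem_singleton_iff] at hy
      subst hy
      exact ht'
    | algebraMap c =>
      rw [← IsScalarTower.algebraMap_apply k₀ K κ, IsScalarTower.algebraMap_apply k₀ κ₀ κ, hconst,
        φ₀.commutes]
    | add a b _ _ ha hb => rw [map_add, map_add, ha, hb]
    | inv a _ ha => rw [map_inv₀, map_inv₀, ha]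
    | mul a b _ _ ha hb => rw [map_mul, map_mul, ha, hb]
  exact ⟨AlgEquiv.ofRingEquiv (f := Ψ) hK, hconst⟩

/-- a semilinear automorphism in the decomposition group -/
theorem exists_dec [Algebra.IsAlgebraic k₀ κ₀] [IsAlgClosed κ] [Algebra.IsAlgebraic K κ]
    [CharZero κ₀] {t : K}
    (ht : RatF k₀ t) (φ₀ : κ₀ ≃ₐ[k₀] κ₀) (V : ValuationSubring κ)
    (hV : ∀ a : κ₀, algebraMap κ₀ κ a ∈ V) (c : κ₀) (hc : φ₀ c = c)
    (htV : V.valuation (algebraMap K κ t - algebraMap κ₀ κ c) < 1) :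
    ∃ Φ : κ ≃ₐ[K] κ, (∀ a : κ₀, Φ (algebraMap κ₀ κ a) = algebraMap κ₀ κ (φ₀ a)) ∧
      ∀ z, Φ z ∈ V ↔ z ∈ V := by
  have hT := ratT (κ := κ) ht (κ₀ := κ₀)
  haveI := algT (κ₀ := κ₀) (κ := κ) ht
  haveI : CharZero (TT κ₀ κ t) :=
    charZero_of_injective_algebraMap (algebraMap κ₀ (TT κ₀ κ t)).injective
  haveI : Normal (TT κ₀ κ t) κ := by
    haveI : IsAlgClosure (TT κ₀ κ t) κ := ⟨inferInstance, inferInstance⟩
    exact IsAlgClosure.normal (TT κ₀ κ t) κ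
  obtain ⟨Φ₀, hΦ₀⟩ := exists_ext (κ := κ) ht φ₀
  obtain ⟨V', hV'⟩ : ∃ V' : ValuationSubring κ, V' = V.comap (Φ₀ : κ →+* κ) := ⟨_, rfl⟩
  have hmem : ∀ z, z ∈ V' ↔ Φ₀ z ∈ V := fun z => by rw [hV']; rfl
  have hval : ∀ z, V'.valuation z < 1 ↔ V.valuation (Φ₀ z) < 1 := by
    intro z
    rw [← ValuationSubring.mem_nonunits_iff, ← ValuationSubring.mem_nonunits_iff, nonunits_iff,
      nonunits_iff, hmem, hmem, map_inv₀, map_eq_zero_iff _ Φ₀.injective]
  have htt : algebraMap (TT κ₀ κ t) κ (tt (tT κ₀ κ t) (some c)) =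
      algebraMap K κ t - algebraMap κ₀ κ c := rfl
  have h1 : V.comap (algebraMap (TT κ₀ κ t) κ) = V'.comap (algebraMap (TT κ₀ κ t) κ) := by
    refine trace_val (ratF_tt hT (some c)) hV ?_ ?_ ?_
    · intro a
      rw [hmem, hΦ₀]
      exact hV _
    · rw [htt]
      exact htV
    · rw [htt, hval, map_sub, Φ₀.commutes, hΦ₀, hc]
      exact htV
  obtain ⟨γ, hγ⟩ := a_conj (TT κ₀ κ t) κ V V' h1
  have hγ' : ∀ z, Φ₀ z ∈ V ↔ γ z ∈ V := fun z => by rw [← hmem]; exact hγ z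
  refine ⟨Φ₀ * ofT ht γ⁻¹, fun a => ?_, fun z => ?_⟩
  · rw [AlgEquiv.mul_apply, ofT_const, hΦ₀]
  · rw [AlgEquiv.mul_apply, hγ', ofT_apply]
    have h2 : γ (γ⁻¹ z) = z := γ.apply_symm_apply z
    rw [h2]

end

end Pool.Agent.H889.RS
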