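import Pool.Agent.H889.RS.Rel

/-!
# The dichotomy, second part

(helper889.)
-/

set_option autoImplicit false
set_option linter.all false

open Polynomial FF

namespace Pool.Agent.H889.RS

open Pool.Agent.Y157.PS Pool.Agent.H889.PS Pool.Agent.H889.SY
open Pool.Agent.Y903.PS (tt ratF_tt)
open Pool.Agent.Y748.PS (gal_const exists_orbit lev_of_galois)
open Pool.Agent.R925.Q (Lift)
open Pool.Agent.Y31.PS (stab_triv)

section

variable {k₀ κ₀ K κ R M : Type} [Field k₀] [Field κ₀] [Field K] [Field κ] [Field R] [Field M]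
  [Algebra k₀ κ₀]
  [Algebra k₀ K] [Algebra K κ] [Algebra κ₀ κ] [Algebra k₀ κ] [IsScalarTower k₀ K κ]
  [IsScalarTower k₀ κ₀ κ] [Algebra κ₀ R] [Algebra R M] [Algebra κ₀ M] [IsScalarTower κ₀ R M]
  {x : R} {s : (κ ≃ₐ[K] κ) →* RingAut M}
  {ℓ : ℕ} [hℓ : Fact ℓ.Prime] {B : Finset κ₀} {ε : κ₀ → ℕ} {ι : ℕ}
  {N₀ : IntermediateField R M}
  [Normal k₀ κ₀] [CharZero κ₀] [IsAlgClosed κ₀] [IsAlgClosed κ] [Algebra.IsAlgebraic K κ]
  {t : K}

/-- an element of finite order which fixes uniformisers is trivial -/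
theorem triv_of_tors (hC : GCov ℓ κ₀ R M x B ε ι N₀) {Kf : Set M}
    (hKf : ∀ W : Place κ₀ M, ∃ π ∈ Kf, W.ord π = 1) {g : M ≃ₐ[R] M} {j : ℕ}
    (hj : g ^ (ℓ ^ j) = 1) (hg : ∀ z ∈ Kf, g z = z) : g = 1 := by
  haveI := hC.gal
  by_contra h1
  obtain ⟨n, h2, h3⟩ := exists_order j g hj h1
  obtain ⟨W, hW⟩ := exf hC (g ^ (ℓ ^ n)) h2 h3
  obtain ⟨π, hπ, hπ1⟩ := hKf W
  refine h3 (stab_triv a_stab hC.rat W _ hW hπ1 ?_)
  have h4 : ∀ a : ℕ, (g ^ a) π = π := by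
    intro a
    induction a with
    | zero => rfl
    | succ a ih => rw [pow_succ, AlgEquiv.mul_apply, hg π hπ, ih]
  exact h4 _

/-- the decomposition groups away from `t = 0` and `t = ∞` act trivially on `Kf` -/
def HH {t : K} (ht : RatF k₀ t) (s : (κ ≃ₐ[K] κ) →* RingAut M) (Kf : Set M) : Prop :=
  ∀ V : ValuationSubring κ, (∀ a : κ₀, algebraMap κ₀ κ a ∈ V) → ∀ c : κ₀, c ≠ 0 →
    V.valuation (algebraMap K κ t - algebraMap κ₀ κ c) < 1 → ∀ δ : κ ≃ₐ[TT κ₀ κ t] κ,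
    (∀ z, δ z ∈ V ↔ z ∈ V) → ∀ z ∈ Kf, s (ofT ht δ) z = z

/-- **no ramification away from `0` and infinity** -/
theorem unr (ht : RatF k₀ t) (hC : GCov ℓ κ₀ R M x B ε ι N₀) (hW : WtN ℓ k₀ κ₀ x N₀)
    (hs : HSec κ₀ K κ R M x s) {Kf : Set M} (hKf : ∀ W : Place κ₀ M, ∃ π ∈ Kf, W.ord π = 1)
    (hH : HH (κ₀ := κ₀) ht s Kf) {N : IntermediateField R M} {E : IntermediateField (TT κ₀ κ t) κ}
    (hE : Lev ℓ E) (hEU : E.fixingSubgroup = UN ht hC.rat hs N) (b : κ₀) (hb : b ≠ 0)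
    (w : Place κ₀ E) (hw : 0 < w.ord (algebraMap (TT κ₀ κ t) E (tt (tT κ₀ κ t) (some b)))) :
    w.ord (algebraMap (TT κ₀ κ t) E (tt (tT κ₀ κ t) (some b))) = 1 := by
  haveI := hE.fin
  haveI := hE.gal
  haveI : Normal (TT κ₀ κ t) E := hE.gal.to_normal
  haveI : Algebra.IsAlgebraic k₀ κ₀ := inferInstance
  haveI := algT (κ₀ := κ₀) (κ := κ) ht
  haveI : IsAlgClosure (TT κ₀ κ t) κ := ⟨inferInstance, inferInstance⟩
  haveI : Normal (TT κ₀ κ t) κ := IsAlgClosure.normal (TT κ₀ κ t) κ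
  have hT := ratT (κ := κ) ht (κ₀ := κ₀)
  obtain ⟨j, hj⟩ := hC.lev.card
  refine unr_of_stab hT hE (some b) (fun w hw g hg => ?_) w hw
  obtain ⟨V, hV⟩ := a_extv E κ w.O
  have hmem : ∀ z : E, (z : κ) ∈ V ↔ z ∈ w.O := by
    intro z
    rw [← hV]
    rfl
  have hVc : ∀ a : κ₀, algebraMap κ₀ κ a ∈ V := fun a =>
    (hmem (algebraMap κ₀ E a)).2 (w.reg_const a)
  have hfix : ∀ z : E, g z ∈ w.O ↔ z ∈ w.O := O_of_fixes w (g : E ≃+* E) hg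
  obtain ⟨G, hG, hGV⟩ := lift_stab E V g (fun z => by rw [hmem, hmem, hfix])
  have htV : V.valuation (algebraMap K κ t - algebraMap κ₀ κ b) < 1 := by
    rw [← ValuationSubring.mem_nonunits_iff, nonunits_iff]
    have h1 : algebraMap K κ t - algebraMap κ₀ κ b =
        ((algebraMap (TT κ₀ κ t) E (tt (tT κ₀ κ t) (some b)) : E) : κ) := rfl
    obtain ⟨y, hy⟩ : ∃ y : E, y = algebraMap (TT κ₀ κ t) E (tt (tT κ₀ κ t) (some b)) := ⟨_, rfl⟩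
    rw [← hy] at hw h1
    have hy0 : y ≠ 0 := by
      rintro rfl
      rw [w.ord_zero] at hw
      exact lt_irrefl _ hw
    rw [h1]
    refine ⟨(hmem y).2 ?_, Or.inr ?_⟩
    · rw [Place.mem_O, w.reg_iff hy0]
      exact hw.le
    · intro h2
      have h3 : y⁻¹ ∈ w.O := (hmem y⁻¹).1 h2
      rw [Place.mem_O, w.reg_iff (inv_ne_zero hy0), w.ord_inv] at h3
      omega
  have h1 := tors ht hC hW hs V hVc b htV hGV hj
  have h2 := triv_of_tors hC hKf h1 (hH V hVc b hb htV G hGV)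
  have h3 : G ∈ E.fixingSubgroup := by
    rw [hEU, mem_UN]
    intro w _
    rw [h2]
    rfl
  ext z
  rw [← hG]
  exact (IntermediateField.mem_fixingSubgroup_iff _ _).1 h3 z z.2

/-- **the action on a level is cyclic** -/
theorem cyc (ht : RatF k₀ t) (hC : GCov ℓ κ₀ R M x B ε ι N₀) (hW : WtN ℓ k₀ κ₀ x N₀)
    (hs : HSec κ₀ K κ R M x s) {Kf : Set M} (hKf : ∀ W : Place κ₀ M, ∃ π ∈ Kf, W.ord π = 1)
    (hH : HH (κ₀ := κ₀) ht s Kf) {ρ : κ} (hρ : ρ ^ ℓ = algebraMap K κ t)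
    (δ₀ : κ ≃ₐ[TT κ₀ κ t] κ) (hδ₀ : δ₀ ρ ≠ ρ) {N : IntermediateField R M} (hN : Lev ℓ N)
    (hst : ∀ σ w, w ∈ N → s σ w ∈ N) (G : κ ≃ₐ[TT κ₀ κ t] κ) :
    ∃ n : ℕ, ∀ z ∈ N, sT ht hC.rat hs G z = ((sT ht hC.rat hs δ₀) ^ n) z := by
  obtain ⟨E, hE, hEU, hEst⟩ := exists_E ht hC hs hN hst
  haveI := hE.fin
  haveI := hE.gal
  haveI : Normal (TT κ₀ κ t) E := hE.gal.to_normal
  haveI : Algebra.IsAlgebraic k₀ κ₀ := inferInstance
  haveI := algT (κ₀ := κ₀) (κ := κ) ht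
  haveI : IsAlgClosure (TT κ₀ κ t) κ := ⟨inferInstance, inferInstance⟩
  haveI : Normal (TT κ₀ κ t) κ := IsAlgClosure.normal (TT κ₀ κ t) κ
  have hT := ratT (κ := κ) ht (κ₀ := κ₀)
  have hres : ∀ (g : κ ≃ₐ[TT κ₀ κ t] κ) (z : E),
      ((AlgEquiv.restrictNormalHom E g z : E) : κ) = g z :=
    fun g z => AlgEquiv.restrictNormal_commutes g E z
  have h1 : Subgroup.zpowers (AlgEquiv.restrictNormalHom E δ₀) = ⊤ :=
    gen hT hE (fun b hb w hw => unr ht hC hW hs hKf hH hE hEU b hb w hw) (ρ := ρ) hρ δ₀ hδ₀ _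
      (AlgEquiv.restrictNormalHom E δ₀) (hres δ₀) (Subgroup.mem_zpowers _)
  have h2 : AlgEquiv.restrictNormalHom E G ∈ Subgroup.zpowers (AlgEquiv.restrictNormalHom E δ₀) := by
    rw [h1]; trivial
  rw [← mem_powers_iff_mem_zpowers] at h2
  obtain ⟨n, hn⟩ := h2
  refine ⟨n, fun z hz => ?_⟩
  have hn' : (AlgEquiv.restrictNormalHom E δ₀) ^ n = AlgEquiv.restrictNormalHom E G := hn
  have h3 : (δ₀ ^ n)⁻¹ * G ∈ E.fixingSubgroup := by
    rw [IntermediateField.mem_fixingSubgroup_iff]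
    intro y hy
    have h4 := hres ((δ₀ ^ n)⁻¹ * G) ⟨y, hy⟩
    rw [map_mul, map_inv, map_pow, hn', inv_mul_cancel] at h4
    exact h4.symm
  rw [hEU, mem_UN] at h3
  have h4 := h3 z hz
  rw [map_mul, map_inv, map_pow, AlgEquiv.mul_apply] at h4
  have h5 := congrArg ((sT ht hC.rat hs δ₀) ^ n) h4
  have h6 : ((sT ht hC.rat hs δ₀) ^ n) (((sT ht hC.rat hs δ₀) ^ n)⁻¹ (sT ht hC.rat hs G z)) =
    sT ht hC.rat hs G z := ((sT ht hC.rat hs δ₀) ^ n).apply_symm_apply _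
  rw [h6] at h5
  exact h5

end

end Pool.Agent.H889.RS
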