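import Pool.Agent.H889.RS.Act

/-!
# Exchange

(helper889.)
-/

set_option autoImplicit false
set_option linter.all false

open Polynomial FF

namespace Pool.Agent.H889.RS

open Pool.Agent.Y157.PS Pool.Agent.H889.PS
open Pool.Agent.Y903.PS (tt ratF_tt)

section exch

variable {κ₀ κ Ω : Type} [Field κ₀] [Field κ] [Field Ω] [Algebra κ₀ κ] [Algebra κ Ω] [Algebra κ₀ Ω]
  [IsScalarTower κ₀ κ Ω]

/-- exchange -/
theorem exchange {T : κ} (hT : Transcendental κ₀ T) {X : Ω} (hX : Transcendental κ X) :
    Transcendental (IntermediateField.adjoin κ₀ {X}) (algebraMap κ Ω T) := by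
  have h1 : AlgebraicIndependent κ₀ (fun _ : Unit => T) :=
    algebraicIndependent_unique_type_iff.2 hT
  have h2 : AlgebraicIndependent κ (fun _ : Unit => X) :=
    algebraicIndependent_unique_type_iff.2 hX
  have h3 := h1.sumElim_comp h2
  have h4 := h3.transcendental_adjoin (s := {Sum.inl ()}) (i := Sum.inr ()) (by simp)
  rw [Set.image_singleton] at h4
  rw [IntermediateField.transcendental_adjoin_iff]
  exact h4

variable {R M : Type} [Field R] [Field M] [Algebra κ₀ R] [Algebra R M] [Algebra κ₀ M]
  [IsScalarTower κ₀ R M] [Algebra M Ω] [IsScalarTower κ₀ M Ω] {x : R}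

/-- `T` is transcendental over `M` -/
theorem trans_M (hR : RatF κ₀ x) [Algebra.IsAlgebraic R M] {T : κ} (hT : Transcendental κ₀ T)
    (hX : Transcendental κ (algebraMap M Ω (algebraMap R M x))) :
    Transcendental M (algebraMap κ Ω T) := by
  intro hM
  refine exchange hT hX ?_
  letI : Algebra R Ω := ((algebraMap M Ω).comp (algebraMap R M)).toAlgebra
  haveI : IsScalarTower R M Ω := IsScalarTower.of_algebraMap_eq fun _ => rfl
  have h1 : IsAlgebraic R (algebraMap κ Ω T) := hM.restrictScalars R
  have hmap : ∀ z : R, algebraMap R Ω z ∈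
      IntermediateField.adjoin κ₀ {algebraMap M Ω (algebraMap R M x)} := by
    intro z
    have hz : z ∈ IntermediateField.adjoin κ₀ {x} := by rw [hR.gen]; trivial
    induction hz using IntermediateField.adjoin_induction with
    | mem y hy =>
      rw [Set.mem_singleton_iff] at hy
      rw [hy]
      exact IntermediateField.mem_adjoin_simple_self _ _
    | algebraMap c =>
      have h5 : algebraMap R Ω (algebraMap κ₀ R c) = algebraMap κ₀ Ω c := by
        change algebraMap M Ω (algebraMap R M (algebraMap κ₀ R c)) = _
        rw [← IsScalarTower.algebraMap_apply κ₀ R M, ← IsScalarTower.algebraMap_apply]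
      rw [h5]
      exact IntermediateField.algebraMap_mem _ _
    | add a b _ _ ha hb => rw [map_add]; exact add_mem ha hb
    | inv a _ ha => rw [map_inv₀]; exact inv_mem ha
    | mul a b _ _ ha hb => rw [map_mul]; exact mul_mem ha hb
  let i : R →+* IntermediateField.adjoin κ₀ {algebraMap M Ω (algebraMap R M x)} :=
    (algebraMap R Ω).codRestrict
      (IntermediateField.adjoin κ₀ {algebraMap M Ω (algebraMap R M x)}).toSubfield.toSubring hmap
  letI : Algebra R (IntermediateField.adjoin κ₀ {algebraMap M Ω (algebraMap R M x)}) := i.toAlgebra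
  haveI : IsScalarTower R (IntermediateField.adjoin κ₀ {algebraMap M Ω (algebraMap R M x)}) Ω :=
    IsScalarTower.of_algebraMap_eq fun _ => rfl
  exact h1.tower_top _

end exch

end Pool.Agent.H889.RS
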