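import Pool.Agent.H889.RS.Lead

/-!
# Existence of prolongations to the compositum

(helper889.)
-/

set_option autoImplicit false
set_option linter.all false

open Polynomial FF

namespace Pool.Agent.H889.RS

open Pool.Agent.Y157.PS Pool.Agent.H889.PS

section rat

variable {κ R Ω : Type} [Field κ] [Field R] [Field Ω] [Algebra κ R] [Algebra R Ω] [Algebra κ Ω]
  [IsScalarTower κ R Ω] {t : R}

/-- residues of rational functions at `t = 0` -/
theorem res_rat (ht : RatF κ t) {W : ValuationSubring Ω} (hc : ∀ c : κ, algebraMap κ Ω c ∈ W)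
    (h : W.valuation (algebraMap R Ω t) < 1) (z : R) (hz : algebraMap R Ω z ∈ W) :
    ∃ a : κ, algebraMap R Ω z - algebraMap κ Ω a ∈ W.nonunits := by
  obtain ⟨T, hT⟩ : ∃ T, T = algebraMap R Ω t := ⟨_, rfl⟩
  rw [← hT] at h
  have hTW : T ∈ W := (W.valuation_le_one_iff _).1 h.le
  have hTn : T ∈ W.nonunits := (ValuationSubring.mem_nonunits_iff W).2 h
  have hpW : ∀ p : κ[X], aeval T p ∈ W := by
    intro p
    rw [aeval_eq_sum_range]
    refine sum_mem fun i _ => ?_
    rw [Algebra.smul_def]
    exact mul_mem (hc _) (pow_mem hTW i)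
  have hp0 : ∀ p : κ[X], aeval T p - algebraMap κ Ω (p.coeff 0) ∈ W.nonunits := by
    intro p
    have h2 : aeval T p - algebraMap κ Ω (p.coeff 0) = aeval T p.divX * T := by
      conv_lhs => rw [← divX_mul_X_add p]
      rw [map_add, map_mul, aeval_X, aeval_C, coeff_add, coeff_C_zero, mul_coeff_zero, coeff_X_zero,
        mul_zero, zero_add]
      ring
    rw [h2]
    exact non_mul (hpW _) hTn
  have hunit : ∀ p : κ[X], p.coeff 0 ≠ 0 → W.valuation (aeval T p) = 1 := by
    intro p hp
    have h4 := Pool.Agent.Y809.PS.val_const hc (W := W) hp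
    have h5 : aeval T p = algebraMap κ Ω (p.coeff 0) +
      (aeval T p - algebraMap κ Ω (p.coeff 0)) := by ring
    rw [h5, Valuation.map_add_eq_of_lt_left, h4]
    rw [h4]
    exact (ValuationSubring.mem_nonunits_iff W).1 (hp0 p)
  by_cases hz0 : z = 0
  · exact ⟨0, by rw [hz0, map_zero, map_zero, sub_zero]; exact non_zero⟩
  obtain ⟨r, s, hrs⟩ := Pool.Agent.Y809.PS.RatF_rep ht z
  have hr : r ≠ 0 := by
    rintro rfl
    apply hz0
    rw [hrs, map_zero, zero_div]
  have hs : s ≠ 0 := by
    rintro rfl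
    apply hz0
    rw [hrs, map_zero, div_zero]
  obtain ⟨r', hr1, hr2⟩ := exists_eq_pow_rootMultiplicity_mul_and_not_dvd r hr 0
  obtain ⟨s', hs1, hs2⟩ := exists_eq_pow_rootMultiplicity_mul_and_not_dvd s hs 0
  have hr0 : r'.coeff 0 ≠ 0 := by
    intro h
    apply hr2
    rw [dvd_iff_isRoot, IsRoot.def, ← coeff_zero_eq_eval_zero, h]
  have hs0 : s'.coeff 0 ≠ 0 := by
    intro h
    apply hs2
    rw [dvd_iff_isRoot, IsRoot.def, ← coeff_zero_eq_eval_zero, h]
  have e1 : aeval T r = T ^ (r.rootMultiplicity 0) * aeval T r' := by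
    have h5 := congrArg (aeval T) hr1
    rwa [C_0, sub_zero, map_mul, map_pow, aeval_X] at h5
  have e2 : aeval T s = T ^ (s.rootMultiplicity 0) * aeval T s' := by
    have h5 := congrArg (aeval T) hs1
    rwa [C_0, sub_zero, map_mul, map_pow, aeval_X] at h5
  have hzT : algebraMap R Ω z = aeval T r / aeval T s := by
    rw [hrs, map_div₀, ← aeval_algebraMap_apply, ← aeval_algebraMap_apply, hT]
  have hT0 : T ≠ 0 := by
    rintro h0
    rw [h0] at hT
    exact ht.trans (by
      have h6 : t = 0 := (algebraMap R Ω).injective (by rw [← hT, map_zero])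
      rw [h6]
      exact isAlgebraic_zero)
  have hvT : W.valuation T ≠ 0 := (Valuation.ne_zero_iff _).2 hT0
  rcases lt_or_eq_of_le ((W.valuation_le_one_iff _).2 hz) with h1 | h1
  · refine ⟨0, ?_⟩
    rw [map_zero, sub_zero]
    exact (ValuationSubring.mem_nonunits_iff W).2 h1
  · -- equal multiplicities
    have h2 : W.valuation T ^ (r.rootMultiplicity 0) = W.valuation T ^ (s.rootMultiplicity 0) := by
      rw [hzT, e1, e2, map_div₀, map_mul, map_mul, map_pow, map_pow, hunit r' hr0, hunit s' hs0,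
        mul_one, mul_one] at h1
      exact (div_eq_one_iff_eq (pow_ne_zero _ hvT)).1 h1
    have h3 : r.rootMultiplicity 0 = s.rootMultiplicity 0 := by
      rcases lt_trichotomy (r.rootMultiplicity 0) (s.rootMultiplicity 0) with h3 | h3 | h3
      · exact absurd h2 (pow_lt_pow_right_of_lt_one₀ (zero_lt_iff.2 hvT) h h3).ne'
      · exact h3
      · exact absurd h2 (pow_lt_pow_right_of_lt_one₀ (zero_lt_iff.2 hvT) h h3).ne
    refine ⟨r'.coeff 0 / s'.coeff 0, ?_⟩
    have hs'0 : aeval T s' ≠ 0 := by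
      intro h4
      have h5 := hunit s' hs0
      rw [h4, map_zero] at h5
      exact zero_ne_one h5
    have hsc : algebraMap κ Ω (s'.coeff 0) ≠ 0 := (_root_.map_ne_zero _).2 hs0
    have h4 : algebraMap R Ω z - algebraMap κ Ω (r'.coeff 0 / s'.coeff 0) =
        (algebraMap κ Ω (s'.coeff 0) * (aeval T r' - algebraMap κ Ω (r'.coeff 0)) -
          algebraMap κ Ω (r'.coeff 0) * (aeval T s' - algebraMap κ Ω (s'.coeff 0))) /
          (aeval T s' * algebraMap κ Ω (s'.coeff 0)) := by
      rw [hzT, e1, e2, h3, map_div₀, mul_div_mul_left _ _ (pow_ne_zero _ hT0)]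
      field_simp
      ring
    rw [h4, ValuationSubring.mem_nonunits_iff, map_div₀, map_mul, hunit s' hs0,
      Pool.Agent.Y809.PS.val_const hc (W := W) hs0, mul_one, div_one,
      ← ValuationSubring.mem_nonunits_iff]
    have h8 := non_mul (hc (s'.coeff 0)) (hp0 r')
    have h9 := non_neg (non_mul (hc (r'.coeff 0)) (hp0 s'))
    have h10 := non_add h8 h9
    rwa [← sub_eq_add_neg] at h10

end rat

section lin

variable {κ₀ κ S E : Type} [Field κ₀] [Field κ] [Field S] [Field E] [Algebra κ₀ κ] [Algebra κ₀ S]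
  [Algebra κ E] [Algebra S E] [Algebra κ₀ E] [IsScalarTower κ₀ κ E] [IsScalarTower κ₀ S E]

/-- `S` is contained in a valuation ring for which the residue field of `κ` is `κ₀` -/
structure Spl (κ₀ κ S : Type) {E : Type} [Field κ₀] [Field κ] [Field S] [Field E] [Algebra κ E]
    [Algebra S E] [Algebra κ₀ E] (V : ValuationSubring E) : Prop where
  con : ∀ y : S, algebraMap S E y ∈ V
  res : ∀ c : κ, algebraMap κ E c ∈ V →
    ∃ a : κ₀, algebraMap κ E c - algebraMap κ₀ E a ∈ V.nonunits

theorem Spl.zero {V : ValuationSubring E} (h : Spl κ₀ κ S V) {y : S}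
    (hy : algebraMap S E y ∈ V.nonunits) : y = 0 := by
  by_contra h0
  rw [nonunits_iff] at hy
  rcases hy.2 with h1 | h1
  · exact h0 ((_root_.map_eq_zero _).1 h1)
  · apply h1
    rw [← map_inv₀]
    exact h.con _

/-- **linear disjointness** -/
theorem lin {V : ValuationSubring E} (h : Spl κ₀ κ S V) (J : Submodule κ₀ S) (n : ℕ) :
    ∀ (ι : Type) (s : Finset ι) (c : ι → κ) (m : ι → S), s.card = n → (∀ i ∈ s, m i ∈ J) →
      ∀ y : S, ∑ i ∈ s, algebraMap κ E (c i) * algebraMap S E (m i) = algebraMap S E y → y ∈ J := by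
  classical
  induction n with
  | zero =>
    intro ι s c m hs hJ y hy
    rw [Finset.card_eq_zero] at hs
    rw [hs, Finset.sum_empty] at hy
    have h1 : y = 0 := (_root_.map_eq_zero _).1 hy.symm
    rw [h1]
    exact zero_mem _
  | succ n ih =>
    intro ι s c m hs hJ y hy
    by_cases hall : ∀ i ∈ s, algebraMap κ E (c i) ∈ V
    · have h1 : ∀ i, ∃ a : κ₀, i ∈ s →
          algebraMap κ E (c i) - algebraMap κ₀ E a ∈ V.nonunits := by
        intro i
        by_cases hi : i ∈ s
        · obtain ⟨a, ha⟩ := h.res _ (hall i hi)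
          exact ⟨a, fun _ => ha⟩
        · exact ⟨0, fun h => absurd h hi⟩
      choose a ha using h1
      have h2 : algebraMap S E (y - ∑ i ∈ s, a i • m i) ∈ V.nonunits := by
        have h3 : algebraMap S E (y - ∑ i ∈ s, a i • m i) =
            ∑ i ∈ s, algebraMap S E (m i) * (algebraMap κ E (c i) - algebraMap κ₀ E (a i)) := by
          rw [map_sub, ← hy, map_sum, ← Finset.sum_sub_distrib]
          refine Finset.sum_congr rfl fun i _ => ?_
          rw [Algebra.smul_def, map_mul, ← IsScalarTower.algebraMap_apply]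
          ring
        rw [h3]
        exact non_sum _ _ fun i hi => non_mul (h.con _) (ha i hi)
      have h3 := h.zero h2
      rw [sub_eq_zero] at h3
      rw [h3]
      exact Submodule.sum_mem _ fun i hi => Submodule.smul_mem _ _ (hJ i hi)
    · push Not at hall
      obtain ⟨i₁, hi₁, hi₁'⟩ := hall
      obtain ⟨i₀, hi₀, hmax⟩ := Finset.exists_max_image s
        (fun i => V.valuation (algebraMap κ E (c i))) ⟨i₁, hi₁⟩
      have hi₀' : 1 < V.valuation (algebraMap κ E (c i₀)) := by
        refine lt_of_lt_of_le ?_ (hmax i₁ hi₁)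
        rw [← not_le, ValuationSubring.valuation_le_one_iff]
        exact hi₁'
      have hc0 : c i₀ ≠ 0 := by
        intro h0
        rw [h0, map_zero, map_zero] at hi₀'
        exact not_lt.2 zero_le_one hi₀'
      have hc0' : algebraMap κ E (c i₀) ≠ 0 := (_root_.map_ne_zero _).2 hc0
      have hd : ∀ j ∈ s, algebraMap κ E (c j / c i₀) ∈ V := by
        intro j hj
        rw [← ValuationSubring.valuation_le_one_iff, map_div₀, map_div₀]
        exact div_le_one_of_le₀ (hmax j hj) zero_le
      have h1 : ∀ j, ∃ a : κ₀, j ∈ s →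
          algebraMap κ E (c j / c i₀) - algebraMap κ₀ E a ∈ V.nonunits := by
        intro i
        by_cases hi : i ∈ s
        · obtain ⟨a, ha⟩ := h.res _ (hd i hi)
          exact ⟨a, fun _ => ha⟩
        · exact ⟨0, fun h => absurd h hi⟩
      choose a ha using h1
      have hinv : (algebraMap κ E (c i₀))⁻¹ ∈ V.nonunits := by
        rw [ValuationSubring.mem_nonunits_iff, map_inv₀]
        exact inv_lt_one_of_one_lt₀ hi₀'
      have h2 : algebraMap S E (m i₀ + ∑ j ∈ s.erase i₀, a j • m j) ∈ V.nonunits := by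
        have h3 : algebraMap S E (m i₀ + ∑ j ∈ s.erase i₀, a j • m j) =
            algebraMap S E y * (algebraMap κ E (c i₀))⁻¹ + -∑ j ∈ s.erase i₀, algebraMap S E (m j) *
              (algebraMap κ E (c j / c i₀) - algebraMap κ₀ E (a j)) := by
          rw [← hy, ← Finset.add_sum_erase s _ hi₀, add_mul, Finset.sum_mul, map_add, map_sum,
            add_assoc, ← sub_eq_add_neg, ← Finset.sum_sub_distrib]
          congr 1
          · field_simp
          · refine Finset.sum_congr rfl fun i _ => ?_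
            rw [Algebra.smul_def, map_mul, ← IsScalarTower.algebraMap_apply, map_div₀]
            field_simp
            ring
        rw [h3]
        exact non_add (non_mul (h.con _) hinv)
          (non_neg (non_sum _ _ fun j hj => non_mul (h.con _) (ha j (Finset.mem_of_mem_erase hj))))
      have h3 := h.zero h2
      have h4 : m i₀ = -∑ j ∈ s.erase i₀, a j • m j := eq_neg_of_add_eq_zero_left h3
      refine ih ι (s.erase i₀) (fun j => c j - c i₀ * algebraMap κ₀ κ (a j)) m
        (by rw [Finset.card_erase_of_mem hi₀, hs]; rfl)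
        (fun i hi => hJ i (Finset.mem_of_mem_erase hi)) y ?_
      rw [← hy, ← Finset.add_sum_erase s _ hi₀, h4, map_neg, map_sum, mul_neg, Finset.mul_sum,
        ← sub_eq_neg_add, ← Finset.sum_sub_distrib]
      refine Finset.sum_congr rfl fun i _ => ?_
      rw [Algebra.smul_def, map_mul, map_sub, map_mul, ← IsScalarTower.algebraMap_apply,
        ← IsScalarTower.algebraMap_apply]
      ring

/-- **existence of a prolongation** -/
theorem exists_above {V : ValuationSubring E} (h : Spl κ₀ κ S V) (O : ValuationSubring S)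
    (hO : ∀ a : κ₀, algebraMap κ₀ S a ∈ O) : ∃ W : ValuationSubring E, Ab κ O W := by
  classical
  obtain ⟨P, hP⟩ : ∃ P : Submonoid E, P = O.toSubring.toSubmonoid.map (algebraMap S E : S →* E) :=
    ⟨_, rfl⟩
  obtain ⟨A, hA⟩ : ∃ A : Subalgebra κ E, A = Algebra.adjoin κ (P : Set E) := ⟨_, rfl⟩
  obtain ⟨Q, hQ⟩ : ∃ Q : Set E, Q = (algebraMap S E) '' (O.nonunits : Set S) := ⟨_, rfl⟩
  have hmemP : ∀ z : E, z ∈ (P : Set E) ↔ ∃ y ∈ O, algebraMap S E y = z := by
    intro z
    rw [hP]
    rfl
  have hAspan : ∀ z : E, z ∈ A ↔ z ∈ Submodule.span κ (P : Set E) := by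
    intro z
    rw [hA, ← Subalgebra.mem_toSubmodule, Algebra.adjoin_eq_span, Submonoid.closure_eq]
  have hPA : ∀ z ∈ (P : Set E), z ∈ A := fun z hz => by
    rw [hAspan]
    exact Submodule.subset_span hz
  have hPQ : ∀ p ∈ (P : Set E), ∀ q ∈ Q, p * q ∈ Q := by
    intro p hp q hq
    obtain ⟨y, hy, rfl⟩ := (hmemP p).1 hp
    rw [hQ] at hq ⊢
    obtain ⟨w, hw, rfl⟩ := hq
    exact ⟨y * w, non_mul hy hw, by rw [map_mul]⟩
  have hmul : ∀ a ∈ A, ∀ z ∈ Submodule.span κ Q, a * z ∈ Submodule.span κ Q := by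
    intro a ha z hz
    rw [hAspan] at ha
    have h1 := Submodule.mul_mem_mul ha hz
    rw [Submodule.span_mul_span] at h1
    refine Submodule.span_mono ?_ h1
    rintro _ ⟨p, hp, q, hq, rfl⟩
    exact hPQ p hp q hq
  have hQA : ∀ z ∈ Q, z ∈ A := by
    intro z hz
    apply hPA
    rw [hmemP]
    rw [hQ] at hz
    obtain ⟨w, hw, rfl⟩ := hz
    exact ⟨w, non_mem hw, rfl⟩
  obtain ⟨I, hI⟩ : ∃ I : Ideal A.toSubring, I = Ideal.span {z : A.toSubring | (z : E) ∈ Q} := ⟨_, rfl⟩
  have hIspan : ∀ z : A.toSubring, z ∈ I → (z : E) ∈ Submodule.span κ Q := by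
    intro z hz
    rw [hI] at hz
    induction hz using Submodule.span_induction with
    | mem z hz => exact Submodule.subset_span hz
    | zero => exact zero_mem _
    | add a b _ _ ha hb => exact add_mem ha hb
    | smul a b _ hb => exact hmul a a.2 b hb
  have hI1 : I ≠ ⊤ := by
    intro htop
    have h1 : ((1 : A.toSubring) : E) ∈ Submodule.span κ Q := hIspan 1 (by rw [htop]; trivial)
    rw [Submodule.mem_span_set'] at h1
    obtain ⟨n, f, g, hfg⟩ := h1
    have h2 : ∀ i, ∃ w : S, w ∈ O.nonunits ∧ algebraMap S E w = g i := by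
      intro i
      have h3 : ∀ q ∈ Q, ∃ w : S, w ∈ O.nonunits ∧ algebraMap S E w = q := by
        intro q hq
        rw [hQ] at hq
        exact hq
      exact h3 _ (g i).2
    choose w hw1 hw2 using h2
    let J : Submodule κ₀ S :=
      { carrier := {y | y ∈ O.nonunits}
        add_mem' := fun ha hb => non_add ha hb
        zero_mem' := non_zero
        smul_mem' := fun a y hy => by
          change a • y ∈ O.nonunits
          rw [Algebra.smul_def]
          exact non_mul (hO a) hy }
    have h3 : (1 : S) ∈ J := by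
      refine lin h J n (Fin n) Finset.univ f w (by simp) (fun i _ => hw1 i) 1 ?_
      rw [map_one]
      have h4 : ((1 : A.toSubring) : E) = 1 := rfl
      rw [← h4, ← hfg]
      refine Finset.sum_congr rfl fun i _ => ?_
      rw [hw2, Algebra.smul_def]
    have h4 : (1 : S) ∈ O.nonunits := h3
    rw [ValuationSubring.mem_nonunits_iff, map_one] at h4
    exact lt_irrefl _ h4
  obtain ⟨W, hW1, hW2⟩ := Ideal.image_subset_nonunits_valuationSubring I hI1
  have hnon : ∀ y ∈ O.nonunits, algebraMap S E y ∈ W.nonunits := by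
    intro y hy
    have h1 : algebraMap S E y ∈ Q := by rw [hQ]; exact ⟨y, hy, rfl⟩
    refine hW2 ⟨⟨algebraMap S E y, hQA _ h1⟩, ?_, rfl⟩
    rw [hI]
    exact Ideal.subset_span h1
  refine ⟨W, fun a => hW1 (A.algebraMap_mem a), fun y => ⟨fun hy => ?_, fun hy => ?_⟩⟩
  · by_contra hyO
    have hy0 : y ≠ 0 := by
      rintro rfl
      exact hyO (zero_mem _)
    have h1 : y⁻¹ ∈ O.nonunits := by
      rw [nonunits_iff]
      refine ⟨(O.mem_or_inv_mem y).resolve_left hyO, Or.inr ?_⟩
      rwa [inv_inv]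
    have h2 := non_mul hy (hnon _ h1)
    rw [← map_mul, mul_inv_cancel₀ hy0, map_one, ValuationSubring.mem_nonunits_iff, map_one] at h2
    exact lt_irrefl _ h2
  · exact hW1 (hPA _ ((hmemP _).2 ⟨y, hy, rfl⟩))

/-- a valuation ring which contains `S` -/
theorem exists_spl [IsAlgClosed κ₀] {t : E} (ht : Transcendental S t) (ht₀ : Transcendental κ₀ t)
    (halg : ∀ c : κ, IsAlgebraic (IntermediateField.adjoin κ₀ {t}) (algebraMap κ E c)) :
    ∃ V : ValuationSubring E, Spl κ₀ κ S V := by
  classical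
  obtain ⟨A, hA⟩ : ∃ A : Subalgebra S E, A = Algebra.adjoin S {t} := ⟨_, rfl⟩
  have htA : t ∈ A := by rw [hA]; exact Algebra.subset_adjoin rfl
  have hI1 : (Ideal.span {(⟨t, htA⟩ : A.toSubring)}) ≠ ⊤ := by
    intro htop
    have h1 : (1 : A.toSubring) ∈ Ideal.span {(⟨t, htA⟩ : A.toSubring)} := by rw [htop]; trivial
    rw [Ideal.mem_span_singleton'] at h1
    obtain ⟨⟨a, ha⟩, h2⟩ := h1
    have h3 : a * t = 1 := congrArg (fun z : A.toSubring => (z : E)) h2
    have ha' : a ∈ A := ha
    rw [hA, Algebra.adjoin_singleton_eq_range_aeval] at ha'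
    obtain ⟨p, hp⟩ := ha'
    have h4 : aeval t (p * X - 1) = 0 := by
      have hp' : aeval t p = a := hp
      rw [map_sub, map_mul, aeval_X, map_one, hp', h3, sub_self]
    have h5 := (transcendental_iff.1 ht) _ h4
    have h6 := congrArg (fun q : S[X] => q.coeff 0) h5
    simp at h6
  obtain ⟨V, hV1, hV2⟩ := Ideal.image_subset_nonunits_valuationSubring _ hI1
  have hS : ∀ y : S, algebraMap S E y ∈ V := fun y => hV1 (A.algebraMap_mem y)
  have hκ₀ : ∀ a : κ₀, algebraMap κ₀ E a ∈ V := fun a => by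
    rw [IsScalarTower.algebraMap_apply κ₀ S E]
    exact hS _
  have htV : t ∈ V.nonunits := hV2 ⟨⟨t, htA⟩, Ideal.subset_span rfl, rfl⟩
  refine ⟨V, hS, fun c hc => ?_⟩
  refine Pool.Agent.V11235.SL.residue_alg (k := κ₀) (F := IntermediateField.adjoin κ₀ {t}) (K := κ₀)
    (algebraMap κ₀ E) (fun a => rfl) V hκ₀ (fun z hz => ?_) _ (halg c) hc
  obtain ⟨a, ha⟩ := res_rat (Ω := E) (ratF_adj ht₀) (W := V) hκ₀
    ((ValuationSubring.mem_nonunits_iff V).1 htV) z hz
  exact ⟨a, by rw [map_sub]; exact ha⟩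

end lin

end Pool.Agent.H889.RS
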