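import Pool.Agent.H889.RS.Kt

/-!
# Extensions of `κ(x)` unramified outside of two points

(helper889.)
-/

set_option autoImplicit false
set_option linter.all false

open Polynomial FF

namespace Pool.Agent.H889.RS

open Pool.Agent.Y157.PS Pool.Agent.H889.PS Pool.Agent.H889.SY
open Pool.Agent.Y903.PS (tt ratF_tt)
open Pool.Agent.Y748.PS (rou_const gal_const)

section

variable {ℓ : ℕ} [hℓ : Fact ℓ.Prime] {κ R Ω : Type} [Field κ] [IsAlgClosed κ] [CharZero κ]
  [Field R] [Field Ω] [Algebra κ R] [Algebra R Ω] [Algebra κ Ω] [IsScalarTower κ R Ω] {x : R}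

/-- `x` is not an `ℓ`-th power -/
theorem not_pow (hx : RatF κ x) (b : R) : b ^ ℓ ≠ x := by
  intro hb
  obtain ⟨P, Q, hQ, h⟩ := hx.exists_div b
  have hinj : Function.Injective (aeval x : κ[X] →ₐ[κ] R) := by
    rw [injective_iff_map_eq_zero]
    intro p hp
    exact (transcendental_iff.1 hx.trans) p hp
  have hQ0 : Q ≠ 0 := by
    rintro rfl
    exact hQ (by rw [map_zero])
  have h0 : (aeval x P) ^ ℓ = x * (aeval x Q) ^ ℓ := by
    have h2 : aeval x P = b * aeval x Q := by rw [h, div_mul_cancel₀ _ hQ]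
    rw [h2, mul_pow, hb]
  have h1 : P ^ ℓ = X * Q ^ ℓ := by
    apply hinj
    rw [map_mul, map_pow, map_pow, aeval_X, h0]
  have h2 := congrArg natDegree h1
  rw [natDegree_pow, natDegree_X_mul (pow_ne_zero _ hQ0), natDegree_pow] at h2
  have h3 : ℓ ∣ 1 := by
    have h4 : ℓ ∣ ℓ * Q.natDegree + 1 := by rw [← h2]; exact dvd_mul_right _ _
    exact (Nat.dvd_add_right (dvd_mul_right _ _)).1 h4
  exact hℓ.out.one_lt.ne' (Nat.dvd_one.1 h3)

/-- the field generated by an `ℓ`-th root of `x` -/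
theorem lev_root (hx : RatF κ x) [Normal R Ω] {ρ : Ω} (hρ : ρ ^ ℓ = algebraMap R Ω x) :
    Lev ℓ (IntermediateField.adjoin R {ρ}) := by
  haveI : CharZero R := charZero_of_injective_algebraMap (algebraMap κ R).injective
  have hℓ0 : ℓ ≠ 0 := hℓ.out.ne_zero
  have hirr : Irreducible (X ^ ℓ - C x : R[X]) :=
    X_pow_sub_C_irreducible_of_prime hℓ.out fun b hb => not_pow hx b hb
  have hmon : (X ^ ℓ - C x : R[X]).Monic := monic_X_pow_sub_C x hℓ0
  have hroot : aeval ρ (X ^ ℓ - C x : R[X]) = 0 := by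
    rw [map_sub, map_pow, aeval_X, aeval_C, hρ, sub_self]
  have hmin : (X ^ ℓ - C x : R[X]) = minpoly R ρ :=
    minpoly.eq_of_irreducible_of_monic hirr hroot hmon
  have hint : IsIntegral R ρ := ⟨_, hmon, hroot⟩
  haveI hfin : FiniteDimensional R (IntermediateField.adjoin R {ρ}) :=
    IntermediateField.adjoin.finiteDimensional hint
  have hnorm : Normal R (IntermediateField.adjoin R {ρ}) := by
    rw [IntermediateField.normal_iff_forall_map_le']
    intro g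
    rw [IntermediateField.adjoin_map, IntermediateField.adjoin_le_iff]
    rintro _ ⟨w, hw, rfl⟩
    rw [Set.mem_singleton_iff] at hw
    rw [hw]
    change g ρ ∈ _
    by_cases hρ0 : ρ = 0
    · rw [hρ0, map_zero]
      exact zero_mem _
    have h1 : (g ρ / ρ) ^ ℓ = 1 := by
      rw [div_pow, ← map_pow, hρ, g.commutes, div_self]
      rw [← hρ]
      exact pow_ne_zero _ hρ0
    obtain ⟨c, -, hc⟩ := rou_const (κ := κ) hℓ.out.pos h1
    have h2 : g ρ = algebraMap κ Ω c * ρ := by rw [hc, div_mul_cancel₀ _ hρ0]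
    rw [h2, IsScalarTower.algebraMap_apply κ R Ω]
    exact mul_mem (IntermediateField.algebraMap_mem _ _)
      (IntermediateField.mem_adjoin_simple_self R ρ)
  haveI : Algebra.IsSeparable R (IntermediateField.adjoin R {ρ}) := inferInstance
  refine ⟨hfin, ⟨⟩, 1, ?_⟩
  rw [IntermediateField.adjoin.finrank hint, ← hmin, natDegree_X_pow_sub_C, pow_one]

/-- a generator of the stabiliser of a place over `0`, in the decomposition group -/
theorem exists_delta (hx : RatF κ x) [Normal R Ω] {ρ : Ω} (hρ : ρ ^ ℓ = algebraMap R Ω x)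
    (V : ValuationSubring Ω) (hc : ∀ c : κ, algebraMap κ Ω c ∈ V)
    (hV : V.valuation (algebraMap R Ω x) < 1) :
    ∃ G : Ω ≃ₐ[R] Ω, G ρ ≠ ρ ∧ ∀ z, G z ∈ V ↔ z ∈ V := by
  have hN := lev_root (ℓ := ℓ) hx hρ
  obtain ⟨N, hNd⟩ : ∃ N, N = IntermediateField.adjoin R {ρ} := ⟨_, rfl⟩
  rw [← hNd] at hN
  haveI := hN.fin
  haveI := hN.gal
  haveI : Normal R N := hN.gal.to_normal
  have hρN : ρ ∈ N := by rw [hNd]; exact IntermediateField.mem_adjoin_simple_self R ρ
  have htt : tt (κ := κ) x (some 0) = x := by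
    change x - algebraMap κ R 0 = x
    rw [map_zero, sub_zero]
  obtain ⟨w, hwO, hw⟩ := exists_place_level hx N hN V hc (some 0) (by rw [htt]; exact hV)
  rw [htt] at hw
  have hρw : (⟨ρ, hρN⟩ : N) ^ ℓ = algebraMap R N x := Subtype.ext hρ
  obtain ⟨c', hc'⟩ := other_point (κ := κ) hx (some 0)
  obtain ⟨⟨w', hw'⟩, -⟩ := exists_exp (N := N) hx hN.card c'
  obtain ⟨g, hg, hgw⟩ := stab_level hx N hN.card w (by
    intro z hz
    obtain ⟨n, hn⟩ := ord_ratF (M := N) hx 0 z hz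
    rw [map_zero, sub_zero] at hn
    rw [hn w hw, ← hρw, w.ord_pow]
    exact ⟨n * w.ord ⟨ρ, hρN⟩, by ring⟩) ⟨w', fun g hgw => by
      refine hc' N w (by rw [htt]; exact hw) ?_
      have h2 : w'.ord (algebraMap R N (tt x c')) = w.ord (g (algebraMap R N (tt x c'))) := by
        rw [← hgw]
        rfl
      rw [g.commutes] at h2
      rw [← h2]
      exact hw'⟩
  have hmemO : ∀ z : N, z ∈ w.O ↔ (z : Ω) ∈ V := by
    intro z
    rw [hwO]
    rfl
  obtain ⟨G, hG, hGV⟩ := lift_stab N V g (by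
    intro z
    rw [← hmemO, ← hmemO]
    exact fix_O (τ := (g : N ≃+* N)) hgw z)
  refine ⟨G, fun h => hg ?_, hGV⟩
  -- `g` fixes the generator
  have h1 : g ⟨ρ, hρN⟩ = ⟨ρ, hρN⟩ := Subtype.ext (by rw [← hG]; exact h)
  ext z
  have h2 : ∀ z : Ω, z ∈ IntermediateField.adjoin R {ρ} → G z = z := by
    intro z hz
    induction hz using IntermediateField.adjoin_induction with
    | mem y hy =>
      rw [Set.mem_singleton_iff] at hy
      rw [hy]
      exact h
    | algebraMap c => exact G.commutes c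
    | add a b _ _ ha hb => rw [map_add, ha, hb]
    | inv a _ ha => rw [map_inv₀, ha]
    | mul a b _ _ ha hb => rw [map_mul, ha, hb]
  rw [← hG]
  exact h2 z (by rw [← hNd]; exact z.2)

/-- radicals with divisor divisible by `ℓ` outside of two points -/
theorem rad (hx : RatF κ x) {r : R} (hr : r ≠ 0)
    (hdiv : ∀ (b : κ), b ≠ 0 → ∀ P : κ[X], P ≠ 0 → ∀ u : R, u ≠ 0 → r * u ^ ℓ = aeval x P →
      ℓ ∣ P.rootMultiplicity b) :
    ∃ (m : ℕ) (u : R), u ≠ 0 ∧ r * u ^ ℓ = x ^ m := by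
  classical
  have hℓ0 : ℓ ≠ 0 := hℓ.out.ne_zero
  obtain ⟨P, Q, hQ, h⟩ := hx.exists_div r
  have hinj : Function.Injective (aeval x : κ[X] →ₐ[κ] R) := by
    rw [injective_iff_map_eq_zero]
    intro p hp
    exact (transcendental_iff.1 hx.trans) p hp
  have hQ0 : Q ≠ 0 := by
    rintro rfl
    exact hQ (by rw [map_zero])
  have hP0 : P ≠ 0 := by
    rintro rfl
    apply hr
    rw [h, map_zero, zero_div]
  obtain ⟨F, hF⟩ : ∃ F : κ[X], F = P * Q ^ (ℓ - 1) := ⟨_, rfl⟩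
  have hF0 : F ≠ 0 := by rw [hF]; exact mul_ne_zero hP0 (pow_ne_zero _ hQ0)
  have hFr : r * (aeval x Q) ^ ℓ = aeval x F := by
    rw [hF, map_mul, map_pow, h, div_mul_eq_mul_div, div_eq_iff hQ, mul_assoc, ← pow_succ,
      Nat.sub_add_cancel hℓ.out.pos]
  have hd : ∀ b : κ, b ≠ 0 → ℓ ∣ F.rootMultiplicity b := fun b hb =>
    hdiv b hb F hF0 _ hQ hFr
  obtain ⟨c₁, hc₁⟩ := IsAlgClosed.exists_pow_nat_eq F.leadingCoeff hℓ.out.pos
  have hc₁0 : c₁ ≠ 0 := by
    rintro rfl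
    rw [zero_pow hℓ0] at hc₁
    exact leadingCoeff_ne_zero.2 hF0 hc₁.symm
  obtain ⟨T, hT⟩ : ∃ T : Finset κ, T = F.roots.toFinset.erase 0 := ⟨_, rfl⟩
  obtain ⟨D, hD⟩ : ∃ D : κ[X], D = C c₁ * ∏ b ∈ T, (X - C b) ^ (F.rootMultiplicity b / ℓ) :=
    ⟨_, rfl⟩
  have hD0 : D ≠ 0 := by
    rw [hD]
    refine mul_ne_zero (C_ne_zero.2 hc₁0) (Finset.prod_ne_zero_iff.2 fun b _ => ?_)
    exact pow_ne_zero _ (X_sub_C_ne_zero _)
  have hFD : F = X ^ F.rootMultiplicity 0 * D ^ ℓ := by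
    have h2 := (IsAlgClosed.splits F).eq_prod_roots
    have h3 : (F.roots.map (fun a => X - C a)).prod =
        X ^ F.rootMultiplicity 0 * ∏ b ∈ T, (X - C b) ^ F.rootMultiplicity b := by
      rw [Finset.prod_multiset_map_count, hT]
      by_cases h0 : (0 : κ) ∈ F.roots.toFinset
      · rw [← Finset.mul_prod_erase _ _ h0, count_roots, C_0, sub_zero]
        congr 1
        exact Finset.prod_congr rfl fun b _ => by rw [count_roots]
      · rw [Finset.erase_eq_of_notMem h0]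
        rw [Multiset.mem_toFinset, mem_roots hF0] at h0
        rw [rootMultiplicity_eq_zero h0, pow_zero, one_mul]
        exact Finset.prod_congr rfl fun b _ => by rw [count_roots]
    conv_lhs => rw [h2, h3]
    rw [hD, mul_pow, ← C_pow, hc₁, ← Finset.prod_pow]
    have h4 : ∀ b ∈ T, ((X - C b : κ[X]) ^ (F.rootMultiplicity b / ℓ)) ^ ℓ =
        (X - C b) ^ F.rootMultiplicity b := by
      intro b hb
      have hb0 : b ≠ 0 := by
        rw [hT, Finset.mem_erase] at hb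
        exact hb.1
      rw [← pow_mul, Nat.div_mul_cancel (hd b hb0)]
    rw [Finset.prod_congr rfl h4]
    ring
  have hDx : aeval x D ≠ 0 := fun h0 => hD0 (hinj (by rw [h0, map_zero]))
  refine ⟨F.rootMultiplicity 0, aeval x Q / aeval x D, div_ne_zero hQ hDx, ?_⟩
  rw [div_pow, mul_div_assoc', hFr, div_eq_iff (pow_ne_zero _ hDx)]
  conv_lhs => rw [hFD]
  rw [map_mul, map_pow, aeval_X, map_pow]

/-- **an extension which is unramified outside of two points is cyclic** -/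
theorem gen (hx : RatF κ x) [Normal R Ω] {N : IntermediateField R Ω} (hN : Lev ℓ N)
    (hunr : ∀ b : κ, b ≠ 0 → ∀ w : Place κ N, 0 < w.ord (algebraMap R N (tt x (some b))) →
      w.ord (algebraMap R N (tt x (some b))) = 1)
    {ρ : Ω} (hρ : ρ ^ ℓ = algebraMap R Ω x) (G : Ω ≃ₐ[R] Ω) (hG : G ρ ≠ ρ)
    (H : Subgroup (N ≃ₐ[R] N)) (g : N ≃ₐ[R] N) (hg : ∀ z : N, ((g z : N) : Ω) = G z) (hgH : g ∈ H) :
    H = ⊤ := by
  classical
  haveI := hN.fin
  haveI := hN.gal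
  have hℓ0 : ℓ ≠ 0 := hℓ.out.ne_zero
  haveI : NeZero ℓ := ⟨hℓ0⟩
  haveI : NeZero (ℓ : κ) := ⟨Nat.cast_ne_zero.2 hℓ0⟩
  by_contra hne
  obtain ⟨m, hm⟩ := hN.card
  haveI : Finite (N ≃ₐ[R] N) := inferInstance
  have hcard : Nat.card (N ≃ₐ[R] N) = ℓ ^ m := by rw [IsGalois.card_aut_eq_finrank, hm]
  obtain ⟨K, hK, hKi, hHK⟩ := RG.exists_index (IsPGroup.of_card hcard) H hne
  obtain ⟨ζ, hζ⟩ := HasEnoughRootsOfUnity.exists_primitiveRoot κ ℓ
  obtain ⟨χ, h1, h2, h3⟩ := RG.exists_chi hζ K hK hKi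
  have hχ0 : ∀ d, χ d ≠ 0 := by
    intro d h
    have := h1 d
    rw [h, zero_pow hℓ0] at this
    exact zero_ne_one this
  have hχone : χ 1 = 1 := (h3 1).2 (one_mem _)
  obtain ⟨χ', hχ'⟩ : ∃ χ' : (N ≃ₐ[R] N) →* κˣ, ∀ d, ((χ' d : κˣ) : κ) = χ d :=
    ⟨{ toFun := fun d => Units.mk0 (χ d) (hχ0 d)
       map_one' := Units.ext hχone
       map_mul' := fun a b => Units.ext (h2 a b) }, fun d => rfl⟩
  obtain ⟨h, hh0, hh⟩ := exists_kummer (κ := κ) χ'
  have hh' : ∀ d : N ≃ₐ[R] N, d h = algebraMap κ N (χ d) * h := fun d => by rw [hh, hχ']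
  obtain ⟨r, hr⟩ : ∃ r : R, algebraMap R N r = h ^ ℓ := by
    have h4 : h ^ ℓ ∈ (⊥ : IntermediateField R N) := by
      rw [IsGalois.mem_bot_iff_fixed]
      intro σ
      rw [map_pow, hh', mul_pow, ← map_pow, h1, map_one, one_mul]
    obtain ⟨r, hr⟩ := IntermediateField.mem_bot.1 h4
    exact ⟨r, hr⟩
  have hr0 : r ≠ 0 := by
    rintro rfl
    rw [map_zero] at hr
    exact hh0 (pow_eq_zero_iff hℓ0 |>.1 hr.symm)
  obtain ⟨n, u, hu0, hu⟩ := rad (ℓ := ℓ) hx hr0 (by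
    intro b hb P hP u hu0 hu
    obtain ⟨⟨w, hw⟩, -⟩ := exists_exp (N := N) hx hN.card (some b)
    have h4 := hunr b hb w hw
    change 0 < w.ord (algebraMap R N (x - algebraMap κ R b)) at hw
    change w.ord (algebraMap R N (x - algebraMap κ R b)) = 1 at h4
    rw [map_sub, ← IsScalarTower.algebraMap_apply] at hw h4
    obtain ⟨h5, h6⟩ := Pool.Agent.Y248.PS.ord_eval w hw hP
    rw [h4, mul_one] at h6
    have h7 : aeval (algebraMap R N x) P = (h * algebraMap R N u) ^ ℓ := by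
      rw [aeval_algebraMap_apply, ← hu, map_mul, map_pow, hr, mul_pow]
    rw [h7, w.ord_pow] at h6
    have h8 : (ℓ : ℤ) ∣ (P.rootMultiplicity b : ℤ) := ⟨_, h6.symm⟩
    exact_mod_cast h8)
  -- compare with `ρ`
  have hx0 : x ≠ 0 := by
    rintro rfl
    exact hx.trans isAlgebraic_zero
  have hρ0 : ρ ≠ 0 := by
    rintro rfl
    rw [zero_pow hℓ0] at hρ
    exact hx0 ((algebraMap R Ω).injective (by rw [← hρ, map_zero]))
  obtain ⟨y, hy⟩ : ∃ y : Ω, y = (h : Ω) * algebraMap R Ω u := ⟨_, rfl⟩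
  have hy1 : y ^ ℓ = (ρ ^ n) ^ ℓ := by
    have h4 := congrArg (fun z : N => (z : Ω)) hr
    have h5 : algebraMap R Ω r = (h : Ω) ^ ℓ := h4
    rw [hy, mul_pow, ← h5, ← pow_mul, mul_comm n ℓ, pow_mul, hρ, ← map_pow, ← map_mul, hu, map_pow]
  have hy2 : (y / ρ ^ n) ^ ℓ = 1 := by
    rw [div_pow, hy1, div_self (pow_ne_zero _ (pow_ne_zero _ hρ0))]
  obtain ⟨c, hc1, hc⟩ := rou_const (κ := κ) hℓ.out.pos hy2
  have hy3 : y = algebraMap κ Ω c * ρ ^ n := by
    rw [hc, div_mul_cancel₀ _ (pow_ne_zero _ hρ0)]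
  have hc0 : algebraMap κ Ω c ≠ 0 := by
    rw [hc]
    refine div_ne_zero ?_ (pow_ne_zero _ hρ0)
    rw [hy]
    exact mul_ne_zero (fun h' => hh0 (Subtype.ext h')) ((_root_.map_ne_zero _).2 hu0)
  -- `G` fixes `y`
  have hGy : G y = y := by
    have h4 : g h = h := by rw [hh', (h3 g).2 (hHK hgH), map_one, one_mul]
    rw [hy, map_mul, G.commutes, ← hg, h4]
  have hGρ : G (ρ ^ n) = ρ ^ n := by
    rw [hy3, map_mul] at hGy
    have h4 : G (algebraMap κ Ω c) = algebraMap κ Ω c := gal_const G c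
    rw [h4] at hGy
    exact mul_left_cancel₀ hc0 hGy
  have h4 : (G ρ / ρ) ^ n = 1 := by
    rw [div_pow, ← map_pow, hGρ, div_self (pow_ne_zero _ hρ0)]
  have h5 : (G ρ / ρ) ^ ℓ = 1 := by
    rw [div_pow, ← map_pow, hρ, G.commutes, div_self]
    rw [← hρ]
    exact pow_ne_zero _ hρ0
  have h6 : G ρ / ρ ≠ 1 := fun h' => hG ((div_eq_one_iff_eq hρ0).1 h')
  have h7 : ℓ ∣ n := by
    have h8 := orderOf_eq_prime h5 h6
    rw [← h8]
    exact orderOf_dvd_of_pow_eq_one h4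
  obtain ⟨n', rfl⟩ := h7
  -- `y` is in `R`, so `K` is everything
  have h8 : ∀ d : N ≃ₐ[R] N, d ∈ K := by
    intro d
    rw [← h3]
    have h9 : h = algebraMap κ N c * algebraMap R N (x ^ n' / u) := by
      apply Subtype.ext
      change (h : Ω) = algebraMap κ Ω c * algebraMap R Ω (x ^ n' / u)
      have hu1 : algebraMap R Ω u ≠ 0 := (_root_.map_ne_zero _).2 hu0
      rw [map_div₀, map_pow, ← hρ, ← pow_mul, mul_div_assoc', ← hy3, hy, mul_div_cancel_right₀ _ hu1]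
    have h10 : d h = h := by
      rw [h9, map_mul, d.commutes, gal_const]
    have h11 := hh' d
    rw [h10] at h11
    have h12 : algebraMap κ N (χ d) = 1 := (mul_eq_right₀ hh0).1 h11.symm
    exact (algebraMap κ N).injective (by rw [h12, map_one])
  have h9 : K = ⊤ := by
    rw [eq_top_iff]
    exact fun d _ => h8 d
  rw [h9, Subgroup.index_top] at hKi
  exact hℓ.out.one_lt.ne hKi

/-- the fixed field of an open normal subgroup whose quotient is an `ℓ`-group -/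
theorem lev_of_open [IsGalois R Ω] (U : Subgroup (Ω ≃ₐ[R] Ω)) (hU : U.Normal)
    (L : IntermediateField R Ω) [FiniteDimensional R L] (hL : L.fixingSubgroup ≤ U)
    (hℓU : ∀ g : Ω ≃ₐ[R] Ω, ∃ a : ℕ, g ^ (ℓ ^ a) ∈ U) :
    ∃ N : IntermediateField R Ω, Lev ℓ N ∧ N.fixingSubgroup = U := by
  have hop : IsOpen (U : Set (Ω ≃ₐ[R] Ω)) :=
    Subgroup.isOpen_mono hL (IntermediateField.fixingSubgroup_isOpen L)
  have hcl : IsClosed (U : Set (Ω ≃ₐ[R] Ω)) := Subgroup.isClosed_of_isOpen U hop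
  have hfix := InfiniteGalois.fixingSubgroup_fixedField ⟨U, hcl⟩
  obtain ⟨N, hN⟩ : ∃ N, N = IntermediateField.fixedField U := ⟨_, rfl⟩
  have hNU : N.fixingSubgroup = U := by rw [hN]; exact hfix
  have hfin : FiniteDimensional R N := by
    rw [← InfiniteGalois.isOpen_iff_finite]
    change IsOpen (N.fixingSubgroup : Set (Ω ≃ₐ[R] Ω))
    rw [hNU]
    exact hop
  have hgal : IsGalois R N := by
    rw [← InfiniteGalois.normal_iff_isGalois, hNU]
    exact hU
  haveI : Normal R N := hgal.to_normal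
  refine ⟨N, ⟨hfin, hgal, ?_⟩, hNU⟩
  have hp : IsPGroup ℓ (N ≃ₐ[R] N) := by
    intro g
    obtain ⟨G, hG⟩ : ∃ G : Ω ≃ₐ[R] Ω, AlgEquiv.restrictNormalHom N G = g :=
      AlgEquiv.restrictNormalHom_surjective Ω g
    obtain ⟨a, ha⟩ := hℓU G
    refine ⟨a, ?_⟩
    rw [← hG, ← map_pow]
    rw [← hNU] at ha
    ext z
    have h1 : ((AlgEquiv.restrictNormalHom N (G ^ (ℓ ^ a)) z : N) : Ω) = (G ^ (ℓ ^ a)) z :=
      AlgEquiv.restrictNormal_commutes _ N z
    rw [h1]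
    exact (IntermediateField.mem_fixingSubgroup_iff _ _).1 ha z z.2
  obtain ⟨m, hm⟩ := IsPGroup.iff_card.1 hp
  exact ⟨m, by rw [← hm, IsGalois.card_aut_eq_finrank]⟩

end

end Pool.Agent.H889.RS
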