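import Pool.Agent.H889.RS.GeoT

/-!
# The theorem on sections, in terms of function fields

(helper889.)
-/

set_option autoImplicit false
set_option linter.all false

open Polynomial FF

namespace Pool.Agent.H889.RS

open Pool.Agent.Y157.PS Pool.Agent.H889.PS
open Pool.Agent.Y903.PS (tt ratF_tt)

section fields

variable (k₀ K : Type) {F : Type} (Ω : Type) [Field k₀] [Field K] [Field F] [Field Ω]
  [Algebra k₀ F] [Algebra K F] [Algebra F Ω] [Algebra k₀ Ω] [Algebra K Ω]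
  [IsScalarTower k₀ F Ω]

/-- the algebraic closure of `k₀(x)` -/
abbrev lc (x : F) : IntermediateField (ratL (Ω := Ω) k₀ x) Ω :=
  algebraicClosure (ratL (Ω := Ω) k₀ x) Ω

/-- the elements of `κ F` which are algebraic over `k₀(x)` -/
noncomputable def cf (x : F) (hle : ∀ r : ratL (Ω := Ω) k₀ x, (r : Ω) ∈ geomF K F Ω) :
    IntermediateField (ratL (Ω := Ω) k₀ x) (lc k₀ Ω x) :=
  { (geomF K F Ω).toSubfield.comap (algebraMap (lc k₀ Ω x) Ω) with
    algebraMap_mem' := fun r => hle r }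

end fields

section main

variable {k₀ K F Ω : Type} [Field k₀] [Field K] [Field F] [Field Ω] [Algebra k₀ K] [Algebra k₀ F]
  [Algebra K F] [IsScalarTower k₀ K F] [Algebra F Ω] [Algebra k₀ Ω] [Algebra K Ω]
  [IsScalarTower k₀ F Ω] [IsScalarTower K F Ω] [IsScalarTower k₀ K Ω]

/-- `κ₀ ⊆ κ` -/
theorem cst_le (c : algebraicClosure k₀ Ω) : (c : Ω) ∈ algebraicClosure K Ω := by
  rw [mem_algebraicClosure_iff]
  have h1 : IsAlgebraic k₀ (c : Ω) := (mem_algebraicClosure_iff).1 c.2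
  exact h1.tower_top K

/-- `κ₀(x) ⊆ κ F` -/
theorem rat_le (x : F) (r : ratL (Ω := Ω) k₀ x) : (r : Ω) ∈ geomF K F Ω := by
  refine adjoin_le_sub (T := (geomF K F Ω).toSubfield) ?_ ?_ _ r.2
  · intro c
    exact IntermediateField.subset_adjoin F _ (cst_le c)
  · intro w hw
    rw [Set.mem_singleton_iff] at hw
    rw [hw]
    exact (geomF K F Ω).algebraMap_mem x

theorem mem_cf (x : F) (z : lc k₀ Ω x) :
    z ∈ cf k₀ K Ω x (rat_le x) ↔ (z : Ω) ∈ geomF K F Ω := Iff.rfl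

/-- semilinear maps and algebraicity -/
theorem alg_map {P : Subfield Ω} (e : Ω ≃+* Ω) (hP : ∀ y ∈ P, e y ∈ P) {z : Ω}
    (hz : IsAlgebraic P z) : IsAlgebraic P (e z) := by
  obtain ⟨p, hp0, hp⟩ := hz
  let f : P →+* P := (e : Ω →+* Ω).restrict P P hP
  have hf : ∀ y : P, ((f y : P) : Ω) = e y := fun y => rfl
  refine ⟨p.map f, (Polynomial.map_ne_zero_iff f.injective).2 hp0, ?_⟩
  have h1 := congrArg (e : Ω →+* Ω) hp
  rw [map_zero, aeval_def, hom_eval₂] at h1
  rw [aeval_def, eval₂_map]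
  exact h1

/-- the restriction of an automorphism over `F` to the closure of `k₀(x)` -/
theorem exists_lc (x : F) (e : Ω ≃ₐ[F] Ω) : ∃ e₀ : lc k₀ Ω x ≃+* lc k₀ Ω x,
    (∀ z : lc k₀ Ω x, ((e₀ z : lc k₀ Ω x) : Ω) = e z) ∧
    (∀ z : lc k₀ Ω x, z ∈ cf k₀ K Ω x (rat_le x) → e₀ z ∈ cf k₀ K Ω x (rat_le x)) ∧
    ∀ c : algebraicClosure k₀ Ω, ∃ c' : algebraicClosure k₀ Ω,
      e₀ (algebraMap (algebraicClosure k₀ Ω) (lc k₀ Ω x) c) =
        algebraMap (algebraicClosure k₀ Ω) (lc k₀ Ω x) c' := by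
  have hcst : ∀ (g : Ω ≃ₐ[F] Ω) (c : Ω), c ∈ algebraicClosure k₀ Ω → g c ∈ algebraicClosure k₀ Ω := by
    intro g c hc
    rw [mem_algebraicClosure_iff] at hc ⊢
    have h1 := hc.algHom ((g.restrictScalars k₀ : Ω ≃ₐ[k₀] Ω) : Ω →ₐ[k₀] Ω)
    exact h1
  have hcstK : ∀ (g : Ω ≃ₐ[F] Ω) (c : Ω), c ∈ algebraicClosure K Ω → g c ∈ algebraicClosure K Ω := by
    intro g c hc
    rw [mem_algebraicClosure_iff] at hc ⊢
    have h1 := hc.algHom ((g.restrictScalars K : Ω ≃ₐ[K] Ω) : Ω →ₐ[K] Ω)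
    exact h1
  have hrat : ∀ (g : Ω ≃ₐ[F] Ω) (c : Ω), c ∈ ratL (Ω := Ω) k₀ x → g c ∈ ratL (Ω := Ω) k₀ x := by
    intro g c hc
    induction hc using IntermediateField.adjoin_induction with
    | mem y hy =>
      rw [Set.mem_singleton_iff] at hy
      rw [hy, g.commutes]
      exact IntermediateField.mem_adjoin_simple_self _ _
    | algebraMap c =>
      exact (ratL (Ω := Ω) k₀ x).algebraMap_mem (⟨g c, hcst g c c.2⟩ : algebraicClosure k₀ Ω)
    | add a b _ _ ha hb => rw [map_add]; exact add_mem ha hb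
    | inv a _ ha => rw [map_inv₀]; exact inv_mem ha
    | mul a b _ _ ha hb => rw [map_mul]; exact mul_mem ha hb
  have hgeo : ∀ (g : Ω ≃ₐ[F] Ω) (c : Ω), c ∈ geomF K F Ω → g c ∈ geomF K F Ω := by
    intro g c hc
    induction hc using IntermediateField.adjoin_induction with
    | mem y hy => exact IntermediateField.subset_adjoin F _ (hcstK g y hy)
    | algebraMap c =>
      rw [g.commutes]
      exact IntermediateField.algebraMap_mem _ _
    | add a b _ _ ha hb => rw [map_add]; exact add_mem ha hb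
    | inv a _ ha => rw [map_inv₀]; exact inv_mem ha
    | mul a b _ _ ha hb => rw [map_mul]; exact mul_mem ha hb
  have hlc : ∀ (g : Ω ≃ₐ[F] Ω) (z : Ω), z ∈ lc k₀ Ω x → g z ∈ lc k₀ Ω x := by
    intro g z hz
    rw [mem_algebraicClosure_iff] at hz ⊢
    exact alg_map (P := (ratL (Ω := Ω) k₀ x).toSubfield) (g : Ω ≃+* Ω) (fun y hy => hrat g y hy) hz
  refine ⟨{ toFun := fun z => ⟨e z, hlc e z z.2⟩
            invFun := fun z => ⟨e.symm z, hlc e.symm z z.2⟩
            left_inv := fun z => Subtype.ext (e.symm_apply_apply _)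
            right_inv := fun z => Subtype.ext (e.apply_symm_apply _)
            map_mul' := fun a b => Subtype.ext (map_mul e _ _)
            map_add' := fun a b => Subtype.ext (map_add e _ _) }, fun z => rfl, fun z hz => ?_,
    fun c => ⟨⟨e c, hcst e c c.2⟩, rfl⟩⟩
  exact hgeo e _ hz

end main

end Pool.Agent.H889.RS
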