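import Pool.Agent.H889.RS.GeoF

/-!
# The field `κ M₀`

(helper889.)
-/

set_option autoImplicit false
set_option linter.all false

open Polynomial FF

namespace Pool.Agent.H889.RS

open Pool.Agent.Y157.PS Pool.Agent.H889.PS
open Pool.Agent.Y903.PS (tt ratF_tt)
open Pool.Agent.Y31.PS (stab_triv lev_sup)

section ine

variable {k₀ κ₀ K κ R M F Ω : Type} [Field k₀] [Field κ₀] [Field K] [Field κ] [Field R] [Field M]
  [Field F] [Field Ω] [Algebra κ₀ κ] [Algebra κ₀ R] [Algebra R M] [Algebra κ₀ M]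
  [IsScalarTower κ₀ R M]
  [Algebra K F] [Algebra F Ω] [Algebra κ Ω]
  [Algebra M Ω] [Algebra κ₀ Ω] [IsScalarTower κ₀ κ Ω]
  [IsScalarTower κ₀ M Ω] {x : R} {xF : F}
  {ℓ : ℕ} [hℓ : Fact ℓ.Prime] {B : Finset κ₀} {ε : κ₀ → ℕ} {ι : ℕ}
  {N₀ : IntermediateField R M} {N : IntermediateField F Ω}

theorem fix_comp (h : Emb κ M N) (τ : N ≃ₐ[F] N) (hτ : ∀ c, τ (iK h c) = iK h c)
    (h2 : ∀ y, actM h τ y = y) (z : N) (hz : (z : Ω) ∈ comp κ M Ω) : τ z = z := by
  have key : ∀ w ∈ comp κ M Ω, ∃ hw : w ∈ N, τ ⟨w, hw⟩ = ⟨w, hw⟩ := by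
    intro w hw
    induction hw using Subfield.closure_induction with
    | mem y hy =>
      rcases hy with ⟨c, rfl⟩ | ⟨m, rfl⟩
      · exact ⟨h.cst c, hτ c⟩
      · refine ⟨h.inM m, ?_⟩
        have h3 := actM_apply h τ m
        rw [h2] at h3
        exact h3.symm
    | one => exact ⟨one_mem _, map_one τ⟩
    | add a b _ _ ha hb =>
      obtain ⟨ha, ha'⟩ := ha
      obtain ⟨hb, hb'⟩ := hb
      refine ⟨add_mem ha hb, ?_⟩
      have h5 : (⟨a + b, add_mem ha hb⟩ : N) = ⟨a, ha⟩ + ⟨b, hb⟩ := rfl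
      rw [h5, map_add, ha', hb']
    | neg a _ ha =>
      obtain ⟨ha, ha'⟩ := ha
      refine ⟨neg_mem ha, ?_⟩
      have h5 : (⟨-a, neg_mem ha⟩ : N) = -(⟨a, ha⟩ : N) := rfl
      rw [h5, map_neg, ha']
    | inv a _ ha =>
      obtain ⟨ha, ha'⟩ := ha
      refine ⟨inv_mem ha, ?_⟩
      have h5 : (⟨a⁻¹, inv_mem ha⟩ : N) = (⟨a, ha⟩ : N)⁻¹ := rfl
      rw [h5, map_inv₀, ha']
    | mul a b _ _ ha hb =>
      obtain ⟨ha, ha'⟩ := ha
      obtain ⟨hb, hb'⟩ := hb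
      refine ⟨mul_mem ha hb, ?_⟩
      have h5 : (⟨a * b, mul_mem ha hb⟩ : N) = ⟨a, ha⟩ * ⟨b, hb⟩ := rfl
      rw [h5, map_mul, ha', hb']
  obtain ⟨hw, h3⟩ := key _ hz
  exact h3

/-- **inertia groups act trivially on `κ M`** -/
theorem ine [IsAlgClosed κ₀] [CharZero κ₀] (hC : GCov ℓ κ₀ R M x B ε ι N₀)
    (h : Emb κ M (⊤ : IntermediateField F Ω))
    (hx : algebraMap M Ω (algebraMap R M x) = algebraMap F Ω xF)
    {Kf : Set M} (hKf : ∀ W : Place κ₀ M, ∃ π ∈ Kf, W.ord π = 1)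
    (hKc : ∀ y ∈ Kf, algebraMap M Ω y ∈ IntermediateField.adjoin F (Set.range (algebraMap κ Ω)))
    (W : ValuationSubring Ω) (hW : ∀ c : κ, algebraMap κ Ω c ∈ W) (σ : Ω ≃ₐ[F] Ω)
    (hσκ : ∀ c : κ, ∃ c' : κ, σ (algebraMap κ Ω c) = algebraMap κ Ω c')
    (hσ : ∀ y ∈ W, σ y - y ∈ W.nonunits) (z : Ω) (hz : z ∈ comp κ M Ω) : σ z = z := by
  haveI := hC.gal
  haveI : Normal R M := hC.gal.to_normal
  -- `σ` preserves `W`
  have h1 : ∀ y ∈ W, σ y ∈ W := by
    intro y hy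
    have h2 := add_mem (non_mem (hσ y hy)) hy
    rwa [sub_add_cancel] at h2
  have h2 : ∀ y, σ y ∈ W ↔ y ∈ W := by
    intro y
    refine ⟨fun hy => ?_, h1 y⟩
    by_contra hyW
    have hy0 : y ≠ 0 := by
      rintro rfl
      exact hyW (zero_mem _)
    have h3 : y⁻¹ ∈ W.nonunits := by
      rw [nonunits_iff]
      refine ⟨(W.mem_or_inv_mem y).resolve_left hyW, Or.inr ?_⟩
      rwa [inv_inv]
    have h4 : σ y⁻¹ ∈ W.nonunits := by
      have h5 := non_add (hσ _ (non_mem h3)) h3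
      rwa [sub_add_cancel] at h5
    have h5 := non_mul hy h4
    rw [map_inv₀, mul_inv_cancel₀ ((map_ne_zero_iff σ σ.injective).2 hy0),
      ValuationSubring.mem_nonunits_iff, map_one] at h5
    exact lt_irrefl _ h5
  have hcst : ∀ c : κ, σ (algebraMap κ Ω c) = algebraMap κ Ω c := by
    intro c
    obtain ⟨c', hc'⟩ := hσκ c
    have h3 := hσ _ (hW c)
    rw [hc', ← map_sub] at h3
    rw [hc']
    congr 1
    by_contra hne
    have h4 : c' - c ≠ 0 := sub_ne_zero.2 hne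
    rw [ValuationSubring.mem_nonunits_iff, Pool.Agent.Y809.PS.val_const hW (W := W) h4] at h3
    exact lt_irrefl _ h3
  let τ : (⊤ : IntermediateField F Ω) ≃ₐ[F] (⊤ : IntermediateField F Ω) :=
    (IntermediateField.topEquiv.trans σ).trans IntermediateField.topEquiv.symm
  have hτ : ∀ w : (⊤ : IntermediateField F Ω), ((τ w : (⊤ : IntermediateField F Ω)) : Ω) = σ w :=
    fun w => rfl
  have hτκ : ∀ c, τ (iK h c) = iK h c := fun c => Subtype.ext (by
    rw [hτ, coe_iK, hcst])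
  have hact : ∀ y : M, algebraMap M Ω (actM h τ y) = σ (algebraMap M Ω y) := by
    intro y
    rw [← coe_iM h, actM_apply, hτ]
    rfl
  have key : τ ⟨z, trivial⟩ = ⟨z, trivial⟩ := by
    by_cases hall : ∀ y : M, algebraMap M Ω y ∈ W
    · refine fix_comp h τ hτκ (fun y => ?_) _ hz
      have h3 := hσ _ (hall y)
      rw [← hact, ← map_sub] at h3
      by_contra hne
      have h4 : actM h τ y - y ≠ 0 := sub_ne_zero.2 hne
      rw [nonunits_iff] at h3
      rcases h3.2 with h5 | h5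
      · exact h4 ((_root_.map_eq_zero _).1 h5)
      · apply h5
        rw [← map_inv₀]
        exact hall _
    · push Not at hall
      obtain ⟨y₀, hy₀⟩ := hall
      have hOmem : ∀ y : M, y ∈ W.comap (algebraMap M Ω) ↔ algebraMap M Ω y ∈ W := fun y => Iff.rfl
      obtain ⟨W₁, hW₁, -⟩ := hC.loc (W.comap (algebraMap M Ω)) (fun c => by
        rw [hOmem, ← IsScalarTower.algebraMap_apply κ₀ M Ω, IsScalarTower.algebraMap_apply κ₀ κ Ω]
        exact hW _) (fun htop => by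
        apply hy₀
        rw [← hOmem, htop]
        trivial)
      refine agree hC h hx hKf hKc W₁ τ hτκ (fun y => ?_) _ hz
      rw [hW₁, hOmem, hOmem, hact, h2]
  have h3 := congrArg (fun w : (⊤ : IntermediateField F Ω) => (w : Ω)) key
  exact h3

end ine

section main

variable {k₀ K F Ω : Type} [Field k₀] [Field K] [Field F] [Field Ω] [Algebra k₀ K] [Algebra k₀ F]
  [Algebra K F] [IsScalarTower k₀ K F] [Algebra F Ω] [Algebra k₀ Ω] [Algebra K Ω]
  [IsScalarTower k₀ F Ω] [IsScalarTower K F Ω] [IsScalarTower k₀ K Ω]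

/-- the maximal extension is stable -/
theorem stab_max {ℓ : ℕ} (x : F) (e : Ω ≃ₐ[F] Ω) (z : lc k₀ Ω x)
    (hz : z ∈ maxPro ℓ (algebraicClosure k₀ Ω) (cf k₀ K Ω x (rat_le x)) (lc k₀ Ω x)) :
    ∃ z' ∈ maxPro ℓ (algebraicClosure k₀ Ω) (cf k₀ K Ω x (rat_le x)) (lc k₀ Ω x),
      (z' : Ω) = e z := by
  obtain ⟨e₀, he, hcf, hc⟩ := exists_lc (k₀ := k₀) (K := K) x e
  obtain ⟨e₁, he', hcf', -⟩ := exists_lc (k₀ := k₀) (K := K) x e.symm
  have hinv : ∀ w, e₁ (e₀ w) = w := fun w => Subtype.ext (by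
    rw [he', he]
    exact e.symm_apply_apply _)
  have hinv' : ∀ w, e₀ (e₁ w) = w := fun w => Subtype.ext (by
    rw [he, he']
    exact e.apply_symm_apply _)
  let g : cf k₀ K Ω x (rat_le x) ≃+* cf k₀ K Ω x (rat_le x) :=
    { toFun := fun w => ⟨e₀ w, hcf w w.2⟩
      invFun := fun w => ⟨e₁ w, hcf' w w.2⟩
      left_inv := fun w => Subtype.ext (hinv _)
      right_inv := fun w => Subtype.ext (hinv' _)
      map_mul' := fun a b => Subtype.ext (map_mul e₀ _ _)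
      map_add' := fun a b => Subtype.ext (map_add e₀ _ _) }
  exact ⟨e₀ z, maxPro_map e₀ g (fun a => rfl) hc z hz, he z⟩

end main

end Pool.Agent.H889.RS
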