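import Pool.Agent.H889.RS.GeoG

/-!
# The theorem on sections in terms of function fields

(helper889.)
-/

set_option autoImplicit false
set_option linter.all false

open Polynomial FF

namespace Pool.Agent.H889.RS

open Pool.Agent.Y157.PS Pool.Agent.H889.PS
open Pool.Agent.Y903.PS (tt ratF_tt)
open Pool.Agent.Y31.PS (stab_triv lev_sup)

section main

variable {k₀ K F Ω : Type} [Field k₀] [Field K] [Field F] [Field Ω] [Algebra k₀ K] [Algebra k₀ F]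
  [Algebra K F] [IsScalarTower k₀ K F] [Algebra F Ω] [Algebra k₀ Ω] [Algebra K Ω]
  [IsScalarTower k₀ F Ω] [IsScalarTower K F Ω] [IsScalarTower k₀ K Ω]

/-- `x`, as an element of `κ₀(x)` -/
def xL (k₀ : Type) {F : Type} (Ω : Type) [Field k₀] [Field F] [Field Ω] [Algebra k₀ F] [Algebra F Ω]
    [Algebra k₀ Ω] [IsScalarTower k₀ F Ω] (x : F) : ratL (Ω := Ω) k₀ x :=
  ⟨algebraMap F Ω x, IntermediateField.mem_adjoin_simple_self _ _⟩

/-- the hypotheses on the covering -/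
structure CovH (k₀ K : Type) {F Ω : Type} [Field k₀] [Field K] [Field F] [Field Ω]
    [Algebra k₀ K] [Algebra k₀ F]
    [Algebra K F] [IsScalarTower k₀ K F] [Algebra F Ω] [Algebra k₀ Ω] [Algebra K Ω]
    [IsScalarTower k₀ F Ω] [IsScalarTower K F Ω] [IsScalarTower k₀ K Ω] (ℓ : ℕ) (x : F)
    (B : Finset (algebraicClosure k₀ Ω))
    (L : IntermediateField (ratL (Ω := Ω) k₀ x) (lc k₀ Ω x)) : Prop where
  lev : Lev ℓ L
  le : cf k₀ K Ω x (rat_le x) ≤ L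
  unr : ∀ W : ValuationSubring (lc k₀ Ω x),
    (∀ c : algebraicClosure k₀ Ω, algebraMap (algebraicClosure k₀ Ω) (lc k₀ Ω x) c ∈ W) →
    ∀ z ∈ L, z ≠ 0 → ∃ u ∈ cf k₀ K Ω x (rat_le x), u ≠ 0 ∧ IsU W (z / u)
  bra : ∀ W : ValuationSubring (lc k₀ Ω x),
    (∀ c : algebraicClosure k₀ Ω, algebraMap (algebraicClosure k₀ Ω) (lc k₀ Ω x) c ∈ W) →
    algebraMap (ratL (Ω := Ω) k₀ x) (lc k₀ Ω x) (xL k₀ Ω x) ∈ W →
    (∀ b ∈ B, algebraMap (ratL (Ω := Ω) k₀ x) (lc k₀ Ω x) (xL k₀ Ω x) -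
      algebraMap (algebraicClosure k₀ Ω) (lc k₀ Ω x) b ∉ W.nonunits) →
    ∀ z ∈ L, z ≠ 0 → ∃ u : ratL (Ω := Ω) k₀ x, u ≠ 0 ∧
      IsU W (z / algebraMap (ratL (Ω := Ω) k₀ x) (lc k₀ Ω x) u)
  big : ∃ z ∈ maxPro ℓ (algebraicClosure k₀ Ω) (cf k₀ K Ω x (rat_le x)) (lc k₀ Ω x),
    z ∉ cf k₀ K Ω x (rat_le x)

/-- the field `κ M₀` -/
noncomputable def MM (ℓ : ℕ) (k₀ K : Type) {F : Type} (Ω : Type) [Field k₀] [Field K] [Field F]
    [Field Ω] [Algebra k₀ K] [Algebra k₀ F]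
    [Algebra K F] [IsScalarTower k₀ K F] [Algebra F Ω] [Algebra k₀ Ω] [Algebra K Ω]
    [IsScalarTower k₀ F Ω] [IsScalarTower K F Ω] [IsScalarTower k₀ K Ω] (x : F) :
    IntermediateField F Ω :=
  IntermediateField.adjoin F ((algebraicClosure K Ω : Set Ω) ∪
    {w | ∃ y ∈ maxPro ℓ (algebraicClosure k₀ Ω) (cf k₀ K Ω x (rat_le x)) (lc k₀ Ω x), (y : Ω) = w})

theorem exists_gcov [CharZero k₀] [IsAlgClosed Ω] {ℓ : ℕ} [Fact ℓ.Prime] {x : F}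
    {B : Finset (algebraicClosure k₀ Ω)}
    {L : IntermediateField (ratL (Ω := Ω) k₀ x) (lc k₀ Ω x)} (h : CovH k₀ K ℓ x B L)
    (hx : Transcendental k₀ (algebraMap F Ω x)) :
    ∃ M : IntermediateField (ratL (Ω := Ω) k₀ x) (lc k₀ Ω x),
      (∀ z, z ∈ M ↔
        z ∈ maxPro ℓ (algebraicClosure k₀ Ω) (cf k₀ K Ω x (rat_le x)) (lc k₀ Ω x)) ∧
      (∃ (hNM : L ≤ M) (ε : algebraicClosure k₀ Ω → ℕ) (ι : ℕ),
        GCov ℓ (algebraicClosure k₀ Ω) (ratL (Ω := Ω) k₀ x) M (xL k₀ Ω x) B ε ι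
          (IntermediateField.restrict hNM)) ∧
      ∀ W : Place (algebraicClosure k₀ Ω) M, ∃ π : M,
        (π : lc k₀ Ω x) ∈ cf k₀ K Ω x (rat_le x) ∧ W.ord π = 1 := by
  have hac : IsAlgClosure k₀ (algebraicClosure k₀ Ω) := inferInstance
  have hkb : IsAlgClosed (algebraicClosure k₀ Ω) := hac.1
  have hch : CharZero (algebraicClosure k₀ Ω) :=
    charZero_of_injective_algebraMap (algebraMap k₀ (algebraicClosure k₀ Ω)).injective
  have hrat : RatF (algebraicClosure k₀ Ω) (xL k₀ Ω x) := ratF_adj (trans_up hx)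
  haveI hcl : IsAlgClosure (ratL (Ω := Ω) k₀ x) (lc k₀ Ω x) := inferInstance
  have hval : ∀ (W : ValuationSubring (lc k₀ Ω x)) (z t : lc k₀ Ω x), t ≠ 0 → IsU W (z / t) →
      W.valuation z = W.valuation t := by
    intro W z t ht h
    have h1 := (Pool.Agent.Y948.PS.isU_iff W).1 h
    rw [map_div₀] at h1
    rwa [div_eq_one_iff_eq] at h1
    exact (Valuation.ne_zero_iff _).2 ht
  have hu : UnrLev (algebraicClosure k₀ Ω) (cf k₀ K Ω x (rat_le x)) L := by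
    intro W hW z hz hz0
    obtain ⟨t, ht, ht0, h⟩ := h.unr W hW z hz hz0
    exact ⟨t, ht, ht0, hval W z t ht0 h⟩
  obtain ⟨M, hM⟩ : ∃ M : IntermediateField (ratL (Ω := Ω) k₀ x) (lc k₀ Ω x), ∀ z, z ∈ M ↔
      z ∈ maxPro ℓ (algebraicClosure k₀ Ω) (cf k₀ K Ω x (rat_le x)) (lc k₀ Ω x) :=
    ⟨(maxPro ℓ (algebraicClosure k₀ Ω) (cf k₀ K Ω x (rat_le x)) (lc k₀ Ω x)).restrictScalars _,
      fun z => Iff.rfl⟩
  have hbig : ∃ z ∈ M, z ∉ L := big_of hrat h.lev h.le hu M hM (by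
    obtain ⟨z, hz, hz'⟩ := h.big
    exact ⟨z, (hM z).2 hz, hz'⟩)
  obtain ⟨hNM, ε, ι, hC⟩ := gcov hrat h.lev h.le hu B (fun W hW hxW hnon z hz hz0 => by
    obtain ⟨t, ht, h1⟩ := h.bra W hW hxW hnon z hz hz0
    exact ⟨t, ht, hval W z _ ((_root_.map_ne_zero _).2 ht) h1⟩) M hM hbig
  refine ⟨M, hM, ⟨hNM, ε, ι, hC⟩, fun W => ?_⟩
  obtain ⟨-, π, hπ, hπ1⟩ := hC.loc' W
  obtain ⟨t, ht, ht1⟩ := unif_Kf hu h.le hNM W π ((IntermediateField.mem_restrict hNM _).1 hπ) hπ1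
  exact ⟨t, ht, ht1⟩

end main

end Pool.Agent.H889.RS
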