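import Pool.Agent.H889.RS.GeoH

/-!
# The theorem on sections in terms of function fields: auxiliary results

(helper889.)
-/

set_option autoImplicit false
set_option linter.all false

open Polynomial FF

namespace Pool.Agent.H889.RS

open Pool.Agent.Y157.PS Pool.Agent.H889.PS
open Pool.Agent.Y903.PS (tt ratF_tt)
open Pool.Agent.Y31.PS (stab_triv lev_sup)

section geo

variable {k₀ κ₀ K κ R M F Ω : Type} [Field k₀] [Field κ₀] [Field K] [Field κ] [Field R] [Field M]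
  [Field F] [Field Ω] [Algebra k₀ κ₀]
  [Algebra k₀ K] [Algebra K κ] [Algebra κ₀ κ] [Algebra k₀ κ] [IsScalarTower k₀ K κ]
  [IsScalarTower k₀ κ₀ κ] [Algebra κ₀ R] [Algebra R M] [Algebra κ₀ M] [IsScalarTower κ₀ R M]
  [Algebra K F] [Algebra F Ω] [Algebra K Ω] [IsScalarTower K F Ω] [Algebra κ Ω]
  [IsScalarTower K κ Ω] [Algebra M Ω] [Algebra κ₀ Ω] [IsScalarTower κ₀ κ Ω]
  [IsScalarTower κ₀ M Ω] {N : IntermediateField F Ω} {x : R} {xF : F}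
  {S : (κ ≃ₐ[K] κ) →* (N ≃ₐ[F] N)}
  {ℓ : ℕ} [hℓ : Fact ℓ.Prime] {B : Finset κ₀} {ε : κ₀ → ℕ} {ι : ℕ}
  {N₀ : IntermediateField R M} {t : K}

theorem const_case [Normal k₀ κ₀] [CharZero κ₀] [IsAlgClosed κ₀] [IsAlgClosed κ]
    [Algebra.IsAlgebraic K κ] [Algebra.IsAlgebraic F N]
    (ht : RatF k₀ t) (hC : GCov ℓ κ₀ R M x B ε ι N₀) (hW : WtN ℓ k₀ κ₀ x N₀)
    (h : Emb κ M N) (hS : Cmp h S) (hcont : Continuous S)
    (hx : algebraMap M Ω (algebraMap R M x) = algebraMap F Ω xF)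
    {Kf : Set M} (hKf : ∀ W : Place κ₀ M, ∃ π ∈ Kf, W.ord π = 1)
    (hfix : ∀ (G : κ ≃ₐ[TT κ₀ κ t] κ), ∀ y ∈ Kf, S (ofT ht G) (iM h y) = iM h y)
    (G : κ ≃ₐ[TT κ₀ κ t] κ) (y : M) : S (ofT ht G) (iM h y) = iM h y := by
  haveI := hC.gal
  haveI : Normal R M := hC.gal.to_normal
  have hs : HSec κ₀ K κ R M x ((actM h).comp S) := hsec h hS hcont hx
  have hfix' : ∀ (G : κ ≃ₐ[TT κ₀ κ t] κ), ∀ y ∈ Kf, ((actM h).comp S) (ofT ht G) y = y := by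
    intro G y hy
    apply (iM h).injective
    have h2 : iM h (((actM h).comp S) (ofT ht G) y) = S (ofT ht G) (iM h y) := actM_apply h _ y
    rw [h2, hfix G y hy]
  have hH : HH (κ₀ := κ₀) ht ((actM h).comp S) Kf := fun V _ c _ _ δ _ y hy => hfix' δ y hy
  have key : ∀ G, sT ht hC.rat hs G = 1 := by
    rcases main ht hC hW hs hKf hH with htriv | ⟨W₀, -, hW₀, -⟩
    · exact htriv
    · intro G
      obtain ⟨π, hπ, hπ1⟩ := hKf W₀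
      exact stab_triv a_stab hC.rat W₀ _ (fun z => hW₀ (ofT ht G) z) hπ1 (hfix' G π hπ)
  have h1 := congrArg (fun g : M ≃ₐ[R] M => g y) (key G)
  have h2 : actM h (S (ofT ht G)) y = y := h1
  rw [← actM_apply, h2]

end geo

section adj

variable {F Ω : Type} [Field F] [Field Ω] [Algebra F Ω] {N : IntermediateField F Ω}

theorem fix_adj (τ : N ≃ₐ[F] N) (P : Set Ω)
    (hP : ∀ w ∈ P, ∃ hw : w ∈ N, τ ⟨w, hw⟩ = ⟨w, hw⟩) (w : Ω)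
    (hw : w ∈ IntermediateField.adjoin F P) : ∃ hw : w ∈ N, τ ⟨w, hw⟩ = ⟨w, hw⟩ := by
  induction hw using IntermediateField.adjoin_induction with
  | mem y hy => exact hP y hy
  | algebraMap c => exact ⟨N.algebraMap_mem c, τ.commutes c⟩
  | add a b _ _ ha hb =>
    obtain ⟨ha, ha'⟩ := ha
    obtain ⟨hb, hb'⟩ := hb
    refine ⟨add_mem ha hb, ?_⟩
    have h5 : (⟨a + b, add_mem ha hb⟩ : N) = ⟨a, ha⟩ + ⟨b, hb⟩ := rfl
    rw [h5, map_add, ha', hb']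
  | inv a _ ha =>
    obtain ⟨ha, ha'⟩ := ha
    refine ⟨inv_mem ha, ?_⟩
    have h5 : (⟨a⁻¹, inv_mem ha⟩ : N) = (⟨a, ha⟩ : N)⁻¹ := rfl
    rw [h5, map_inv₀, ha']
  | mul a b _ _ ha hb =>
    obtain ⟨ha, ha'⟩ := ha
    obtain ⟨hb, hb'⟩ := hb
    refine ⟨mul_mem ha hb, ?_⟩
    have h5 : (⟨a * b, mul_mem ha hb⟩ : N) = ⟨a, ha⟩ * ⟨b, hb⟩ := rfl
    rw [h5, map_mul, ha', hb']

theorem agree_adj (τ : N ≃ₐ[F] N) (e : Ω ≃ₐ[F] Ω) (P : Set Ω)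
    (hP : ∀ w ∈ P, ∃ hw : w ∈ N, ((τ ⟨w, hw⟩ : N) : Ω) = e w) (w : Ω)
    (hw : w ∈ IntermediateField.adjoin F P) : ∃ hw : w ∈ N, ((τ ⟨w, hw⟩ : N) : Ω) = e w := by
  induction hw using IntermediateField.adjoin_induction with
  | mem y hy => exact hP y hy
  | algebraMap c =>
    refine ⟨N.algebraMap_mem c, ?_⟩
    have h1 : τ ⟨algebraMap F Ω c, N.algebraMap_mem c⟩ = ⟨algebraMap F Ω c, N.algebraMap_mem c⟩ :=
      τ.commutes c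
    rw [h1, e.commutes]
  | add a b _ _ ha hb =>
    obtain ⟨ha, ha'⟩ := ha
    obtain ⟨hb, hb'⟩ := hb
    refine ⟨add_mem ha hb, ?_⟩
    have h5 : (⟨a + b, add_mem ha hb⟩ : N) = ⟨a, ha⟩ + ⟨b, hb⟩ := rfl
    rw [h5, map_add, map_add, ← ha', ← hb']
    rfl
  | inv a _ ha =>
    obtain ⟨ha, ha'⟩ := ha
    refine ⟨inv_mem ha, ?_⟩
    have h5 : (⟨a⁻¹, inv_mem ha⟩ : N) = (⟨a, ha⟩ : N)⁻¹ := rfl
    rw [h5, map_inv₀, map_inv₀, ← ha']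
    rfl
  | mul a b _ _ ha hb =>
    obtain ⟨ha, ha'⟩ := ha
    obtain ⟨hb, hb'⟩ := hb
    refine ⟨mul_mem ha hb, ?_⟩
    have h5 : (⟨a * b, mul_mem ha hb⟩ : N) = ⟨a, ha⟩ * ⟨b, hb⟩ := rfl
    rw [h5, map_mul, map_mul, ← ha', ← hb']
    rfl

end adj

end Pool.Agent.H889.RS
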