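import Pool.Agent.H889.RS.GeoI

/-!
# The theorem on sections in terms of function fields: main theorem

(helper889.)
-/

set_option autoImplicit false
set_option linter.all false

open Polynomial FF

namespace Pool.Agent.H889.RS

open Pool.Agent.Y157.PS Pool.Agent.H889.PS
open Pool.Agent.Y903.PS (tt ratF_tt)
open Pool.Agent.Y31.PS (stab_triv lev_sup)

section main

variable {k₀ K F Ω : Type} [Field k₀] [Field K] [Field F] [Field Ω] [Algebra k₀ K] [Algebra k₀ F]
  [Algebra K F] [IsScalarTower k₀ K F] [Algebra F Ω] [Algebra k₀ Ω] [Algebra K Ω]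
  [IsScalarTower k₀ F Ω] [IsScalarTower K F Ω] [IsScalarTower k₀ K Ω]

theorem finS [CharZero k₀] [IsAlgClosure F Ω] (hk : (⊤ : IntermediateField ℚ k₀).FG) {t : K}
    (ht : RatF k₀ t) {ℓ : ℕ} [Fact ℓ.Prime] (x : F) (hxt : Transcendental K x)
    {B : Finset (algebraicClosure k₀ Ω)}
    {L : IntermediateField (ratL (Ω := Ω) k₀ x) (lc k₀ Ω x)} (hcov : CovH k₀ K ℓ x B L)
    (hFc : ∀ z : F, algebraMap F Ω z ∈ Subfield.closure ((algebraicClosure K Ω : Set Ω) ∪
      {w | ∃ y ∈ cf k₀ K Ω x (rat_le x), (y : Ω) = w}))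
    (hT : ∃ (n : ℕ) (ρ : Ω), 0 < n ∧ ρ ^ n = algebraMap K Ω t ∧
      ∀ y ∈ cf k₀ K Ω x (rat_le x), (y : Ω) ∈
        IntermediateField.adjoin F ((algebraicClosure k₀ Ω : Set Ω) ∪ {ρ})) :
    (∀ W : ValuationSubring Ω, (∀ c : K, algebraMap K Ω c ∈ W) → ∀ σ : Ω ≃ₐ[F] Ω,
      (∀ y ∈ W, σ y - y ∈ W.nonunits) → ∀ z ∈ MM ℓ k₀ K Ω x, σ z = z) ∧
    ∀ (N : IntermediateField F Ω), MM ℓ k₀ K Ω x ≤ N →
      ∀ (S : (algebraicClosure K Ω ≃ₐ[K] algebraicClosure K Ω) →* (N ≃ₐ[F] N)), Continuous S →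
      (∀ σ (c : algebraicClosure K Ω) (z : N), (z : Ω) = c → ((S σ z : N) : Ω) = (σ c : Ω)) →
      ((∀ y ∈ cf k₀ K Ω x (rat_le x), (y : Ω) ∈
          IntermediateField.adjoin F (algebraicClosure k₀ Ω : Set Ω)) →
        ∀ σ : algebraicClosure K Ω ≃ₐ[K] algebraicClosure K Ω,
          (∀ c : algebraicClosure K Ω, (c : Ω) ∈ algebraicClosure k₀ Ω → σ c = c) → ∀ z : N,
          (∃ y ∈ maxPro ℓ (algebraicClosure k₀ Ω) (cf k₀ K Ω x (rat_le x)) (lc k₀ Ω x),
            (y : Ω) = z) → S σ z = z) ∧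
      ((∃ y ∈ cf k₀ K Ω x (rat_le x), (y : Ω) ∉
          IntermediateField.adjoin F (algebraicClosure k₀ Ω : Set Ω)) →
        ∃ W : ValuationSubring N, (∀ c : K, algebraMap F N (algebraMap K F c) ∈ W) ∧
          (∃ z : N, (z : Ω) ∈ geomF K F Ω ∧ z ≠ 0 ∧ ∀ u : N,
            (u : Ω) ∈ IntermediateField.adjoin (algebraicClosure K Ω) {algebraMap F Ω x} →
            u ≠ 0 → ¬ IsU W (z / u)) ∧
          (∀ z : F, algebraMap F N z ∈ W →
            ∃ c : K, algebraMap F N (z - algebraMap K F c) ∈ W.nonunits) ∧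
          (∀ σ (z : N), (z : Ω) ∈ MM ℓ k₀ K Ω x → (S σ z ∈ W ↔ z ∈ W)) ∧
          (∀ τ : N ≃ₐ[F] N, (∀ z : N, (z : Ω) ∈ algebraicClosure K Ω → τ z = z) →
            (∀ z : N, (z : Ω) ∈ MM ℓ k₀ K Ω x → (τ z ∈ W ↔ z ∈ W)) →
              ∀ z : N, (z : Ω) ∈ MM ℓ k₀ K Ω x → τ z = z) ∧
          (∀ W' : ValuationSubring N, (∀ c : K, algebraMap F N (algebraMap K F c) ∈ W') →
            (∀ σ (z : N), (z : Ω) ∈ MM ℓ k₀ K Ω x → (S σ z ∈ W' ↔ z ∈ W')) →
              (∃ z : N, (z : Ω) ∈ MM ℓ k₀ K Ω x ∧ z ∉ W') →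
                ∀ z : N, (z : Ω) ∈ MM ℓ k₀ K Ω x → (z ∈ W' ↔ z ∈ W))) := by
  classical
  haveI hclΩ : IsAlgClosed Ω := IsAlgClosure.isAlgClosed F
  haveI halgΩ : Algebra.IsAlgebraic F Ω := IsAlgClosure.isAlgebraic
  haveI hnF : Normal F Ω := IsAlgClosure.normal F Ω
  -- the constants
  haveI hac : IsAlgClosure k₀ (algebraicClosure k₀ Ω) := inferInstance
  haveI hkb : IsAlgClosed (algebraicClosure k₀ Ω) := hac.1
  haveI hch : CharZero (algebraicClosure k₀ Ω) :=
    charZero_of_injective_algebraMap (algebraMap k₀ (algebraicClosure k₀ Ω)).injective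
  haveI hn₀ : Normal k₀ (algebraicClosure k₀ Ω) := IsAlgClosure.normal k₀ _
  haveI hacK : IsAlgClosure K (algebraicClosure K Ω) := inferInstance
  haveI hkbK : IsAlgClosed (algebraicClosure K Ω) := hacK.1
  haveI hnK : Normal K (algebraicClosure K Ω) := IsAlgClosure.normal K _
  haveI halgK : Algebra.IsAlgebraic K (algebraicClosure K Ω) := hacK.2
  haveI hcF : CharZero F := charZero_of_injective_algebraMap (algebraMap k₀ F).injective
  letI ia : Algebra (algebraicClosure k₀ Ω) (algebraicClosure K Ω) :=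
    ((algebraMap (algebraicClosure k₀ Ω) Ω).codRestrict
      (algebraicClosure K Ω).toSubfield.toSubring cst_le).toAlgebra
  haveI it1 : IsScalarTower (algebraicClosure k₀ Ω) (algebraicClosure K Ω) Ω :=
    IsScalarTower.of_algebraMap_eq fun _ => rfl
  haveI it2 : IsScalarTower k₀ K (algebraicClosure K Ω) := inferInstance
  haveI it3 : IsScalarTower k₀ (algebraicClosure k₀ Ω) (algebraicClosure K Ω) :=
    IsScalarTower.of_algebraMap_eq fun c => Subtype.ext rfl
  -- the covering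
  have hX : Transcendental K (algebraMap F Ω x) :=
    (transcendental_algebraMap_iff (R := K) (algebraMap F Ω).injective (a := x)).2 hxt
  have hX₀ : Transcendental k₀ (algebraMap F Ω x) := fun h => hX (h.tower_top K)
  have hXκ : Transcendental (algebraicClosure K Ω) (algebraMap F Ω x) := trans_up hX
  obtain ⟨M, hM, ⟨hNM, ε, ι, hC⟩, hunif⟩ := exists_gcov hcov hX₀
  haveI it4 : IsScalarTower (algebraicClosure k₀ Ω) M Ω :=
    IsScalarTower.of_algebraMap_eq fun _ => rfl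
  have hxM : algebraMap M Ω (algebraMap (ratL (Ω := Ω) k₀ x) M (xL k₀ Ω x)) = algebraMap F Ω x :=
    rfl
  obtain ⟨Kf, hKfd⟩ : ∃ Kf : Set M, Kf = {y : M | (y : lc k₀ Ω x) ∈ cf k₀ K Ω x (rat_le x)} :=
    ⟨_, rfl⟩
  have hKfm : ∀ y : M, y ∈ Kf ↔ (y : lc k₀ Ω x) ∈ cf k₀ K Ω x (rat_le x) := fun y => by
    rw [hKfd]; rfl
  have hcfM : ∀ y ∈ cf k₀ K Ω x (rat_le x), y ∈ M := fun y hy => hNM (hcov.le hy)
  have hKf : ∀ W : Place (algebraicClosure k₀ Ω) M, ∃ π ∈ Kf, W.ord π = 1 := by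
    intro W
    obtain ⟨π, hπ, hπ1⟩ := hunif W
    exact ⟨π, (hKfm π).2 hπ, hπ1⟩
  have hrange : Set.range (algebraMap (algebraicClosure K Ω) Ω) = (algebraicClosure K Ω : Set Ω) := by
    ext z
    exact ⟨fun ⟨c, hc⟩ => hc ▸ c.2, fun hz => ⟨⟨z, hz⟩, rfl⟩⟩
  have hrange₀ : Set.range (algebraMap (algebraicClosure k₀ Ω) Ω) =
      (algebraicClosure k₀ Ω : Set Ω) := by
    ext z
    exact ⟨fun ⟨c, hc⟩ => hc ▸ c.2, fun hz => ⟨⟨z, hz⟩, rfl⟩⟩
  have hKc : ∀ y ∈ Kf, algebraMap M Ω y ∈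
      IntermediateField.adjoin F (Set.range (algebraMap (algebraicClosure K Ω) Ω)) := by
    intro y hy
    rw [hrange]
    exact (hKfm y).1 hy
  have hMel : ∀ w : Ω, (∃ y ∈ maxPro ℓ (algebraicClosure k₀ Ω) (cf k₀ K Ω x (rat_le x))
      (lc k₀ Ω x), (y : Ω) = w) ↔ w ∈ Set.range (algebraMap M Ω) := by
    intro w
    constructor
    · rintro ⟨y, hy, rfl⟩
      exact ⟨⟨y, (hM y).2 hy⟩, rfl⟩
    · rintro ⟨y, rfl⟩
      exact ⟨y, (hM _).1 y.2, rfl⟩
  have hFc' : ∀ z : F, algebraMap F Ω z ∈ comp (algebraicClosure K Ω) M Ω := by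
    intro z
    have h1 : Subfield.closure ((algebraicClosure K Ω : Set Ω) ∪
        {w | ∃ y ∈ cf k₀ K Ω x (rat_le x), (y : Ω) = w}) ≤ comp (algebraicClosure K Ω) M Ω := by
      refine Subfield.closure_le.2 ?_
      rintro w (hw | ⟨y, hy, rfl⟩)
      · exact comp_cst (M := M) (⟨w, hw⟩ : algebraicClosure K Ω)
      · exact comp_M (κ := algebraicClosure K Ω) (⟨y, hcfM y hy⟩ : M)
    exact h1 (hFc z)
  have hMM : ∀ z : Ω, z ∈ MM ℓ k₀ K Ω x ↔ z ∈ comp (algebraicClosure K Ω) M Ω := by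
    intro z
    constructor
    · intro hz
      refine adjoin_le_sub (T := comp (algebraicClosure K Ω) M Ω) hFc' ?_ _ hz
      rintro w (hw | hw)
      · exact comp_cst (M := M) (⟨w, hw⟩ : algebraicClosure K Ω)
      · obtain ⟨y, rfl⟩ := (hMel w).1 hw
        exact comp_M (κ := algebraicClosure K Ω) y
    · intro hz
      have h1 : comp (algebraicClosure K Ω) M Ω ≤ (MM ℓ k₀ K Ω x).toSubfield := by
        refine Subfield.closure_le.2 ?_
        rintro w (⟨c, rfl⟩ | ⟨y, rfl⟩)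
        · exact IntermediateField.subset_adjoin F _ (Or.inl c.2)
        · exact IntermediateField.subset_adjoin F _ (Or.inr ((hMel _).2 ⟨y, rfl⟩))
      exact h1 hz
  have hEmb : ∀ N : IntermediateField F Ω, MM ℓ k₀ K Ω x ≤ N →
      Emb (algebraicClosure K Ω) M N := by
    intro N hN
    refine ⟨fun c => hN ((hMM _).2 (comp_cst c)), fun y => hN ((hMM _).2 (comp_M y)), ?_⟩
    intro τ y
    obtain ⟨e, he⟩ : ∃ e : Ω ≃ₐ[F] Ω, ∀ w : N, e w = (τ w : N) :=
      ⟨τ.liftNormal Ω, fun w => AlgEquiv.liftNormal_commutes τ Ω w⟩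
    obtain ⟨z', hz', hz''⟩ := stab_max x e (y : lc k₀ Ω x) ((hM _).1 y.2)
    refine ⟨⟨z', (hM _).2 hz'⟩, ?_⟩
    rw [← he]
    exact hz''
  -- the twist
  have hTw : Twist (F := F) (Ω := Ω) (algebraicClosure k₀ Ω) (algebraicClosure K Ω)
      (algebraMap K (algebraicClosure K Ω) t) Kf := by
    obtain ⟨n, ρ, hn, hρ, h⟩ := hT
    have hρK : ρ ∈ algebraicClosure K Ω := by
      rw [mem_algebraicClosure_iff]
      refine IsAlgebraic.of_pow hn ?_
      rw [hρ]
      exact isAlgebraic_algebraMap t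
    refine ⟨n, ⟨ρ, hρK⟩, hn, Subtype.ext hρ, fun y hy => ?_⟩
    rw [hrange₀]
    exact h _ ((hKfm y).1 hy)
  have hwt := ww_fg (ℓ := ℓ) hk B _ M (xL k₀ Ω x) ε ι _ hC
  refine ⟨?_, fun N hN S hcont hcomp => ?_⟩
  · -- inertia
    intro W hW σ hσ z hz
    have hWκ : ∀ c : algebraicClosure K Ω, algebraMap (algebraicClosure K Ω) Ω c ∈ W := by
      intro c
      exact Pool.Agent.Y948.PS.mem_of_alg W hW ((mem_algebraicClosure_iff).1 c.2)
    refine ine hC (hEmb ⊤ le_top) hxM hKf hKc W hWκ σ (fun c => ?_) hσ z ((hMM z).1 hz)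
    have h1 : σ (c : Ω) ∈ algebraicClosure K Ω := by
      rw [mem_algebraicClosure_iff]
      exact ((mem_algebraicClosure_iff).1 c.2).algHom
        ((σ.restrictScalars K : Ω ≃ₐ[K] Ω) : Ω →ₐ[K] Ω)
    exact ⟨⟨σ c, h1⟩, rfl⟩
  have h := hEmb N hN
  have hS : Cmp h S := fun σ c => Subtype.ext (hcomp σ c _ rfl)
  haveI : Algebra.IsAlgebraic F N := inferInstance
  refine ⟨fun hconst σ hσ z hz => ?_, fun hnc => ?_⟩
  · -- the constant case
    obtain ⟨y, hy⟩ := (hMel _).1 hz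
    have hσ' : ∀ a : algebraicClosure k₀ Ω, σ (algebraMap (algebraicClosure k₀ Ω)
        (algebraicClosure K Ω) a) = algebraMap (algebraicClosure k₀ Ω) (algebraicClosure K Ω) a :=
      fun a => hσ _ a.2
    have h1 := const_case ht hC hwt h hS hcont hxM hKf (fun G y hy => by
      obtain ⟨hw, h2⟩ := fix_adj (S (ofT ht G)) (algebraicClosure k₀ Ω : Set Ω) (fun w hw => by
        have hwK := cst_le (K := K) (⟨w, hw⟩ : algebraicClosure k₀ Ω)
        refine ⟨h.cst ⟨w, hwK⟩, ?_⟩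
        have h3 : (⟨w, h.cst ⟨w, hwK⟩⟩ : N) = iK h (algebraMap (algebraicClosure k₀ Ω)
          (algebraicClosure K Ω) ⟨w, hw⟩) := rfl
        rw [h3, hS, ofT_const]) _ (hconst _ ((hKfm y).1 hy))
      exact h2) (toT (t := t) σ hσ') y
    have h2 : ofT ht (toT (t := t) σ hσ') = σ := by ext w; rfl
    rw [h2] at h1
    have h3 : z = iM h y := Subtype.ext hy.symm
    rw [h3]
    exact h1
  · -- the nonconstant case
    rcases geoS ht hC hwt h hS hcont hxM hXκ hKf hKc hFc' hTw with hleft | ⟨W, w1, w2, w3, w4, w5,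
      w6, w7⟩
    · exfalso
      obtain ⟨y, hy, hyn⟩ := hnc
      let E₀ := IntermediateField.adjoin F (algebraicClosure k₀ Ω : Set Ω)
      haveI : CharZero E₀ := charZero_of_injective_algebraMap (algebraMap F E₀).injective
      haveI : Normal E₀ Ω := Normal.tower_top_of_normal F E₀ Ω
      haveI : Algebra.IsAlgebraic E₀ Ω := Algebra.IsAlgebraic.tower_top (K := F) E₀
      haveI : IsGalois E₀ Ω := ⟨⟩
      apply hyn
      have h1 : (y : Ω) ∈ (⊥ : IntermediateField E₀ Ω) := by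
        rw [← InfiniteGalois.fixedField_bot]
        rintro ⟨g, -⟩
        change g (y : Ω) = y
        obtain ⟨e, he⟩ : ∃ e : Ω ≃ₐ[F] Ω, ∀ w, e w = g w := ⟨g.restrictScalars F, fun w => rfl⟩
        have heK : ∀ (e' : Ω ≃ₐ[F] Ω) (c : Ω), c ∈ algebraicClosure K Ω →
            e' c ∈ algebraicClosure K Ω := by
          intro e' c hc
          rw [mem_algebraicClosure_iff] at hc ⊢
          exact hc.algHom ((e'.restrictScalars K : Ω ≃ₐ[K] Ω) : Ω →ₐ[K] Ω)
        let δ : algebraicClosure K Ω ≃ₐ[K] algebraicClosure K Ω :=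
          { toFun := fun c => ⟨e c, heK e c c.2⟩
            invFun := fun c => ⟨e.symm c, heK e.symm c c.2⟩
            left_inv := fun c => Subtype.ext (e.symm_apply_apply _)
            right_inv := fun c => Subtype.ext (e.apply_symm_apply _)
            map_mul' := fun a b => Subtype.ext (map_mul e _ _)
            map_add' := fun a b => Subtype.ext (map_add e _ _)
            commutes' := fun c => Subtype.ext (by
              change e (algebraMap K Ω c) = algebraMap K Ω c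
              rw [IsScalarTower.algebraMap_apply K F Ω, e.commutes]) }
        have hδ : ∀ a : algebraicClosure k₀ Ω, δ (algebraMap (algebraicClosure k₀ Ω)
            (algebraicClosure K Ω) a) =
              algebraMap (algebraicClosure k₀ Ω) (algebraicClosure K Ω) a := by
          intro a
          apply Subtype.ext
          change e (a : Ω) = a
          rw [he]
          exact g.commutes ⟨(a : Ω), IntermediateField.subset_adjoin F _ a.2⟩
        have h2 : ofT ht (toT (t := t) δ hδ) = δ := by ext w; rfl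
        have h3 := hleft (toT (t := t) δ hδ) ⟨y, hcfM y hy⟩
        rw [h2] at h3
        obtain ⟨hw, h4⟩ := agree_adj (S δ) e (algebraicClosure K Ω : Set Ω) (fun w hw => by
          refine ⟨h.cst ⟨w, hw⟩, ?_⟩
          have h5 : (⟨w, h.cst ⟨w, hw⟩⟩ : N) = iK h ⟨w, hw⟩ := rfl
          rw [h5, hS]
          rfl) (y : Ω) hy
        have h5 : iM h ⟨y, hcfM y hy⟩ = ⟨(y : Ω), hw⟩ := rfl
        rw [h5] at h3
        rw [h3] at h4
        rw [← he]
        exact h4.symm
      obtain ⟨w, hw⟩ := IntermediateField.mem_bot.1 h1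
      rw [← hw]
      exact w.2
    · have hcK : ∀ (W' : ValuationSubring N), (∀ c : K, algebraMap F N (algebraMap K F c) ∈ W') →
          ∀ c : algebraicClosure K Ω, iK h c ∈ W' := by
        intro W' hW' c
        obtain ⟨V', hV'⟩ := a_extv N Ω W'
        have hmem' : ∀ z : N, (z : Ω) ∈ V' ↔ z ∈ W' := by
          intro z
          rw [← hV']
          rfl
        rw [← hmem']
        refine Pool.Agent.Y948.PS.mem_of_alg V' (fun a => ?_) ((mem_algebraicClosure_iff).1 c.2)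
        rw [IsScalarTower.algebraMap_apply K F Ω]
        exact (hmem' (algebraMap F N (algebraMap K F a))).2 (hW' a)
      refine ⟨W, fun c => ?_, ?_, w4, fun σ z hz => w5 σ z ((hMM _).1 hz), fun τ hτ hst z hz => ?_,
        fun W' hW' hst' hne' z hz => ?_⟩
      · have h1 := w1 (algebraMap K (algebraicClosure K Ω) c)
        have h2 : iK h (algebraMap K (algebraicClosure K Ω) c) = algebraMap F N (algebraMap K F c) :=
          Subtype.ext (IsScalarTower.algebraMap_apply K F Ω c)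
        rwa [h2] at h1
      · obtain ⟨y, hy, hy0, hyu⟩ := w2
        exact ⟨iM h y, (hKfm y).1 hy, (map_ne_zero_iff _ (iM h).injective).2 hy0, hyu⟩
      · exact w6 τ (fun c => hτ _ c.2) (fun z hz => hst z ((hMM _).2 hz)) z ((hMM _).1 hz)
      · refine w7 W' (hcK W' hW') (fun σ z hz => hst' σ z ((hMM _).2 hz)) ?_ z ((hMM _).1 hz)
        obtain ⟨w, hw, hw'⟩ := hne'
        exact ⟨w, (hMM _).1 hw, hw'⟩

end main

end Pool.Agent.H889.RS
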