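import Pool.Agent.H889.RS.GeoJ

/-!
# The field `κ M₀` is stable

(helper889.)
-/

set_option autoImplicit false
set_option linter.all false

open Polynomial FF

namespace Pool.Agent.H889.RS

open Pool.Agent.Y157.PS Pool.Agent.H889.PS

section main

variable {k₀ K F Ω : Type} [Field k₀] [Field K] [Field F] [Field Ω] [Algebra k₀ K] [Algebra k₀ F]
  [Algebra K F] [IsScalarTower k₀ K F] [Algebra F Ω] [Algebra k₀ Ω] [Algebra K Ω]
  [IsScalarTower k₀ F Ω] [IsScalarTower K F Ω] [IsScalarTower k₀ K Ω]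

theorem mm_stab {ℓ : ℕ} (x : F) (e : Ω ≃ₐ[F] Ω) (z : Ω) (hz : z ∈ MM ℓ k₀ K Ω x) :
    e z ∈ MM ℓ k₀ K Ω x := by
  induction hz using IntermediateField.adjoin_induction with
  | mem y hy =>
    rcases hy with hy | ⟨w, hw, rfl⟩
    · refine IntermediateField.subset_adjoin F _ (Or.inl ?_)
      have hy' : y ∈ algebraicClosure K Ω := hy
      have h1 : e y ∈ algebraicClosure K Ω := by
        rw [mem_algebraicClosure_iff] at hy' ⊢
        exact hy'.algHom ((e.restrictScalars K : Ω ≃ₐ[K] Ω) : Ω →ₐ[K] Ω)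
      exact h1
    · obtain ⟨z', hz', h1⟩ := stab_max x e w hw
      exact IntermediateField.subset_adjoin F _ (Or.inr ⟨z', hz', h1⟩)
  | algebraMap c =>
    rw [e.commutes]
    exact IntermediateField.algebraMap_mem _ _
  | add a b _ _ ha hb => rw [map_add]; exact add_mem ha hb
  | inv a _ ha => rw [map_inv₀]; exact inv_mem ha
  | mul a b _ _ ha hb => rw [map_mul]; exact mul_mem ha hb

theorem mm_stabN {ℓ : ℕ} (x : F) [Normal F Ω] {N : IntermediateField F Ω} (τ : N ≃ₐ[F] N) (z : N)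
    (hz : (z : Ω) ∈ MM ℓ k₀ K Ω x) : ((τ z : N) : Ω) ∈ MM ℓ k₀ K Ω x := by
  have h1 : (τ.liftNormal Ω) (z : Ω) = (τ z : N) := AlgEquiv.liftNormal_commutes τ Ω z
  rw [← h1]
  exact mm_stab x _ _ hz

end main

end Pool.Agent.H889.RS
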