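import Pool.Agent.H889.RS.Exch

/-!
# The places belonging to a section

(helper889.)
-/

set_option autoImplicit false
set_option linter.all false

open Polynomial FF

namespace Pool.Agent.H889.RS

open Pool.Agent.Y157.PS Pool.Agent.H889.PS
open Pool.Agent.Y903.PS (tt ratF_tt)
open Pool.Agent.Y31.PS (stab_triv lev_sup)

section res

variable {κ₀ R M : Type} [Field κ₀] [Field R] [Field M] [Algebra κ₀ R] [Algebra R M] [Algebra κ₀ M]
  [IsScalarTower κ₀ R M] {x : R}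

/-- the residue field of a place -/
theorem place_res [IsAlgClosed κ₀] [Algebra.IsAlgebraic R M] (hx : RatF κ₀ x) (W : Place κ₀ M)
    (z : M) (hz : z ∈ W.O) : ∃ a : κ₀, z - algebraMap κ₀ M a ∈ W.O.nonunits := by
  have hc : ∀ a : κ₀, algebraMap κ₀ M a ∈ W.O := fun a => W.reg_const a
  obtain ⟨c, hcW⟩ := exists_point (Ω := M) hx W.O hc (Place.O_ne_top W)
  refine Pool.Agent.V11235.SL.residue_alg (k := κ₀) (F := R) (K := κ₀) (algebraMap κ₀ M)
    (fun a => IsScalarTower.algebraMap_apply κ₀ R M a) W.O hc (fun y hy => ?_) z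
    (Algebra.IsAlgebraic.isAlgebraic z) hz
  obtain ⟨a, ha⟩ := res_rat (Ω := M) (ratF_tt hx c) (W := W.O) hc hcW y hy
  exact ⟨a, by rw [map_sub, ← IsScalarTower.algebraMap_apply]; exact ha⟩

end res

section geo

variable {k₀ κ₀ K κ R M F Ω : Type} [Field k₀] [Field κ₀] [Field K] [Field κ] [Field R] [Field M]
  [Field F] [Field Ω] [Algebra k₀ κ₀]
  [Algebra k₀ K] [Algebra K κ] [Algebra κ₀ κ] [Algebra k₀ κ] [IsScalarTower k₀ K κ]
  [IsScalarTower k₀ κ₀ κ] [Algebra κ₀ R] [Algebra R M] [Algebra κ₀ M] [IsScalarTower κ₀ R M]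
  [Algebra K F] [Algebra F Ω] [Algebra K Ω] [IsScalarTower K F Ω] [Algebra κ Ω]
  [IsScalarTower K κ Ω] [Algebra M Ω] [Algebra κ₀ Ω] [IsScalarTower κ₀ κ Ω]
  [IsScalarTower κ₀ M Ω] {N : IntermediateField F Ω} {x : R} {xF : F}
  {S : (κ ≃ₐ[K] κ) →* (N ≃ₐ[F] N)}
  {ℓ : ℕ} [hℓ : Fact ℓ.Prime] {B : Finset κ₀} {ε : κ₀ → ℕ} {ι : ℕ}
  {N₀ : IntermediateField R M} {t : K}

/-- elements of `κ` are algebraic over `κ₀(t)` -/
theorem alg_up [Algebra.IsAlgebraic K κ] (ht : RatF k₀ t) (c : κ) :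
    IsAlgebraic (IntermediateField.adjoin κ₀ {algebraMap κ Ω (algebraMap K κ t)})
      (algebraMap κ Ω c) := by
  haveI := algT (κ₀ := κ₀) (κ := κ) ht
  have h1 : IsAlgebraic (TT κ₀ κ t) c := Algebra.IsAlgebraic.isAlgebraic c
  have h2 : IsAlgebraic (TT κ₀ κ t) (algebraMap κ Ω c) := h1.algebraMap
  have hmap : ∀ z : TT κ₀ κ t, algebraMap (TT κ₀ κ t) Ω z ∈
      IntermediateField.adjoin κ₀ {algebraMap κ Ω (algebraMap K κ t)} := by
    rintro ⟨z, hz⟩
    change algebraMap κ Ω z ∈ _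
    induction hz using IntermediateField.adjoin_induction with
    | mem y hy =>
      rw [Set.mem_singleton_iff] at hy
      rw [hy]
      exact IntermediateField.mem_adjoin_simple_self _ _
    | algebraMap c =>
      rw [← IsScalarTower.algebraMap_apply κ₀ κ Ω]
      exact IntermediateField.algebraMap_mem _ _
    | add a b _ _ ha hb => rw [map_add]; exact add_mem ha hb
    | inv a _ ha => rw [map_inv₀]; exact inv_mem ha
    | mul a b _ _ ha hb => rw [map_mul]; exact mul_mem ha hb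
  let i : TT κ₀ κ t →+* IntermediateField.adjoin κ₀ {algebraMap κ Ω (algebraMap K κ t)} :=
    (algebraMap (TT κ₀ κ t) Ω).codRestrict
      (IntermediateField.adjoin κ₀ {algebraMap κ Ω (algebraMap K κ t)}).toSubfield.toSubring hmap
  letI : Algebra (TT κ₀ κ t) (IntermediateField.adjoin κ₀
    {algebraMap κ Ω (algebraMap K κ t)}) := i.toAlgebra
  haveI : IsScalarTower (TT κ₀ κ t) (IntermediateField.adjoin κ₀
      {algebraMap κ Ω (algebraMap K κ t)}) Ω :=
    IsScalarTower.of_algebraMap_eq fun _ => rfl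
  exact h2.tower_top _

/-- the valuation rings over `κ` and `O` exist -/
theorem exists_W [IsAlgClosed κ₀] [Algebra.IsAlgebraic k₀ κ₀] [Algebra.IsAlgebraic K κ]
    [Algebra.IsAlgebraic R M] (ht : RatF k₀ t)
    (hR : RatF κ₀ x) (hx : algebraMap M Ω (algebraMap R M x) = algebraMap F Ω xF)
    (hxt : Transcendental κ (algebraMap F Ω xF)) (O : ValuationSubring M)
    (hO : ∀ a : κ₀, algebraMap κ₀ M a ∈ O) : ∃ W : ValuationSubring Ω, Ab κ O W := by
  have hT := ratT (κ := κ) ht (κ₀ := κ₀)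
  have h1 : Transcendental κ₀ (algebraMap K κ t) :=
    (transcendental_algebraMap_iff (algebraMap (TT κ₀ κ t) κ).injective).2 hT.trans
  have h2 : Transcendental κ₀ (algebraMap κ Ω (algebraMap K κ t)) :=
    (transcendental_algebraMap_iff (algebraMap κ Ω).injective).2 h1
  obtain ⟨V, hV⟩ := exists_spl (κ₀ := κ₀) (κ := κ) (S := M) (E := Ω)
    (trans_M hR h1 (by rw [hx]; exact hxt)) h2 (alg_up ht)
  exact exists_above hV O hO

/-- the action preserves the valuation rings -/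
theorem ab_act [Normal F Ω] (h : Emb κ M N) (τ : N ≃ₐ[F] N) {τ₀ : κ ≃+* κ}
    (hτ₀ : ∀ c, τ (iK h c) = iK h (τ₀ c)) {O : ValuationSubring M} {W : ValuationSubring Ω}
    (hW : Ab κ O W) (hO : ∀ z ∈ O, ∃ a : κ₀, z - algebraMap κ₀ M a ∈ O.nonunits)
    (hst : ∀ y, actM h τ y ∈ O ↔ y ∈ O) (z : N) (hz : (z : Ω) ∈ comp κ M Ω) :
    ((τ z : N) : Ω) ∈ W ↔ (z : Ω) ∈ W := by
  obtain ⟨e, he⟩ : ∃ e : Ω ≃ₐ[F] Ω, ∀ w : N, e w = (τ w : N) :=
    ⟨τ.liftNormal Ω, fun w => AlgEquiv.liftNormal_commutes τ Ω w⟩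
  have hmem : ∀ w, w ∈ W.comap (e : Ω →+* Ω) ↔ e w ∈ W := fun w => Iff.rfl
  have h1 : Ab κ O (W.comap (e : Ω →+* Ω)) := by
    refine ⟨fun a => ?_, fun y => ?_⟩
    · rw [hmem]
      have h2 : e (algebraMap κ Ω a) = algebraMap κ Ω (τ₀ a) := by
        rw [← coe_iK h, he, hτ₀]
        rfl
      rw [h2]
      exact hW.1 _
    · rw [hmem]
      have h2 : e (algebraMap M Ω y) = algebraMap M Ω (actM h τ y) := by
        rw [← coe_iM h, he, ← actM_apply]
        rfl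
      rw [h2, hW.2, hst]
  rw [← he, ← hmem]
  exact comp_unique (κ := κ) O hO h1 hW hz

/-- an automorphism over `κ F` which preserves `W` is trivial -/
theorem agree [IsAlgClosed κ₀] [CharZero κ₀] (hC : GCov ℓ κ₀ R M x B ε ι N₀) (h : Emb κ M N)
    (hx : algebraMap M Ω (algebraMap R M x) = algebraMap F Ω xF)
    {Kf : Set M} (hKf : ∀ W : Place κ₀ M, ∃ π ∈ Kf, W.ord π = 1)
    (hKc : ∀ y ∈ Kf, algebraMap M Ω y ∈ IntermediateField.adjoin F (Set.range (algebraMap κ Ω)))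
    (W₀ : Place κ₀ M) (τ : N ≃ₐ[F] N) (hτ : ∀ c, τ (iK h c) = iK h c)
    (hst : ∀ y, actM h τ y ∈ W₀.O ↔ y ∈ W₀.O) (z : N) (hz : (z : Ω) ∈ comp κ M Ω) : τ z = z := by
  haveI := hC.gal
  have hκ₀ : ∀ a : κ₀, iM h (algebraMap κ₀ M a) = iK h (algebraMap κ₀ κ a) := by
    intro a
    apply Subtype.ext
    change algebraMap M Ω (algebraMap κ₀ M a) = algebraMap κ Ω (algebraMap κ₀ κ a)
    rw [← IsScalarTower.algebraMap_apply, ← IsScalarTower.algebraMap_apply]
  have hc : ∀ a : κ₀, actM h τ (algebraMap κ₀ M a) = algebraMap κ₀ M a := by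
    intro a
    apply (iM h).injective
    rw [actM_apply, hκ₀, hτ]
  have hR : ∀ r : R, actM h τ (algebraMap R M r) = algebraMap R M r := by
    intro r
    have hr : r ∈ IntermediateField.adjoin κ₀ {x} := by rw [hC.rat.gen]; trivial
    induction hr using IntermediateField.adjoin_induction with
    | mem y hy =>
      rw [Set.mem_singleton_iff] at hy
      subst hy
      apply (iM h).injective
      rw [actM_apply]
      have h1 : iM h (algebraMap R M y) = algebraMap F N xF := Subtype.ext hx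
      rw [h1, AlgEquiv.commutes]
    | algebraMap c =>
      rw [← IsScalarTower.algebraMap_apply, hc]
    | add a b _ _ ha hb => rw [map_add, map_add, ha, hb]
    | inv a _ ha => rw [map_inv₀, map_inv₀, ha]
    | mul a b _ _ ha hb => rw [map_mul, map_mul, ha, hb]
  have hfix : Fixes W₀ (actM h τ) := fixes_of_O W₀ (actM h τ) (RingEquiv.refl κ₀) (fun c => hc c) hst
  obtain ⟨π, hπ, hπ1⟩ := hKf W₀
  have hgeo : ∀ w ∈ IntermediateField.adjoin F (Set.range (algebraMap κ Ω)),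
      ∃ hw : w ∈ N, τ ⟨w, hw⟩ = ⟨w, hw⟩ := by
    intro w hw
    induction hw using IntermediateField.adjoin_induction with
    | mem y hy =>
      obtain ⟨a, rfl⟩ := hy
      exact ⟨h.cst a, hτ a⟩
    | algebraMap c => exact ⟨N.algebraMap_mem c, τ.commutes c⟩
    | add a b _ _ ha hb =>
      obtain ⟨ha, ha'⟩ := ha
      obtain ⟨hb, hb'⟩ := hb
      refine ⟨add_mem ha hb, ?_⟩
      have h5 : (⟨a + b, add_mem ha hb⟩ : N) = ⟨a, ha⟩ + ⟨b, hb⟩ := rfl
      rw [h5, map_add, ha', hb']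
    | inv a _ ha =>
      obtain ⟨ha, ha'⟩ := ha
      refine ⟨inv_mem ha, ?_⟩
      have h5 : (⟨a⁻¹, inv_mem ha⟩ : N) = (⟨a, ha⟩ : N)⁻¹ := rfl
      rw [h5, map_inv₀, ha']
    | mul a b _ _ ha hb =>
      obtain ⟨ha, ha'⟩ := ha
      obtain ⟨hb, hb'⟩ := hb
      refine ⟨mul_mem ha hb, ?_⟩
      have h5 : (⟨a * b, mul_mem ha hb⟩ : N) = ⟨a, ha⟩ * ⟨b, hb⟩ := rfl
      rw [h5, map_mul, ha', hb']
  have hπτ : actM h τ π = π := by
    apply (iM h).injective
    rw [actM_apply]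
    obtain ⟨hw, h1⟩ := hgeo _ (hKc π hπ)
    exact h1
  let γ : M ≃ₐ[R] M := AlgEquiv.ofRingEquiv (f := actM h τ) hR
  have h1 : γ = 1 := stab_triv a_stab hC.rat W₀ γ hfix hπ1 hπτ
  have h2 : ∀ y, actM h τ y = y := fun y => congrArg (fun g : M ≃ₐ[R] M => g y) h1
  -- the compositum
  have key : ∀ w ∈ comp κ M Ω, ∃ hw : w ∈ N, τ ⟨w, hw⟩ = ⟨w, hw⟩ := by
    intro w hw
    induction hw using Subfield.closure_induction with
    | mem y hy =>
      rcases hy with ⟨c, rfl⟩ | ⟨m, rfl⟩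
      · exact ⟨h.cst c, hτ c⟩
      · refine ⟨h.inM m, ?_⟩
        have h3 := actM_apply h τ m
        rw [h2] at h3
        exact h3.symm
    | one => exact ⟨one_mem _, map_one τ⟩
    | add a b _ _ ha hb =>
      obtain ⟨ha, ha'⟩ := ha
      obtain ⟨hb, hb'⟩ := hb
      refine ⟨add_mem ha hb, ?_⟩
      have h5 : (⟨a + b, add_mem ha hb⟩ : N) = ⟨a, ha⟩ + ⟨b, hb⟩ := rfl
      rw [h5, map_add, ha', hb']
    | neg a _ ha =>
      obtain ⟨ha, ha'⟩ := ha
      refine ⟨neg_mem ha, ?_⟩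
      have h5 : (⟨-a, neg_mem ha⟩ : N) = -(⟨a, ha⟩ : N) := rfl
      rw [h5, map_neg, ha']
    | inv a _ ha =>
      obtain ⟨ha, ha'⟩ := ha
      refine ⟨inv_mem ha, ?_⟩
      have h5 : (⟨a⁻¹, inv_mem ha⟩ : N) = (⟨a, ha⟩ : N)⁻¹ := rfl
      rw [h5, map_inv₀, ha']
    | mul a b _ _ ha hb =>
      obtain ⟨ha, ha'⟩ := ha
      obtain ⟨hb, hb'⟩ := hb
      refine ⟨mul_mem ha hb, ?_⟩
      have h5 : (⟨a * b, mul_mem ha hb⟩ : N) = ⟨a, ha⟩ * ⟨b, hb⟩ := rfl
      rw [h5, map_mul, ha', hb']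
  obtain ⟨hw, h3⟩ := key _ hz
  exact h3

end geo

end Pool.Agent.H889.RS
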