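import Pool.Agent.H889.RS.NonC

/-!
# The places belonging to a section: main theorem

(helper889.)
-/

set_option autoImplicit false
set_option linter.all false

open Polynomial FF

namespace Pool.Agent.H889.RS

open Pool.Agent.Y157.PS Pool.Agent.H889.PS
open Pool.Agent.Y903.PS (tt ratF_tt)
open Pool.Agent.Y31.PS (stab_triv lev_sup)
open Pool.Agent.Y748.PS (gal_const exists_orbit lev_of_galois)

section geo

variable {k₀ κ₀ K κ R M F Ω : Type} [Field k₀] [Field κ₀] [Field K] [Field κ] [Field R] [Field M]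
  [Field F] [Field Ω] [Algebra k₀ κ₀]
  [Algebra k₀ K] [Algebra K κ] [Algebra κ₀ κ] [Algebra k₀ κ] [IsScalarTower k₀ K κ]
  [IsScalarTower k₀ κ₀ κ] [Algebra κ₀ R] [Algebra R M] [Algebra κ₀ M] [IsScalarTower κ₀ R M]
  [Algebra K F] [Algebra F Ω] [Algebra K Ω] [IsScalarTower K F Ω] [Algebra κ Ω]
  [IsScalarTower K κ Ω] [Algebra M Ω] [Algebra κ₀ Ω] [IsScalarTower κ₀ κ Ω]
  [IsScalarTower κ₀ M Ω] {N : IntermediateField F Ω} {x : R} {xF : F}
  {S : (κ ≃ₐ[K] κ) →* (N ≃ₐ[F] N)}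
  {ℓ : ℕ} [hℓ : Fact ℓ.Prime] {B : Finset κ₀} {ε : κ₀ → ℕ} {ι : ℕ}
  {N₀ : IntermediateField R M} {t : K}

theorem comp_cst (c : κ) : algebraMap κ Ω c ∈ comp κ M Ω :=
  Subfield.subset_closure (Or.inl ⟨c, rfl⟩)

theorem comp_M (y : M) : algebraMap M Ω y ∈ comp κ M Ω :=
  Subfield.subset_closure (Or.inr ⟨y, rfl⟩)

/-- nonunits are preserved -/
theorem non_act {W : ValuationSubring Ω} {τ : N ≃ₐ[F] N}
    (hst : ∀ z : N, (z : Ω) ∈ comp κ M Ω → (((τ z : N) : Ω) ∈ W ↔ (z : Ω) ∈ W)) (z : N)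
    (hz : (z : Ω) ∈ comp κ M Ω) (hn : (z : Ω) ∈ W.nonunits) : ((τ z : N) : Ω) ∈ W.nonunits := by
  rw [nonunits_iff] at hn ⊢
  refine ⟨(hst z hz).2 hn.1, ?_⟩
  rcases hn.2 with h0 | h1
  · left
    have h2 : z = 0 := Subtype.ext h0
    rw [h2, map_zero]
    rfl
  · right
    have h2 : (((τ z : N) : Ω))⁻¹ = ((τ z⁻¹ : N) : Ω) := by
      rw [map_inv₀]
      rfl
    have h3 : ((z⁻¹ : N) : Ω) = (z : Ω)⁻¹ := rfl
    rw [h2, hst z⁻¹ (by rw [h3]; exact inv_mem hz), h3]
    exact h1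

theorem cst_unique {W : ValuationSubring Ω} (hWκ : ∀ c : κ, algebraMap κ Ω c ∈ W) {z : Ω} {c c' : κ}
    (h1 : z - algebraMap κ Ω c ∈ W.nonunits) (h2 : z - algebraMap κ Ω c' ∈ W.nonunits) :
    c = c' := by
  have h3 := non_add h1 (non_neg h2)
  have h4 : z - algebraMap κ Ω c + -(z - algebraMap κ Ω c') = algebraMap κ Ω (c' - c) := by
    rw [map_sub]; ring
  rw [h4] at h3
  by_contra h0
  have h5 : c' - c ≠ 0 := sub_ne_zero.2 (Ne.symm h0)
  rw [ValuationSubring.mem_nonunits_iff, Pool.Agent.Y809.PS.val_const hWκ (W := W) h5] at h3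
  exact lt_irrefl _ h3

/-- **no valuation ring which contains `M` is fixed** -/
theorem nonconst [Normal k₀ κ₀] [CharZero κ₀] [IsAlgClosed κ₀] [IsAlgClosed κ]
    [Algebra.IsAlgebraic K κ] (ht : RatF k₀ t) (hC : GCov ℓ κ₀ R M x B ε ι N₀) (h : Emb κ M N)
    (hS : Cmp h S) (hs : HSec κ₀ K κ R M x ((actM h).comp S))
    (hX : Transcendental κ (algebraMap M Ω (algebraMap R M x)))
    (E : IntermediateField (TT κ₀ κ t) κ) [FiniteDimensional (TT κ₀ κ t) E]
    (hE' : ∀ G ∈ E.fixingSubgroup, sT ht hC.rat hs G = 1)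
    (W : ValuationSubring Ω) (hWκ : ∀ c : κ, algebraMap κ Ω c ∈ W)
    (hWM : ∀ y : M, algebraMap M Ω y ∈ W) (hne : ∃ z ∈ comp κ M Ω, z ∉ W)
    (hst : ∀ σ (z : N), (z : Ω) ∈ comp κ M Ω → (((S σ z : N) : Ω) ∈ W ↔ (z : Ω) ∈ W)) :
    False := by
  haveI := hC.gal
  haveI : Normal R M := hC.gal.to_normal
  haveI : Algebra.IsAlgebraic k₀ κ₀ := inferInstance
  haveI : CharZero (TT κ₀ κ t) :=
    charZero_of_injective_algebraMap (algebraMap κ₀ (TT κ₀ κ t)).injective
  haveI : CharZero R := charZero_of_injective_algebraMap (algebraMap κ₀ R).injective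
  haveI := algT (κ₀ := κ₀) (κ := κ) ht
  haveI : IsAlgClosure (TT κ₀ κ t) κ := ⟨inferInstance, inferInstance⟩
  haveI : Normal (TT κ₀ κ t) κ := IsAlgClosure.normal (TT κ₀ κ t) κ
  haveI : IsGalois (TT κ₀ κ t) κ := ⟨⟩
  obtain ⟨j, hj⟩ := exists_j hC.rat hX W hWκ hWM hne
  have hjc : ∀ a : κ₀, j (algebraMap κ₀ M a) = algebraMap κ₀ κ a := by
    intro a
    refine cst_unique hWκ (hj _) ?_
    rw [← IsScalarTower.algebraMap_apply κ₀ M Ω, ← IsScalarTower.algebraMap_apply κ₀ κ Ω, sub_self]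
    exact non_zero
  have heq : ∀ σ y, j (((actM h).comp S) σ y) = σ (j y) := by
    intro σ y
    refine cst_unique hWκ (hj _) ?_
    have h1 : ((iM h y - iK h (j y) : N) : Ω) ∈ comp κ M Ω := sub_mem (comp_M y) (comp_cst _)
    have h2 := non_act (hst σ) (iM h y - iK h (j y)) h1 (hj y)
    rw [map_sub, hS, ← actM_apply] at h2
    exact h2
  have hfixT : ∀ c : κ, (∀ G : κ ≃ₐ[TT κ₀ κ t] κ, G c = c) → c ∈ TT κ₀ κ t := by
    intro c hc
    have h1 : c ∈ (⊥ : IntermediateField (TT κ₀ κ t) κ) := by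
      rw [← InfiniteGalois.fixedField_bot]
      exact fun g => hc g
    obtain ⟨y, hy⟩ := IntermediateField.mem_bot.1 h1
    rw [← hy]
    exact y.2
  have hjx : j (algebraMap R M x) ∈ TT κ₀ κ t := by
    refine hfixT _ fun G => ?_
    have h1 := heq (ofT ht G) (algebraMap R M x)
    rw [hs.fixx, ofT_apply] at h1
    exact h1.symm
  have hjE : ∀ y, j y ∈ E := by
    intro y
    have h1 : j y ∈ IntermediateField.fixedField E.fixingSubgroup := by
      rintro ⟨G, hG⟩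
      change G (j y) = j y
      have h2 := heq (ofT ht G) y
      have h3 : ((actM h).comp S) (ofT ht G) y = y := by
        have h4 := hE' G hG
        have h5 := congrArg (fun g : M ≃ₐ[R] M => g y) h4
        exact h5
      rw [h3, ofT_apply] at h2
      exact h2.symm
    rwa [InfiniteGalois.fixedField_fixingSubgroup] at h1
  haveI hfin := fin_of_j ht hC.rat j hjc hjx E hjE
  have htop : Lev ℓ (⊤ : IntermediateField R M) := by
    haveI : FiniteDimensional R (⊤ : IntermediateField R M) :=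
      Module.Finite.equiv (IntermediateField.topEquiv (F := R) (E := M)).symm.toLinearEquiv
    exact lev_of_galois hC.pow ⊤ inferInstance
      (IsGalois.of_algEquiv (IntermediateField.topEquiv (F := R) (E := M)).symm)
  exact lev_ne_top hC htop le_top rfl

/-- **the theorem on sections** -/
theorem geoS [Normal k₀ κ₀] [CharZero κ₀] [IsAlgClosed κ₀] [IsAlgClosed κ]
    [Algebra.IsAlgebraic K κ] [Normal K κ] [Normal F Ω] [Algebra.IsAlgebraic F N]
    (ht : RatF k₀ t) (hC : GCov ℓ κ₀ R M x B ε ι N₀) (hW : WtN ℓ k₀ κ₀ x N₀)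
    (h : Emb κ M N) (hS : Cmp h S) (hcont : Continuous S)
    (hx : algebraMap M Ω (algebraMap R M x) = algebraMap F Ω xF)
    (hxt : Transcendental κ (algebraMap F Ω xF))
    {Kf : Set M} (hKf : ∀ W : Place κ₀ M, ∃ π ∈ Kf, W.ord π = 1)
    (hKc : ∀ y ∈ Kf, algebraMap M Ω y ∈ IntermediateField.adjoin F (Set.range (algebraMap κ Ω)))
    (hFc : ∀ z : F, algebraMap F Ω z ∈ comp κ M Ω)
    (hT : Twist (F := F) (Ω := Ω) κ₀ κ (algebraMap K κ t) Kf) :
    (∀ (G : κ ≃ₐ[TT κ₀ κ t] κ) (y : M), S (ofT ht G) (iM h y) = iM h y) ∨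
    ∃ W : ValuationSubring N,
      (∀ c : κ, iK h c ∈ W) ∧
      (∃ y ∈ Kf, y ≠ 0 ∧ ∀ u : N, (u : Ω) ∈ IntermediateField.adjoin κ {algebraMap F Ω xF} →
        u ≠ 0 → ¬ IsU W (iM h y / u)) ∧
      (∀ z : N, (z : Ω) ∈ comp κ M Ω → z ∈ W → ∃ c : κ, z - iK h c ∈ W.nonunits) ∧
      (∀ z : F, algebraMap F N z ∈ W →
        ∃ c : K, algebraMap F N (z - algebraMap K F c) ∈ W.nonunits) ∧
      (∀ σ (z : N), (z : Ω) ∈ comp κ M Ω → (S σ z ∈ W ↔ z ∈ W)) ∧
      (∀ τ : N ≃ₐ[F] N, (∀ c, τ (iK h c) = iK h c) →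
        (∀ z : N, (z : Ω) ∈ comp κ M Ω → (τ z ∈ W ↔ z ∈ W)) →
          ∀ z : N, (z : Ω) ∈ comp κ M Ω → τ z = z) ∧
      (∀ W' : ValuationSubring N, (∀ c : κ, iK h c ∈ W') →
        (∀ σ (z : N), (z : Ω) ∈ comp κ M Ω → (S σ z ∈ W' ↔ z ∈ W')) →
          (∃ z : N, (z : Ω) ∈ comp κ M Ω ∧ z ∉ W') →
            ∀ z : N, (z : Ω) ∈ comp κ M Ω → (z ∈ W' ↔ z ∈ W)) := by
  classical
  haveI := hC.gal
  haveI : Normal R M := hC.gal.to_normal
  haveI : Algebra.IsAlgebraic k₀ κ₀ := inferInstance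
  have hX : Transcendental κ (algebraMap M Ω (algebraMap R M x)) := by rw [hx]; exact hxt
  have hs : HSec κ₀ K κ R M x ((actM h).comp S) := hsec h hS hcont hx
  have hH := hh_of_twist h hS ht hT
  rcases main ht hC hW hs hKf hH with htriv | ⟨W₀, hram, hfix, huniq, E, hE, hE'⟩
  · left
    intro G y
    have h1 := congrArg (fun g : M ≃ₐ[R] M => g y) (htriv G)
    have h2 : actM h (S (ofT ht G)) y = y := h1
    rw [← actM_apply, h2]
  right
  have hO : ∀ z ∈ W₀.O, ∃ a : κ₀, z - algebraMap κ₀ M a ∈ W₀.O.nonunits :=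
    fun z hz => place_res hC.rat W₀ z hz
  obtain ⟨V, hV⟩ := exists_W (Ω := Ω) ht hC.rat hx hxt W₀.O (fun a => W₀.reg_const a)
  have hmem : ∀ z : N, z ∈ V.comap (algebraMap N Ω) ↔ (z : Ω) ∈ V := fun z => Iff.rfl
  have hnon : ∀ z : N, z ∈ (V.comap (algebraMap N Ω)).nonunits ↔ (z : Ω) ∈ V.nonunits := by
    intro z
    rw [nonunits_iff, nonunits_iff, hmem, hmem]
    refine and_congr Iff.rfl (or_congr ⟨fun h0 => by rw [h0]; rfl, fun h0 => Subtype.ext h0⟩ Iff.rfl)
  have hstab : ∀ σ (z : N), (z : Ω) ∈ comp κ M Ω → (((S σ z : N) : Ω) ∈ V ↔ (z : Ω) ∈ V) := by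
    intro σ z hz
    exact ab_act h (S σ) (τ₀ := (σ : κ ≃+* κ)) (fun c => hS σ c) hV hO
      (fun y => O_of_fixes W₀ (((actM h).comp S) σ) (hfix σ) y) z hz
  refine ⟨V.comap (algebraMap N Ω), fun c => (hmem _).2 (hV.1 c), ?_, ?_, ?_, ?_, ?_, ?_⟩
  · -- ramified
    obtain ⟨y, hy, hy0, hyt⟩ := (isRam_iff hC Kf W₀ (hKf W₀)).1 hram
    refine ⟨y, hy, hy0, fun u hu hu0 hU => ?_⟩
    letI : Algebra R Ω := ((algebraMap M Ω).comp (algebraMap R M)).toAlgebra
    haveI : IsScalarTower R M Ω := IsScalarTower.of_algebraMap_eq fun _ => rfl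
    haveI : IsScalarTower κ₀ R Ω := IsScalarTower.of_algebraMap_eq fun a => by
      change _ = algebraMap M Ω (algebraMap R M (algebraMap κ₀ R a))
      rw [← IsScalarTower.algebraMap_apply κ₀ R M, ← IsScalarTower.algebraMap_apply κ₀ M Ω]
    have hmemR : ∀ r : R, r ∈ W₀.O.comap (algebraMap R M) ↔ algebraMap R M r ∈ W₀.O :=
      fun r => Iff.rfl
    have hu' : (u : Ω) ∈ comp κ R Ω := by
      refine adjoin_le_sub (T := comp κ R Ω) (fun c => comp_cst c) ?_ _ hu
      intro w hw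
      rw [Set.mem_singleton_iff] at hw
      rw [hw, ← hx]
      exact comp_M (κ := κ) (Ω := Ω) x
    obtain ⟨r, hr, hval⟩ := comp_val (κ₀ := κ₀) (κ := κ) (S := R) (E := Ω)
      (W₀.O.comap (algebraMap R M)) (fun z hz => by
        obtain ⟨a, ha⟩ := hO _ ((hmemR z).1 hz)
        refine ⟨a, ?_⟩
        rw [nonunits_iff] at ha ⊢
        have h1 : algebraMap R M (z - algebraMap κ₀ R a) = algebraMap R M z - algebraMap κ₀ M a := by
          rw [map_sub, ← IsScalarTower.algebraMap_apply κ₀ R M]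
        rw [hmemR, hmemR, map_inv₀, h1]
        refine ⟨ha.1, ?_⟩
        rcases ha.2 with h2 | h2
        · left
          exact (algebraMap R M).injective (by rw [h1, h2, map_zero])
        · right
          exact h2) hu' (fun h0 => hu0 (Subtype.ext h0))
    have h1 := hval V ⟨hV.1, fun r => by
      rw [hmemR, ← hV.2]
      rfl⟩
    -- the values of `y` and `r`
    have h2 : V.valuation (algebraMap M Ω y) = V.valuation (algebraMap M Ω (algebraMap R M r)) := by
      have h3 : IsU V ((iM h y / u : N) : Ω) := ⟨fun h0 => hU.1 (Subtype.ext h0), (hmem _).1 hU.2.1,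
        (hmem _).1 hU.2.2⟩
      have h4 := (Pool.Agent.Y948.PS.isU_iff V).1 h3
      have h5 : ((iM h y / u : N) : Ω) = algebraMap M Ω y / (u : Ω) := rfl
      have h6 : V.valuation (u : Ω) ≠ 0 := (Valuation.ne_zero_iff _).2
        (fun h0 => hu0 (Subtype.ext h0))
      rw [h5, map_div₀, div_eq_one_iff_eq h6] at h4
      rw [h4, h1]
      rfl
    have hr0 : algebraMap R M r ≠ 0 := (_root_.map_ne_zero _).2 hr
    have h3 : V.valuation (algebraMap M Ω (y / algebraMap R M r)) = 1 := by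
      rw [map_div₀, map_div₀, h2, div_self]
      exact (Valuation.ne_zero_iff _).2 ((_root_.map_ne_zero _).2 hr0)
    have h4 := (Pool.Agent.Y948.PS.isU_iff V).2 h3
    have h5 : y / algebraMap R M r ∈ W₀.O := (hV.2 _).1 h4.2.1
    have h6 : (y / algebraMap R M r)⁻¹ ∈ W₀.O := by
      rw [← hV.2, map_inv₀]
      exact h4.2.2
    have h7 : y / algebraMap R M r ≠ 0 := div_ne_zero hy0 hr0
    rw [Place.mem_O, W₀.reg_iff h7] at h5
    rw [Place.mem_O, W₀.reg_iff (inv_ne_zero h7), W₀.ord_inv] at h6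
    apply hyt r hr
    rw [W₀.ord_div hy0 hr0] at h5 h6
    omega
  · intro z hz hzV
    obtain ⟨c, hc⟩ := comp_res (κ := κ) W₀.O hO hV hz ((hmem z).1 hzV)
    exact ⟨c, (hnon _).2 hc⟩
  · intro z hz
    have hzc : ((algebraMap F N z : N) : Ω) ∈ comp κ M Ω := hFc z
    obtain ⟨c, hc⟩ := comp_res (κ := κ) W₀.O hO hV hzc ((hmem _).1 hz)
    have hfixc : ∀ σ : κ ≃ₐ[K] κ, σ c = c := by
      intro σ
      have h1 : ((algebraMap F N z - iK h c : N) : Ω) ∈ comp κ M Ω := sub_mem hzc (comp_cst _)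
      have h2 := non_act (hstab σ) (algebraMap F N z - iK h c) h1 hc
      rw [map_sub, hS, AlgEquiv.commutes] at h2
      exact cst_unique hV.1 h2 hc
    obtain ⟨c', hc'⟩ : ∃ c' : K, algebraMap K κ c' = c := by
      haveI : CharZero κ := charZero_of_injective_algebraMap (algebraMap κ₀ κ).injective
      haveI : CharZero K := (algebraMap K κ).charZero
      haveI : IsGalois K κ := ⟨⟩
      have h1 : c ∈ (⊥ : IntermediateField K κ) := by
        rw [← InfiniteGalois.fixedField_bot]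
        exact fun g => hfixc g
      exact IntermediateField.mem_bot.1 h1
    refine ⟨c', (hnon _).2 ?_⟩
    have h1 : ((algebraMap F N (z - algebraMap K F c') : N) : Ω) =
        algebraMap F Ω z - algebraMap κ Ω c := by
      change algebraMap F Ω (z - algebraMap K F c') = _
      rw [map_sub, ← IsScalarTower.algebraMap_apply K F Ω, IsScalarTower.algebraMap_apply K κ Ω, hc']
    rw [h1]
    exact hc
  · intro σ z hz
    rw [hmem, hmem, hstab σ z hz]
  · intro τ hτ hst z hz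
    refine agree hC h hx hKf hKc W₀ τ hτ (fun y => ?_) z hz
    rw [← hV.2, ← hV.2, ← coe_iM h, ← coe_iM h, actM_apply, ← hmem, ← hmem]
    exact hst _ (comp_M y)
  · intro W' hW'κ hW'st hW'ne z hz
    obtain ⟨V', hV'⟩ := a_extv N Ω W'
    have hmem' : ∀ z : N, (z : Ω) ∈ V' ↔ z ∈ W' := by
      intro z
      rw [← hV']
      rfl
    by_cases hall : ∀ y : M, algebraMap M Ω y ∈ V'
    · exfalso
      haveI := hE
      refine nonconst ht hC h hS hs hX E hE' V' (fun c => (hmem' (iK h c)).2 (hW'κ c)) hall ?_ ?_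
      · obtain ⟨w, hw, hw'⟩ := hW'ne
        exact ⟨w, hw, fun h1 => hw' ((hmem' w).1 h1)⟩
      · intro σ w hw
        rw [hmem', hmem', hW'st σ w hw]
    · push Not at hall
      obtain ⟨y₀, hy₀⟩ := hall
      have hOmem : ∀ y : M, y ∈ V'.comap (algebraMap M Ω) ↔ algebraMap M Ω y ∈ V' := fun y => Iff.rfl
      obtain ⟨W₁, hW₁, -⟩ := hC.loc (V'.comap (algebraMap M Ω)) (fun c => by
        rw [hOmem, ← IsScalarTower.algebraMap_apply κ₀ M Ω, IsScalarTower.algebraMap_apply κ₀ κ Ω]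
        exact (hmem' (iK h _)).2 (hW'κ _)) (fun htop => by
        apply hy₀
        rw [← hOmem, htop]
        trivial)
      have hW₁mem : ∀ y : M, y ∈ W₁.O ↔ iM h y ∈ W' := by
        intro y
        rw [hW₁, hOmem, ← hmem']
        rfl
      have h1 : W₁ = W₀ := by
        refine huniq W₁ fun G => ?_
        refine fixes_of_O W₁ ((sT ht hC.rat hs G : M ≃ₐ[R] M) : M ≃+* M) (RingEquiv.refl κ₀)
          (fun c => gal_const _ c) fun y => ?_
        rw [hW₁mem, hW₁mem]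
        change iM h (actM h (S (ofT ht G)) y) ∈ W' ↔ _
        rw [actM_apply]
        exact hW'st _ _ (comp_M y)
      have hV'A : Ab κ W₀.O V' := by
        refine ⟨fun c => (hmem' (iK h c)).2 (hW'κ c), fun y => ?_⟩
        rw [← h1, hW₁mem, ← hmem']
        rfl
      rw [hmem, ← hmem']
      exact comp_unique (κ := κ) W₀.O hO hV'A hV hz

end geo

end Pool.Agent.H889.RS
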