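import Pool.Agent.H889.RS.Wt
import Pool.Agent.H889.RG.Kum

/-!
# The extensions of degree a power of `ℓ` of `κ(x)`

(helper889.)  `κ` is an algebraically closed field of characteristic zero, `R = κ(x)`, and `Ω` is an
algebraic closure of `R`.
-/

set_option autoImplicit false
set_option linter.all false

open Polynomial FF

namespace Pool.Agent.H889.RS

open Pool.Agent.Y157.PS Pool.Agent.H889.PS Pool.Agent.H889.SY
open Pool.Agent.Y903.PS (tt ratF_tt)

section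

variable {ℓ : ℕ} [hℓ : Fact ℓ.Prime] {κ R Ω : Type} [Field κ] [IsAlgClosed κ] [CharZero κ]
  [Field R] [Field Ω] [Algebra κ R] [Algebra R Ω] [Algebra κ Ω] [IsScalarTower κ R Ω] {x : R}

theorem lev_top {N : IntermediateField R Ω} (hN : Lev ℓ N) : Lev ℓ (⊤ : IntermediateField R N) := by
  haveI := hN.fin
  haveI := hN.gal
  refine ⟨inferInstance, ?_, ?_⟩
  · exact IsGalois.of_algEquiv (IntermediateField.topEquiv (F := R) (E := N)).symm
  · obtain ⟨m, hm⟩ := hN.card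
    exact ⟨m, by rw [← hm]; exact IntermediateField.finrank_top'⟩

/-- **the action of a semilinear automorphism on the stabiliser of a place** -/
theorem rel (hx : RatF κ x) {N : IntermediateField R Ω} (hN : Lev ℓ N) {w : Place κ N}
    {δ δ' : N ≃ₐ[R] N} (hδ : Fixes w δ) {τ : N ≃+* N} {τ₀ : κ ≃+* κ}
    (hτc : ∀ c, τ (algebraMap κ N c) = algebraMap κ N (τ₀ c)) (hτ : Fixes w τ)
    (hδ' : ∀ z, δ' (τ z) = τ (δ z)) {q : ℕ} (hq : ∀ (m : ℕ) (c : κ), c ^ (ℓ ^ m) = 1 → τ₀ c = c ^ q)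
    (hunif : ∃ π : N, w.ord π = 1) : δ' = δ ^ q := by
  haveI := hN.fin
  haveI := hN.gal
  haveI : Algebra.IsAlgebraic R N := inferInstance
  haveI : Normal R N := hN.gal.to_normal
  obtain ⟨m, hm⟩ := hN.card
  obtain ⟨π, hπ⟩ := hunif
  have hπ0 : π ≠ 0 := ne_of_ord hπ
  haveI : Finite (N ≃ₐ[R] N) := inferInstance
  have hcard : Nat.card (N ≃ₐ[R] N) = ℓ ^ m := by rw [IsGalois.card_aut_eq_finrank, hm]
  have hord : ∀ g : N ≃ₐ[R] N, g ^ (ℓ ^ m) = 1 := fun g => by rw [← hcard]; exact pow_card_eq_one'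
  have hfix' : Fixes w δ' := by
    intro z
    obtain ⟨y, rfl⟩ := τ.surjective z
    rw [hδ', hτ, hδ, hτ]
  obtain ⟨c, hc0, hc⟩ := exists_chi hx hδ hπ0
  obtain ⟨c', hc'0, hc'⟩ := exists_chi hx hfix' hπ0
  have h1 : δ π / π - algebraMap κ N (τ₀.symm c') ∈ w.O.nonunits := by
    refine chi_semi hx hfix' hτc hτ (fun z => (hδ' z).symm) hπ0 ?_
    rw [RingEquiv.apply_symm_apply]
    exact hc'
  have h2 : c = τ₀.symm c' := cong_unique hc h1
  have h3 : c' = τ₀ c := by rw [h2, RingEquiv.apply_symm_apply]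
  have h4 : c ^ (ℓ ^ m) = 1 := chi_tors hx hδ hπ0 hc (hord δ)
  have h5 : c' = c ^ q := by rw [h3, hq m c h4]
  -- the quotient
  have hpos : 0 < ℓ ^ m := pow_pos hℓ.out.pos m
  have hinv : (δ ^ (ℓ ^ m - 1)) * δ = 1 := by
    rw [← pow_succ, Nat.sub_add_cancel hpos, hord]
  have h6 : δ' * (δ ^ (ℓ ^ m - 1)) ^ q = 1 := by
    have hfix1 : Fixes w ((δ ^ (ℓ ^ m - 1)) : N ≃ₐ[R] N) := Fixes.pow hδ _
    have hfix2 : Fixes w (((δ ^ (ℓ ^ m - 1)) ^ q : N ≃ₐ[R] N)) := Fixes.pow hfix1 _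
    have h7 := chi_pow hx hfix1 hπ0 (chi_pow hx hδ hπ0 hc (ℓ ^ m - 1)) q
    have h8 := chi_mul hx hfix' hfix2 hπ0 hc' h7
    have h9 : c' * (c ^ (ℓ ^ m - 1)) ^ q = 1 := by
      rw [h5, ← mul_pow, ← pow_succ', Nat.sub_add_cancel hpos, h4, one_pow]
    rw [h9] at h8
    refine chi_inj hx (lev_top hN) (γ := δ' * (δ ^ (ℓ ^ m - 1)) ^ q) ?_ (ρ := π) trivial hπ h8
    intro z
    rw [AlgEquiv.mul_apply, hfix', hfix2]
  have h7 : (δ ^ (ℓ ^ m - 1)) ^ q * δ ^ q = 1 := by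
    rw [← (Commute.pow_self δ (ℓ ^ m - 1)).mul_pow, hinv, one_pow]
  calc δ' = δ' * ((δ ^ (ℓ ^ m - 1)) ^ q * δ ^ q) := by rw [h7, mul_one]
    _ = (δ' * (δ ^ (ℓ ^ m - 1)) ^ q) * δ ^ q := by rw [mul_assoc]
    _ = δ ^ q := by rw [h6, one_mul]

/-- two points -/
theorem other_point (hx : RatF κ x) (c : Option κ) : ∃ c' : Option κ, ∀ (N : Type) [Field N]
    [Algebra κ N] [Algebra R N] [IsScalarTower κ R N] (w : Place κ N),
      0 < w.ord (algebraMap R N (tt x c)) → ¬ 0 < w.ord (algebraMap R N (tt x c')) := by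
  have hsome : ∀ (N : Type) [Field N] [Algebra κ N] [Algebra R N] [IsScalarTower κ R N]
      (w : Place κ N) (b b' : κ), b ≠ b' → 0 < w.ord (algebraMap R N (tt x (some b))) →
      ¬ 0 < w.ord (algebraMap R N (tt x (some b'))) := by
    intro N _ _ _ _ w b b' hb h h'
    change 0 < w.ord (algebraMap R N (x - algebraMap κ R b)) at h
    change 0 < w.ord (algebraMap R N (x - algebraMap κ R b')) at h'
    rw [map_sub, ← IsScalarTower.algebraMap_apply] at h h'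
    have := ord_sub_const h (b := b') hb
    omega
  rcases c with _ | b
  · refine ⟨some 0, fun N _ _ _ _ w h h' => ?_⟩
    change 0 < w.ord (algebraMap R N (x⁻¹)) at h
    change 0 < w.ord (algebraMap R N (x - algebraMap κ R 0)) at h'
    rw [map_zero, sub_zero] at h'
    rw [map_inv₀, w.ord_inv] at h
    omega
  · refine ⟨some (b + 1), fun N _ _ _ _ w => hsome N w b (b + 1) ?_⟩
    intro h
    exact one_ne_zero (left_eq_add.1 h)

/-- if the stabilisers are trivial, then the extension is unramified -/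
theorem unr_of_stab (hx : RatF κ x) {N : IntermediateField R Ω} (hN : Lev ℓ N) (c : Option κ)
    (hst : ∀ w : Place κ N, 0 < w.ord (algebraMap R N (tt x c)) → ∀ g : N ≃ₐ[R] N, Fixes w g → g = 1)
    (w : Place κ N) (hw : 0 < w.ord (algebraMap R N (tt x c))) :
    w.ord (algebraMap R N (tt x c)) = 1 := by
  haveI := hN.fin
  haveI := hN.gal
  obtain ⟨-, s, hs⟩ := exists_exp (N := N) hx hN.card c
  have h1 := hs w hw
  rcases Nat.eq_zero_or_pos s with h0 | h0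
  · rw [h1, h0, pow_zero]
  exfalso
  obtain ⟨c', hc'⟩ := other_point (κ := κ) hx c
  obtain ⟨⟨w', hw'⟩, -⟩ := exists_exp (N := N) hx hN.card c'
  obtain ⟨g, hg, hgw⟩ := stab_level hx N hN.card w (by
    intro z hz
    obtain ⟨n, hn⟩ := ord_ratF (M := N) (ratF_tt hx c) 0 z hz
    rw [map_zero, sub_zero] at hn
    rw [hn w hw, h1]
    exact Dvd.dvd.mul_left (dvd_pow_self _ h0.ne') _) ⟨w', fun g hgw => by
      refine hc' N w hw ?_
      have h2 : w'.ord (algebraMap R N (tt x c')) = w.ord (g (algebraMap R N (tt x c'))) := by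
        rw [← hgw]
        rfl
      rw [g.commutes] at h2
      rw [← h2]
      exact hw'⟩
  exact hg (hst w hw g hgw)

/-- lifting elements of the stabiliser -/
theorem lift_stab [Normal R Ω] (N : IntermediateField R Ω) [Normal R N] (V : ValuationSubring Ω)
    (g : N ≃ₐ[R] N) (hg : ∀ z : N, ((g z : N) : Ω) ∈ V ↔ (z : Ω) ∈ V) :
    ∃ G : Ω ≃ₐ[R] Ω, (∀ z : N, G z = ((g z : N) : Ω)) ∧ ∀ z, G z ∈ V ↔ z ∈ V := by
  haveI : Normal N Ω := Normal.tower_top_of_normal R N Ω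
  obtain ⟨G₁, hG₁⟩ : ∃ G₁ : Ω ≃ₐ[R] Ω, ∀ z : N, G₁ z = ((g z : N) : Ω) :=
    ⟨g.liftNormal Ω, fun z => AlgEquiv.liftNormal_commutes g Ω z⟩
  obtain ⟨γ, hγ⟩ := a_conj N Ω V (V.comap (G₁ : Ω →+* Ω)) (by
    ext z
    rw [ValuationSubring.mem_comap, ValuationSubring.mem_comap, ValuationSubring.mem_comap]
    change (z : Ω) ∈ V ↔ G₁ (z : Ω) ∈ V
    rw [hG₁, hg])
  have hγ' : ∀ z, G₁ z ∈ V ↔ γ z ∈ V := fun z => hγ z
  refine ⟨(γ.restrictScalars R).symm.trans G₁, fun z => ?_, fun z => ?_⟩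
  · change G₁ (γ.symm (z : Ω)) = _
    have h1 : γ.symm (z : Ω) = (z : Ω) := γ.symm.commutes z
    rw [h1, hG₁]
  · change G₁ (γ.symm z) ∈ V ↔ _
    rw [hγ', AlgEquiv.apply_symm_apply]

end

end Pool.Agent.H889.RS
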