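import Pool.Agent.H889.RS.Main
import Pool.Graph.R_seed8.V11235.SL.Res

/-!
# The compositum of two fields and valuations

(helper889.)  `κ₀` is a field, `S` and `κ` are extensions of `κ₀`, contained in the field `E`, and `O` is
a valuation ring of `S` with residue field `κ₀`.
-/

set_option autoImplicit false
set_option linter.all false

open Polynomial

namespace Pool.Agent.H889.RS

open Pool.Agent.Y157.PS

section lead

variable {κ₀ κ S E : Type} [Field κ₀] [Field κ] [Field S] [Field E] [Algebra κ₀ κ] [Algebra κ₀ S]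
  [Algebra κ E] [Algebra S E] [Algebra κ₀ E] [IsScalarTower κ₀ κ E] [IsScalarTower κ₀ S E]

/-- the valuation rings of `E` over `κ` and above `O` -/
def Ab (κ : Type) {S E : Type} [Field κ] [Field S] [Field E] [Algebra κ E] [Algebra S E]
    (O : ValuationSubring S) (W : ValuationSubring E) : Prop :=
  (∀ a : κ, algebraMap κ E a ∈ W) ∧ ∀ y : S, algebraMap S E y ∈ W ↔ y ∈ O

theorem Ab.non {O : ValuationSubring S} {W : ValuationSubring E} (h : Ab κ O W) {y : S}
    (hy : y ∈ O.nonunits) : algebraMap S E y ∈ W.nonunits := by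
  rw [nonunits_iff] at hy ⊢
  refine ⟨(h.2 y).2 hy.1, ?_⟩
  rcases hy.2 with h0 | h1
  · left
    rw [h0, map_zero]
  · right
    intro h2
    rw [← map_inv₀] at h2
    exact h1 ((h.2 _).1 h2)

theorem non_mul {W : ValuationSubring E} {a b : E} (ha : a ∈ W) (hb : b ∈ W.nonunits) :
    a * b ∈ W.nonunits := by
  rw [ValuationSubring.mem_nonunits_iff] at hb ⊢
  rw [map_mul]
  exact (mul_le_of_le_one_left zero_le ((ValuationSubring.valuation_le_one_iff _ _).2 ha)).trans_lt hb

theorem non_add {W : ValuationSubring E} {a b : E} (ha : a ∈ W.nonunits) (hb : b ∈ W.nonunits) :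
    a + b ∈ W.nonunits := by
  rw [ValuationSubring.mem_nonunits_iff] at ha hb ⊢
  exact (Valuation.map_add _ _ _).trans_lt (max_lt ha hb)

theorem non_neg {W : ValuationSubring E} {a : E} (ha : a ∈ W.nonunits) : -a ∈ W.nonunits := by
  rw [ValuationSubring.mem_nonunits_iff] at ha ⊢
  rwa [Valuation.map_neg]

theorem non_zero {W : ValuationSubring E} : (0 : E) ∈ W.nonunits := by
  rw [ValuationSubring.mem_nonunits_iff, map_zero]
  exact zero_lt_one

theorem non_sum {W : ValuationSubring E} {ι : Type} (s : Finset ι) (f : ι → E)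
    (h : ∀ i ∈ s, f i ∈ W.nonunits) : ∑ i ∈ s, f i ∈ W.nonunits := by
  classical
  induction s using Finset.induction_on with
  | empty => rw [Finset.sum_empty]; exact non_zero
  | insert a s ha ih =>
    rw [Finset.sum_insert ha]
    exact non_add (h a (Finset.mem_insert_self _ _)) (ih fun i hi => h i (Finset.mem_insert_of_mem hi))

/-- a nonzero element of `E` has a leading term -/
def LT (κ₀ κ : Type) {S E : Type} [Field κ] [Field S] [Field E] [Algebra κ E] [Algebra S E]
    (O : ValuationSubring S) (z : E) : Prop :=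
  ∃ m : S, m ≠ 0 ∧ ∃ c : κ, c ≠ 0 ∧ ∀ W : ValuationSubring E, Ab κ O W →
    z / algebraMap S E m - algebraMap κ E c ∈ W.nonunits

/-- **leading terms of sums** -/
theorem lead_sum (O : ValuationSubring S)
    (hO : ∀ z ∈ O, ∃ a : κ₀, z - algebraMap κ₀ S a ∈ O.nonunits) (n : ℕ) :
    ∀ (ι : Type) (s : Finset ι) (c : ι → κ) (m : ι → S), s.card = n →
      ∑ i ∈ s, algebraMap κ E (c i) * algebraMap S E (m i) = 0 ∨
        LT κ₀ κ O (∑ i ∈ s, algebraMap κ E (c i) * algebraMap S E (m i)) := by
  classical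
  induction n with
  | zero =>
    intro ι s c m hs
    rw [Finset.card_eq_zero] at hs
    left
    rw [hs, Finset.sum_empty]
  | succ n ih =>
    intro ι s c m hs
    by_cases hm : ∃ i ∈ s, m i = 0
    · obtain ⟨i, hi, hmi⟩ := hm
      have h1 : ∑ i ∈ s, algebraMap κ E (c i) * algebraMap S E (m i) =
          ∑ i ∈ s.erase i, algebraMap κ E (c i) * algebraMap S E (m i) := by
        rw [← Finset.add_sum_erase s _ hi, hmi, map_zero, mul_zero, zero_add]
      rw [h1]
      exact ih ι (s.erase i) c m (by rw [Finset.card_erase_of_mem hi, hs]; rfl)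
    · push Not at hm
      obtain ⟨i₀, hi₀, hmax⟩ := Finset.exists_max_image s (fun i => O.valuation (m i))
        (Finset.card_pos.1 (by omega))
      have hm0 := hm i₀ hi₀
      have hq : ∀ j ∈ s, m j / m i₀ ∈ O := by
        intro j hj
        rw [← ValuationSubring.valuation_le_one_iff, map_div₀]
        exact div_le_one_of_le₀ (hmax j hj) zero_le
      have hq' : ∀ j, ∃ a : κ₀, j ∈ s → m j / m i₀ - algebraMap κ₀ S a ∈ O.nonunits := by
        intro j
        by_cases hj : j ∈ s
        · obtain ⟨a, ha⟩ := hO _ (hq j hj)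
          exact ⟨a, fun _ => ha⟩
        · exact ⟨0, fun h => absurd h hj⟩
      choose a ha using hq'
      have hme : algebraMap S E (m i₀) ≠ 0 := (_root_.map_ne_zero _).2 hm0
      obtain ⟨C, hC⟩ : ∃ C : κ, C = c i₀ + ∑ j ∈ s.erase i₀, c j * algebraMap κ₀ κ (a j) := ⟨_, rfl⟩
      have h1 : (∑ i ∈ s, algebraMap κ E (c i) * algebraMap S E (m i)) / algebraMap S E (m i₀) =
          algebraMap κ E C + ∑ j ∈ s.erase i₀, algebraMap κ E (c j) *
            algebraMap S E (m j / m i₀ - algebraMap κ₀ S (a j)) := by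
        rw [← Finset.add_sum_erase s _ hi₀, add_div, mul_div_assoc, div_self hme, mul_one, hC,
          map_add, add_assoc, Finset.sum_div, map_sum, ← Finset.sum_add_distrib]
        congr 1
        refine Finset.sum_congr rfl fun j hj => ?_
        rw [map_sub, map_div₀, map_mul, ← IsScalarTower.algebraMap_apply,
          ← IsScalarTower.algebraMap_apply]
        ring
      by_cases hC0 : C = 0
      · rw [hC0, map_zero, zero_add] at h1
        rcases ih ι (s.erase i₀) c (fun j => m j / m i₀ - algebraMap κ₀ S (a j))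
          (by rw [Finset.card_erase_of_mem hi₀, hs]; rfl) with h2 | ⟨m', hm', c', hc', h2⟩
        · left
          rw [h2] at h1
          exact (div_eq_zero_iff.1 h1).resolve_right hme
        · right
          refine ⟨m i₀ * m', mul_ne_zero hm0 hm', c', hc', fun W hW => ?_⟩
          rw [map_mul, ← div_div, h1]
          exact h2 W hW
      · right
        refine ⟨m i₀, hm0, C, hC0, fun W hW => ?_⟩
        rw [h1, add_sub_cancel_left]
        refine non_sum _ _ fun j hj => ?_
        exact non_mul (hW.1 _) (hW.non (ha j (Finset.mem_of_mem_erase hj)))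

/-- the compositum of `κ` and `S` -/
def comp (κ S E : Type) [Field κ] [Field S] [Field E] [Algebra κ E] [Algebra S E] : Subfield E :=
  Subfield.closure (Set.range (algebraMap κ E) ∪ Set.range (algebraMap S E))

theorem exists_sum {z : E} (hz : z ∈ Subring.closure
    (Set.range (algebraMap κ E) ∪ Set.range (algebraMap S E))) :
    ∃ (n : ℕ) (c : Fin n → κ) (m : Fin n → S), z = ∑ i, algebraMap κ E (c i) * algebraMap S E (m i) := by
  induction hz using Subring.closure_induction with
  | mem y hy =>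
    rcases hy with ⟨c, rfl⟩ | ⟨m, rfl⟩
    · exact ⟨1, fun _ => c, fun _ => 1, by simp⟩
    · exact ⟨1, fun _ => 1, fun _ => m, by simp⟩
  | zero => exact ⟨0, fun _ => 0, fun _ => 0, by simp⟩
  | one => exact ⟨1, fun _ => 1, fun _ => 1, by simp⟩
  | neg y _ hy =>
    obtain ⟨n, c, m, rfl⟩ := hy
    exact ⟨n, fun i => -c i, m, by simp [Finset.sum_neg_distrib]⟩
  | add y y' _ _ hy hy' =>
    obtain ⟨n, c, m, rfl⟩ := hy
    obtain ⟨n', c', m', rfl⟩ := hy'
    exact ⟨n + n', Fin.append c c', Fin.append m m', by rw [Fin.sum_univ_add]; simp⟩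
  | mul y y' _ _ hy hy' =>
    obtain ⟨n, c, m, rfl⟩ := hy
    obtain ⟨n', c', m', rfl⟩ := hy'
    refine ⟨n * n', fun i => c (finProdFinEquiv.symm i).1 * c' (finProdFinEquiv.symm i).2,
      fun i => m (finProdFinEquiv.symm i).1 * m' (finProdFinEquiv.symm i).2, ?_⟩
    rw [Finset.sum_mul_sum, ← Finset.sum_product', ← Finset.univ_product_univ.symm]
    rw [← finProdFinEquiv.sum_comp]
    refine Finset.sum_congr rfl fun p _ => ?_
    beta_reduce
    rw [Equiv.symm_apply_apply, map_mul, map_mul]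
    ring

/-- **leading terms in the compositum** -/
theorem lead (O : ValuationSubring S)
    (hO : ∀ z ∈ O, ∃ a : κ₀, z - algebraMap κ₀ S a ∈ O.nonunits) {z : E} (hz : z ∈ comp κ S E)
    (hz0 : z ≠ 0) : LT κ₀ κ O z := by
  obtain ⟨a, ha, b, hb, rfl⟩ := Subfield.mem_closure_iff.1 hz
  have hb0 : b ≠ 0 := by
    rintro rfl
    rw [div_zero] at hz0
    exact hz0 rfl
  have ha0 : a ≠ 0 := by
    rintro rfl
    rw [zero_div] at hz0
    exact hz0 rfl
  obtain ⟨n, c, m, hs⟩ := exists_sum ha
  obtain ⟨n', c', m', hs'⟩ := exists_sum hb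
  have h1 := lead_sum (κ := κ) (E := E) O hO n _ Finset.univ c m (by simp)
  have h2 := lead_sum (κ := κ) (E := E) O hO n' _ Finset.univ c' m' (by simp)
  rw [← hs] at h1
  rw [← hs'] at h2
  obtain ⟨m₁, hm₁, c₁, hc₁, h3⟩ := h1.resolve_left ha0
  obtain ⟨m₂, hm₂, c₂, hc₂, h4⟩ := h2.resolve_left hb0
  refine ⟨m₁ / m₂, div_ne_zero hm₁ hm₂, c₁ / c₂, div_ne_zero hc₁ hc₂, fun W hW => ?_⟩
  have h5 := h3 W hW
  have h6 := h4 W hW
  obtain ⟨u, hu⟩ : ∃ u, u = a / algebraMap S E m₁ := ⟨_, rfl⟩
  obtain ⟨v, hv⟩ : ∃ v, v = b / algebraMap S E m₂ := ⟨_, rfl⟩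
  rw [← hu] at h5
  rw [← hv] at h6
  have hm₁' : algebraMap S E m₁ ≠ 0 := (_root_.map_ne_zero _).2 hm₁
  have hm₂' : algebraMap S E m₂ ≠ 0 := (_root_.map_ne_zero _).2 hm₂
  have hc₂' : algebraMap κ E c₂ ≠ 0 := (_root_.map_ne_zero _).2 hc₂
  have hv0 : v ≠ 0 := by rw [hv]; exact div_ne_zero hb0 hm₂'
  have hvc : W.valuation (algebraMap κ E c₂) = 1 := by
    have h7 := (ValuationSubring.valuation_le_one_iff W _).2 (hW.1 c₂)
    have h8 := (ValuationSubring.valuation_le_one_iff W _).2 (hW.1 c₂⁻¹)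
    rw [map_inv₀, map_inv₀] at h8
    have h9 : W.valuation (algebraMap κ E c₂) ≠ 0 := (Valuation.ne_zero_iff _).2 hc₂'
    exact le_antisymm h7 ((inv_le_one₀ (zero_lt_iff.2 h9)).1 h8)
  have hvv : W.valuation v = 1 := by
    have h7 : v = algebraMap κ E c₂ + (v - algebraMap κ E c₂) := by ring
    rw [h7, Valuation.map_add_eq_of_lt_left, hvc]
    rw [hvc]
    exact (ValuationSubring.mem_nonunits_iff W).1 h6
  have h7 : a / b / algebraMap S E (m₁ / m₂) - algebraMap κ E (c₁ / c₂) =
      (algebraMap κ E c₂ * (u - algebraMap κ E c₁) - algebraMap κ E c₁ * (v - algebraMap κ E c₂)) /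
        (algebraMap κ E c₂ * v) := by
    have h8 : a / b / algebraMap S E (m₁ / m₂) = u / v := by
      rw [hu, hv, map_div₀]
      field_simp
    rw [h8, map_div₀]
    field_simp
    ring
  rw [h7, ValuationSubring.mem_nonunits_iff, map_div₀, map_mul, hvc, hvv, mul_one, div_one,
    ← ValuationSubring.mem_nonunits_iff]
  have h8 := non_mul (hW.1 c₂) h5
  have h9 := non_neg (non_mul (hW.1 c₁) h6)
  have h10 := non_add h8 h9
  rwa [← sub_eq_add_neg] at h10

theorem LT.val {O : ValuationSubring S} {W : ValuationSubring E} (hW : Ab κ O W) {z : E} {m : S}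
    (hm : m ≠ 0) {c : κ} (hc : c ≠ 0)
    (h : z / algebraMap S E m - algebraMap κ E c ∈ W.nonunits) :
    W.valuation z = W.valuation (algebraMap S E m) := by
  have hm' : algebraMap S E m ≠ 0 := (_root_.map_ne_zero _).2 hm
  have hc' : algebraMap κ E c ≠ 0 := (_root_.map_ne_zero _).2 hc
  have hvc : W.valuation (algebraMap κ E c) = 1 := by
    have h7 := (ValuationSubring.valuation_le_one_iff W _).2 (hW.1 c)
    have h8 := (ValuationSubring.valuation_le_one_iff W _).2 (hW.1 c⁻¹)
    rw [map_inv₀, map_inv₀] at h8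
    have h9 : W.valuation (algebraMap κ E c) ≠ 0 := (Valuation.ne_zero_iff _).2 hc'
    exact le_antisymm h7 ((inv_le_one₀ (zero_lt_iff.2 h9)).1 h8)
  have h1 : W.valuation (z / algebraMap S E m) = 1 := by
    have h7 : z / algebraMap S E m = algebraMap κ E c +
      (z / algebraMap S E m - algebraMap κ E c) := by ring
    rw [h7, Valuation.map_add_eq_of_lt_left, hvc]
    rw [hvc]
    exact (ValuationSubring.mem_nonunits_iff W).1 h
  rw [map_div₀] at h1
  exact (div_eq_one_iff_eq ((Valuation.ne_zero_iff _).2 hm')).1 h1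

/-- **values of the elements of the compositum** -/
theorem comp_val (O : ValuationSubring S)
    (hO : ∀ z ∈ O, ∃ a : κ₀, z - algebraMap κ₀ S a ∈ O.nonunits) {z : E} (hz : z ∈ comp κ S E)
    (hz0 : z ≠ 0) : ∃ m : S, m ≠ 0 ∧ ∀ W : ValuationSubring E, Ab κ O W →
      W.valuation z = W.valuation (algebraMap S E m) := by
  obtain ⟨m, hm, c, hc, h⟩ := lead (κ := κ) O hO hz hz0
  exact ⟨m, hm, fun W hW => LT.val hW hm hc (h W hW)⟩

/-- **there is at most one prolongation to the compositum** -/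
theorem comp_unique (O : ValuationSubring S)
    (hO : ∀ z ∈ O, ∃ a : κ₀, z - algebraMap κ₀ S a ∈ O.nonunits) {W W' : ValuationSubring E}
    (hW : Ab κ O W) (hW' : Ab κ O W') {z : E} (hz : z ∈ comp κ S E) : z ∈ W ↔ z ∈ W' := by
  by_cases hz0 : z = 0
  · rw [hz0]
    exact ⟨fun _ => zero_mem _, fun _ => zero_mem _⟩
  obtain ⟨m, hm, h⟩ := comp_val (κ := κ) O hO hz hz0
  rw [← ValuationSubring.valuation_le_one_iff, ← ValuationSubring.valuation_le_one_iff, h W hW,
    h W' hW', ValuationSubring.valuation_le_one_iff, ValuationSubring.valuation_le_one_iff, hW.2,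
    hW'.2]

/-- **residues** -/
theorem comp_res (O : ValuationSubring S)
    (hO : ∀ z ∈ O, ∃ a : κ₀, z - algebraMap κ₀ S a ∈ O.nonunits) {W : ValuationSubring E}
    (hW : Ab κ O W) {z : E} (hz : z ∈ comp κ S E) (hzW : z ∈ W) :
    ∃ c : κ, z - algebraMap κ E c ∈ W.nonunits := by
  by_cases hz0 : z = 0
  · exact ⟨0, by rw [hz0, map_zero, sub_zero]; exact non_zero⟩
  obtain ⟨m, hm, c, hc, h⟩ := lead (κ := κ) O hO hz hz0
  have h1 := LT.val hW hm hc (h W hW)
  have h2 : m ∈ O := by
    rw [← hW.2, ← ValuationSubring.valuation_le_one_iff, ← h1,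
      ValuationSubring.valuation_le_one_iff]
    exact hzW
  obtain ⟨a, ha⟩ := hO m h2
  have hm' : algebraMap S E m ≠ 0 := (_root_.map_ne_zero _).2 hm
  refine ⟨algebraMap κ₀ κ a * c, ?_⟩
  have h3 : z - algebraMap κ E (algebraMap κ₀ κ a * c) =
      algebraMap S E m * (z / algebraMap S E m - algebraMap κ E c) +
        algebraMap κ E c * algebraMap S E (m - algebraMap κ₀ S a) := by
    rw [map_mul, ← IsScalarTower.algebraMap_apply, map_sub, ← IsScalarTower.algebraMap_apply]
    field_simp
    ring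
  rw [h3]
  exact non_add (non_mul ((hW.2 m).2 h2) (h W hW)) (non_mul (hW.1 c) (hW.non ha))

end lead

end Pool.Agent.H889.RS
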