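import Pool.Agent.H889.RS.Dich

/-!
# The dichotomy, main part

(helper889.)
-/

set_option autoImplicit false
set_option linter.all false

open Polynomial FF

namespace Pool.Agent.H889.RS

open Pool.Agent.Y157.PS Pool.Agent.H889.PS Pool.Agent.H889.SY
open Pool.Agent.Y903.PS (tt ratF_tt)
open Pool.Agent.Y748.PS (gal_const exists_orbit lev_of_galois)
open Pool.Agent.R925.Q (Lift)
open Pool.Agent.Y31.PS (stab_triv lev_sup)

section

variable {k₀ κ₀ K κ R M : Type} [Field k₀] [Field κ₀] [Field K] [Field κ] [Field R] [Field M]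
  [Algebra k₀ κ₀]
  [Algebra k₀ K] [Algebra K κ] [Algebra κ₀ κ] [Algebra k₀ κ] [IsScalarTower k₀ K κ]
  [IsScalarTower k₀ κ₀ κ] [Algebra κ₀ R] [Algebra R M] [Algebra κ₀ M] [IsScalarTower κ₀ R M]
  {x : R} {s : (κ ≃ₐ[K] κ) →* RingAut M}
  {ℓ : ℕ} [hℓ : Fact ℓ.Prime] {B : Finset κ₀} {ε : κ₀ → ℕ} {ι : ℕ}
  {N₀ : IntermediateField R M}
  [Normal k₀ κ₀] [CharZero κ₀] [IsAlgClosed κ₀] [IsAlgClosed κ] [Algebra.IsAlgebraic K κ]
  {t : K}

/-- a place over `t = 0` with an element of its decomposition group which moves `t ^ (1 / ℓ)` -/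
theorem exists_zero (ht : RatF k₀ t) {ρ : κ} (hρ : ρ ^ ℓ = algebraMap K κ t) :
    ∃ (V : ValuationSubring κ) (δ₀ : κ ≃ₐ[TT κ₀ κ t] κ), (∀ a : κ₀, algebraMap κ₀ κ a ∈ V) ∧
      V.valuation (algebraMap K κ t - algebraMap κ₀ κ 0) < 1 ∧ (∀ z, δ₀ z ∈ V ↔ z ∈ V) ∧
      δ₀ ρ ≠ ρ := by
  haveI : Algebra.IsAlgebraic k₀ κ₀ := inferInstance
  haveI := algT (κ₀ := κ₀) (κ := κ) ht
  haveI : IsAlgClosure (TT κ₀ κ t) κ := ⟨inferInstance, inferInstance⟩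
  haveI : Normal (TT κ₀ κ t) κ := IsAlgClosure.normal (TT κ₀ κ t) κ
  have hT := ratT (κ := κ) ht (κ₀ := κ₀)
  obtain ⟨V, hV1, hV2⟩ : ∃ V : ValuationSubring κ, (∀ a : κ₀, algebraMap κ₀ κ a ∈ V) ∧
      V.valuation (algebraMap (TT κ₀ κ t) κ (tt (tT κ₀ κ t) (some (0 : κ₀)))) < 1 := by
    have hN := lev_root (ℓ := ℓ) hT (ρ := ρ) hρ
    haveI := hN.fin
    haveI := hN.gal
    obtain ⟨⟨w, hw⟩, -⟩ := exists_exp (N := IntermediateField.adjoin (TT κ₀ κ t) {ρ}) hT hN.card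
      (some (0 : κ₀))
    obtain ⟨V, hV⟩ := a_extv (IntermediateField.adjoin (TT κ₀ κ t) {ρ}) κ w.O
    have hmem : ∀ z : IntermediateField.adjoin (TT κ₀ κ t) {ρ}, (z : κ) ∈ V ↔ z ∈ w.O := by
      intro z
      rw [← hV]
      rfl
    refine ⟨V, fun a => (hmem (algebraMap κ₀ _ a)).2 (w.reg_const a), ?_⟩
    rw [← ValuationSubring.mem_nonunits_iff, nonunits_iff]
    obtain ⟨y, hy⟩ : ∃ y : IntermediateField.adjoin (TT κ₀ κ t) {ρ},
      y = algebraMap (TT κ₀ κ t) _ (tt (tT κ₀ κ t) (some (0 : κ₀))) := ⟨_, rfl⟩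
    have h1 : algebraMap (TT κ₀ κ t) κ (tt (tT κ₀ κ t) (some (0 : κ₀))) = (y : κ) := by
      rw [hy]; rfl
    rw [← hy] at hw
    have hy0 : y ≠ 0 := by
      rintro rfl
      rw [w.ord_zero] at hw
      exact lt_irrefl _ hw
    rw [h1]
    refine ⟨(hmem y).2 ?_, Or.inr ?_⟩
    · rw [Place.mem_O, w.reg_iff hy0]
      exact hw.le
    · intro h2
      have h3 : y⁻¹ ∈ w.O := (hmem y⁻¹).1 h2
      rw [Place.mem_O, w.reg_iff (inv_ne_zero hy0), w.ord_inv] at h3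
      omega
  have h0 : algebraMap (TT κ₀ κ t) κ (tt (tT κ₀ κ t) (some (0 : κ₀))) =
      algebraMap K κ t - algebraMap κ₀ κ 0 := rfl
  have h1 : algebraMap (TT κ₀ κ t) κ (tT κ₀ κ t) = algebraMap K κ t := rfl
  obtain ⟨G, hG, hGV⟩ := exists_delta hT (ρ := ρ) hρ V hV1 (by
    rw [h1]
    rw [h0, map_zero, sub_zero] at hV2
    exact hV2)
  exact ⟨V, G, hV1, by rw [← h0]; exact hV2, hGV, hG⟩

/-- **the dichotomy** -/
theorem main (ht : RatF k₀ t) (hC : GCov ℓ κ₀ R M x B ε ι N₀) (hW : WtN ℓ k₀ κ₀ x N₀)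
    (hs : HSec κ₀ K κ R M x s) {Kf : Set M} (hKf : ∀ W : Place κ₀ M, ∃ π ∈ Kf, W.ord π = 1)
    (hH : HH (κ₀ := κ₀) ht s Kf) :
    (∀ G : κ ≃ₐ[TT κ₀ κ t] κ, sT ht hC.rat hs G = 1) ∨
    ∃ W : Place κ₀ M, IsRam ε ι x W ∧ (∀ σ, Fixes W (s σ)) ∧
      (∀ W' : Place κ₀ M, (∀ G : κ ≃ₐ[TT κ₀ κ t] κ, Fixes W' (sT ht hC.rat hs G)) → W' = W) ∧
      ∃ E : IntermediateField (TT κ₀ κ t) κ, FiniteDimensional (TT κ₀ κ t) E ∧
        ∀ G ∈ E.fixingSubgroup, sT ht hC.rat hs G = 1 := by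
  classical
  haveI := hC.gal
  haveI : Normal R M := hC.gal.to_normal
  haveI : Algebra.IsAlgebraic k₀ κ₀ := inferInstance
  haveI := algT (κ₀ := κ₀) (κ := κ) ht
  obtain ⟨j, hj⟩ := hC.lev.card
  have hℓ0 : ℓ ≠ 0 := hℓ.out.ne_zero
  obtain ⟨ρ, hρ⟩ : ∃ ρ : κ, ρ ^ ℓ = algebraMap K κ t :=
    IsAlgClosed.exists_pow_nat_eq _ hℓ.out.pos
  obtain ⟨V, δ₀, hV, hV0, hδV, hδρ⟩ := exists_zero (κ₀ := κ₀) (κ := κ) (ℓ := ℓ) ht hρ
  obtain ⟨γ, hγd⟩ : ∃ γ, γ = sT ht hC.rat hs δ₀ := ⟨_, rfl⟩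
  have hcyc : ∀ (N : IntermediateField R M), Lev ℓ N → (∀ σ w, w ∈ N → s σ w ∈ N) →
      ∀ G : κ ≃ₐ[TT κ₀ κ t] κ, ∃ n : ℕ, ∀ z ∈ N, sT ht hC.rat hs G z = (γ ^ n) z := by
    intro N hN hst G
    rw [hγd]
    exact cyc ht hC hW hs hKf hH hρ δ₀ hδρ hN hst G
  have htors : γ ^ (ℓ ^ j) = 1 := by
    rw [hγd]
    exact tors ht hC hW hs V hV 0 hV0 hδV hj
  by_cases hγ1 : γ = 1
  · left
    intro G
    ext z
    obtain ⟨N, hN, hz, hst⟩ := exists_stab (k₀ := k₀) hC hs z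
    obtain ⟨n, hn⟩ := hcyc N hN hst G
    rw [hn z hz, hγ1, one_pow]
  right
  obtain ⟨i, hi1, hi2⟩ := exists_order j γ htors hγ1
  obtain ⟨W, hW1⟩ := exf hC (γ ^ (ℓ ^ i)) hi1 hi2
  -- conjugation by an element which commutes
  have hfγ : Fixes W γ := by
    have hc : ∀ a : κ₀, (γ : M ≃+* M) (algebraMap κ₀ M a) =
        algebraMap κ₀ M ((RingEquiv.refl κ₀) a) := fun a => gal_const γ a
    have h1 : Place.comapEquiv W (γ : M ≃+* M) (RingEquiv.refl κ₀) hc = W := by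
      refine unq hC (γ ^ (ℓ ^ i)) hi1 hi2 _ _ (fun z => ?_) hW1
      change W.ord (γ ((γ ^ (ℓ ^ i)) z)) = W.ord (γ z)
      have h2 : γ ((γ ^ (ℓ ^ i)) z) = (γ ^ (ℓ ^ i)) (γ z) := by
        rw [← AlgEquiv.mul_apply, ← AlgEquiv.mul_apply, (Commute.self_pow γ (ℓ ^ i)).eq]
      rw [h2, hW1]
    intro z
    exact congrArg (fun P : Place κ₀ M => P.ord z) h1
  have hfG : ∀ G : κ ≃ₐ[TT κ₀ κ t] κ, Fixes W (sT ht hC.rat hs G) := by
    intro G z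
    obtain ⟨N, hN, hz, hst⟩ := exists_stab (k₀ := k₀) hC hs z
    obtain ⟨n, hn⟩ := hcyc N hN hst G
    rw [hn z hz]
    exact Fixes.pow hfγ n z
  have hγi : γ ^ (ℓ ^ i) = sT ht hC.rat hs (δ₀ ^ (ℓ ^ i)) := by rw [map_pow, hγd]
  have hfix : ∀ σ, Fixes W (s σ) := by
    intro σ
    obtain ⟨φ₀, hφ₀⟩ := exists_res (k₀ := k₀) (κ₀ := κ₀) σ
    have hc : ∀ a : κ₀, (s σ) (algebraMap κ₀ M a) = algebraMap κ₀ M ((φ₀ : κ₀ ≃+* κ₀) a) :=
      fun a => hs.const σ a _ (hφ₀ a)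
    have h1 : Place.comapEquiv W (s σ) (φ₀ : κ₀ ≃+* κ₀) hc = W := by
      refine unq hC (γ ^ (ℓ ^ i)) hi1 hi2 _ _ (fun z => ?_) hW1
      change W.ord (s σ ((γ ^ (ℓ ^ i)) z)) = W.ord (s σ z)
      obtain ⟨g', hg'⟩ : ∃ g' : κ ≃ₐ[TT κ₀ κ t] κ,
          ofT ht g' = σ * ofT ht (δ₀ ^ (ℓ ^ i)) * σ⁻¹ := by
        refine ⟨toT (t := t) (σ * ofT ht (δ₀ ^ (ℓ ^ i)) * σ⁻¹) (fun a => ?_), by ext y; rfl⟩
        have h1 : ∀ a : κ₀, σ⁻¹ (algebraMap κ₀ κ a) = algebraMap κ₀ κ (φ₀.symm a) := by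
          intro a
          have h2 := hφ₀ (φ₀.symm a)
          rw [AlgEquiv.apply_symm_apply] at h2
          rw [← h2]
          exact σ.symm_apply_apply _
        rw [AlgEquiv.mul_apply, AlgEquiv.mul_apply, h1, ofT_const, hφ₀, AlgEquiv.apply_symm_apply]
      have h2 : s σ ((γ ^ (ℓ ^ i)) z) = sT ht hC.rat hs g' (s σ z) := by
        rw [hγi, sT_apply, sT_apply, hg', s_mul, s_mul, s_inv']
      rw [h2, hfG]
    intro z
    exact congrArg (fun P : Place κ₀ M => P.ord z) h1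
  refine ⟨W, ?_, hfix, fun W' hW' => ?_, ?_⟩
  · obtain ⟨h1, -⟩ := above_M hC hi2 hW1
    have hpos : ∀ n : ℕ, (0 : ℤ) < (ℓ : ℤ) ^ n := fun n => by
      have := hℓ.out.pos
      positivity
    rcases h1 with ⟨e, -, he, h1⟩ | ⟨h1, h2⟩
    · exact Or.inl ⟨e, h1, by rw [he]; exact hpos _⟩
    · refine Or.inr ⟨h2, ?_⟩
      rw [h1]
      have := hpos ι
      omega
  · refine unq hC (γ ^ (ℓ ^ i)) hi1 hi2 _ _ ?_ hW1
    rw [hγi]
    exact hW' _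
  · -- a level on which `γ` is faithful
    obtain ⟨N, hN, hstN, hfaith⟩ : ∃ N : IntermediateField R M, Lev ℓ N ∧
        (∀ σ w, w ∈ N → s σ w ∈ N) ∧ ∀ n : ℕ, n < ℓ ^ j → (∀ z ∈ N, (γ ^ n) z = z) → γ ^ n = 1 := by
      have h1 : ∀ n : ℕ, γ ^ n ≠ 1 → ∃ z : M, (γ ^ n) z ≠ z := by
        intro n hn
        by_contra hcon
        push Not at hcon
        exact hn (AlgEquiv.ext hcon)
      have h2 : ∀ n : ℕ, ∃ z : M, γ ^ n ≠ 1 → (γ ^ n) z ≠ z := by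
        intro n
        by_cases h : γ ^ n = 1
        · exact ⟨0, fun h' => absurd h h'⟩
        · obtain ⟨z, hz⟩ := h1 n h
          exact ⟨z, fun _ => hz⟩
      choose z hz using h2
      have h3 : ∀ a : ℕ, ∃ N : IntermediateField R M, Lev ℓ N ∧ (∀ σ w, w ∈ N → s σ w ∈ N) ∧
          ∀ n < a, z n ∈ N := by
        intro a
        induction a with
        | zero =>
          obtain ⟨N, hN, -, hst⟩ := exists_stab (k₀ := k₀) hC hs 0
          exact ⟨N, hN, hst, fun n hn => absurd hn (Nat.not_lt_zero n)⟩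
        | succ a ih =>
          obtain ⟨N, hN, hst, hz⟩ := ih
          obtain ⟨N', hN', hz', hst'⟩ := exists_stab (k₀ := k₀) hC hs (z a)
          refine ⟨N ⊔ N', lev_sup hN hN', ?_, fun n hn => ?_⟩
          · intro σ w hw
            rw [← IntermediateField.mem_toSubfield, IntermediateField.sup_toSubfield] at hw ⊢
            have h5 : (N.toSubfield ⊔ N'.toSubfield).map ((s σ : M ≃+* M) : M →+* M) ≤
                N.toSubfield ⊔ N'.toSubfield := by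
              rw [Subfield.map_sup]
              refine sup_le ?_ ?_
              · rintro _ ⟨y, hy, rfl⟩
                exact (le_sup_left : N.toSubfield ≤ _) (hst σ y hy)
              · rintro _ ⟨y, hy, rfl⟩
                exact (le_sup_right : N'.toSubfield ≤ _) (hst' σ y hy)
            exact h5 ⟨w, hw, rfl⟩
          · rcases Nat.lt_succ_iff_lt_or_eq.1 hn with h | h
            · exact (le_sup_left : N ≤ N ⊔ N') (hz n h)
            · rw [h]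
              exact (le_sup_right : N' ≤ N ⊔ N') hz'
      obtain ⟨N, hN, hst, hzN⟩ := h3 (ℓ ^ j)
      refine ⟨N, hN, hst, fun n hn h => ?_⟩
      by_contra hne
      exact hz n hne (h _ (hzN n hn))
    obtain ⟨E, hE, hEU, -⟩ := exists_E ht hC hs hN hstN
    refine ⟨E, hE.fin, fun G hG => ?_⟩
    rw [hEU, mem_UN] at hG
    ext y
    obtain ⟨N', hN', hy, hst'⟩ := exists_stab (k₀ := k₀) hC hs y
    -- the compositum
    have hsup : ∀ σ w, w ∈ N ⊔ N' → s σ w ∈ N ⊔ N' := by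
      intro σ w hw
      rw [← IntermediateField.mem_toSubfield, IntermediateField.sup_toSubfield] at hw ⊢
      have h5 : (N.toSubfield ⊔ N'.toSubfield).map ((s σ : M ≃+* M) : M →+* M) ≤
          N.toSubfield ⊔ N'.toSubfield := by
        rw [Subfield.map_sup]
        refine sup_le ?_ ?_
        · rintro _ ⟨y, hy, rfl⟩
          exact (le_sup_left : N.toSubfield ≤ _) (hstN σ y hy)
        · rintro _ ⟨y, hy, rfl⟩
          exact (le_sup_right : N'.toSubfield ≤ _) (hst' σ y hy)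
      exact h5 ⟨w, hw, rfl⟩
    obtain ⟨n, hn⟩ := hcyc (N ⊔ N') (lev_sup hN hN') hsup G
    have hmod : γ ^ (n % ℓ ^ j) = γ ^ n := by
      conv_rhs => rw [← Nat.div_add_mod n (ℓ ^ j), pow_add, pow_mul, htors, one_pow, one_mul]
    have h6 : γ ^ (n % ℓ ^ j) = 1 := by
      refine hfaith _ (Nat.mod_lt _ (pow_pos hℓ.out.pos j)) (fun z hz => ?_)
      rw [hmod, ← hn z ((le_sup_left : N ≤ N ⊔ N') hz), hG z hz]
    rw [hn y ((le_sup_right : N' ≤ N ⊔ N') hy), ← hmod, h6]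

end

end Pool.Agent.H889.RS
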