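import Pool.Agent.H889.RS.Exi

/-!
# The maximal unramified pro-`ℓ` extension and automorphisms

(helper889.)
-/

set_option autoImplicit false
set_option linter.all false

open Polynomial FF

namespace Pool.Agent.H889.RS

open Pool.Agent.Y157.PS Pool.Agent.H889.PS

section map

variable {κ K Ω : Type} [Field κ] [Field K] [Field Ω] [Algebra κ Ω] [Algebra K Ω]

/-- the image of a field under a semilinear automorphism -/
def img (e : Ω ≃+* Ω) (e₁ : K ≃+* K) (he : ∀ a, e (algebraMap K Ω a) = algebraMap K Ω (e₁ a))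
    (L : IntermediateField K Ω) : IntermediateField K Ω :=
  { L.toSubfield.map (e : Ω →+* Ω) with
    algebraMap_mem' := fun a => by
      refine ⟨algebraMap K Ω (e₁.symm a), L.algebraMap_mem _, ?_⟩
      change e (algebraMap K Ω (e₁.symm a)) = _
      rw [he, RingEquiv.apply_symm_apply] }

theorem mem_img (e : Ω ≃+* Ω) (e₁ : K ≃+* K)
    (he : ∀ a, e (algebraMap K Ω a) = algebraMap K Ω (e₁ a)) (L : IntermediateField K Ω) (z : Ω) :
    e z ∈ img e e₁ he L ↔ z ∈ L := by
  constructor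
  · rintro ⟨w, hw, h⟩
    have h1 : w = z := e.injective h
    rw [← h1]
    exact hw
  · intro h
    exact ⟨z, h, rfl⟩

theorem img_lev {ℓ : ℕ} (e : Ω ≃+* Ω) (e₁ : K ≃+* K)
    (he : ∀ a, e (algebraMap K Ω a) = algebraMap K Ω (e₁ a)) (L : IntermediateField K Ω)
    (h : Lev ℓ L) : Lev ℓ (img e e₁ he L) := by
  have hs : ∀ w : img e e₁ he L, e.symm w ∈ L := by
    intro w
    rw [← mem_img e e₁ he, RingEquiv.apply_symm_apply]
    exact w.2
  let g : L ≃+* img e e₁ he L :=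
    { toFun := fun z => ⟨e z, (mem_img e e₁ he L z).2 z.2⟩
      invFun := fun w => ⟨e.symm w, hs w⟩
      left_inv := fun z => Subtype.ext (e.symm_apply_apply _)
      right_inv := fun z => Subtype.ext (e.apply_symm_apply _)
      map_mul' := fun z w => Subtype.ext (map_mul e _ _)
      map_add' := fun z w => Subtype.ext (map_add e _ _) }
  have hcomp : (algebraMap K (img e e₁ he L)).comp (e₁ : K →+* K) =
      (g : L →+* img e e₁ he L).comp (algebraMap K L) := by
    ext a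
    exact (he a).symm
  have h1 := h.fin
  have h2 := h.gal
  obtain ⟨m, hm⟩ := h.card
  exact ⟨Module.Finite.of_equiv_equiv e₁ g hcomp, IsGalois.of_equiv_equiv (f := e₁) (g := g) hcomp,
    m, by rw [← Algebra.finrank_eq_of_equiv_equiv e₁ g hcomp, hm]⟩

theorem img_unr (e : Ω ≃+* Ω) (e₁ : K ≃+* K)
    (he : ∀ a, e (algebraMap K Ω a) = algebraMap K Ω (e₁ a))
    (hκ : ∀ c : κ, ∃ c' : κ, e (algebraMap κ Ω c) = algebraMap κ Ω c')
    (L : IntermediateField K Ω) (h : Unr κ K Ω L) : Unr κ K Ω (img e e₁ he L) := by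
  intro W hW z hz hz0
  obtain ⟨y, rfl⟩ := e.surjective z
  rw [mem_img] at hz
  have hmem : ∀ w, w ∈ W.comap (e : Ω →+* Ω) ↔ e w ∈ W := fun w => Iff.rfl
  obtain ⟨t, ht, hu⟩ := h (W.comap (e : Ω →+* Ω)) (fun c => by
    rw [hmem]
    obtain ⟨c', hc'⟩ := hκ c
    rw [hc']
    exact hW c') y hz (fun h0 => hz0 (by rw [h0, map_zero]))
  refine ⟨e₁ t, (map_ne_zero_iff e₁ e₁.injective).2 ht, ?_⟩
  obtain ⟨h1, h2, h3⟩ := hu
  have h4 : e y / algebraMap K Ω (e₁ t) = e (y / algebraMap K Ω t) := by rw [map_div₀, he]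
  refine ⟨?_, ?_, ?_⟩
  · rw [h4]
    exact (map_ne_zero_iff e e.injective).2 h1
  · rw [h4]
    exact (hmem _).1 h2
  · rw [h4, ← map_inv₀]
    exact (hmem _).1 h3

/-- **the maximal unramified extension is stable** -/
theorem maxPro_map {ℓ : ℕ} (e : Ω ≃+* Ω) (e₁ : K ≃+* K)
    (he : ∀ a, e (algebraMap K Ω a) = algebraMap K Ω (e₁ a))
    (hκ : ∀ c : κ, ∃ c' : κ, e (algebraMap κ Ω c) = algebraMap κ Ω c')
    (z : Ω) (hz : z ∈ maxPro ℓ κ K Ω) : e z ∈ maxPro ℓ κ K Ω := by
  have he' : ∀ a, e.symm (algebraMap K Ω a) = algebraMap K Ω (e₁.symm a) := by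
    intro a
    apply e.injective
    rw [RingEquiv.apply_symm_apply, he, RingEquiv.apply_symm_apply]
  have h1 : maxPro ℓ κ K Ω ≤ img e.symm e₁.symm he' (maxPro ℓ κ K Ω) := by
    refine iSup_le fun L => ?_
    intro w hw
    have h3 : w = e.symm (e w) := (e.symm_apply_apply w).symm
    rw [h3, mem_img]
    have h2 : img e e₁ he L.1 ≤ maxPro ℓ κ K Ω :=
      le_iSup (fun L : {L : IntermediateField K Ω // Lev ℓ L ∧ Unr κ K Ω L} => L.1)
        ⟨img e e₁ he L.1, img_lev e e₁ he L.1 L.2.1, img_unr e e₁ he hκ L.1 L.2.2⟩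
    exact h2 ((mem_img e e₁ he L.1 w).2 hw)
  have h2 := h1 hz
  have h3 : z = e.symm (e z) := (e.symm_apply_apply z).symm
  rw [h3, mem_img] at h2
  exact h2

end map

end Pool.Agent.H889.RS
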