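import Pool.Agent.H889.RS.GeoS

/-!
# Valuation rings which contain `M`

(helper889.)
-/

set_option autoImplicit false
set_option linter.all false

open Polynomial FF

namespace Pool.Agent.H889.RS

open Pool.Agent.Y157.PS Pool.Agent.H889.PS
open Pool.Agent.Y903.PS (tt ratF_tt)
open Pool.Agent.Y31.PS (stab_triv lev_sup)
open Pool.Agent.Y748.PS (gal_const exists_orbit lev_of_galois)

section geo

variable {k₀ κ₀ K κ R M F Ω : Type} [Field k₀] [Field κ₀] [Field K] [Field κ] [Field R] [Field M]
  [Field F] [Field Ω] [Algebra k₀ κ₀]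
  [Algebra k₀ K] [Algebra K κ] [Algebra κ₀ κ] [Algebra k₀ κ] [IsScalarTower k₀ K κ]
  [IsScalarTower k₀ κ₀ κ] [Algebra κ₀ R] [Algebra R M] [Algebra κ₀ M] [IsScalarTower κ₀ R M]
  [Algebra K F] [Algebra F Ω] [Algebra K Ω] [IsScalarTower K F Ω] [Algebra κ Ω]
  [IsScalarTower K κ Ω] [Algebra M Ω] [Algebra κ₀ Ω] [IsScalarTower κ₀ κ Ω]
  [IsScalarTower κ₀ M Ω] {x : R}
  {ℓ : ℕ} [hℓ : Fact ℓ.Prime] {B : Finset κ₀} {ε : κ₀ → ℕ} {ι : ℕ}
  {N₀ : IntermediateField R M} {t : K}

/-- the residue map on `M` -/
theorem exists_j [IsAlgClosed κ] [Algebra.IsAlgebraic R M] (hR : RatF κ₀ x)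
    (hX : Transcendental κ (algebraMap M Ω (algebraMap R M x)))
    (W : ValuationSubring Ω) (hWκ : ∀ c : κ, algebraMap κ Ω c ∈ W)
    (hWM : ∀ y : M, algebraMap M Ω y ∈ W) (hne : ∃ z ∈ comp κ M Ω, z ∉ W) :
    ∃ j : M →+* κ, ∀ y, algebraMap M Ω y - algebraMap κ Ω (j y) ∈ W.nonunits := by
  classical
  obtain ⟨X, hXd⟩ : ∃ X, X = algebraMap M Ω (algebraMap R M x) := ⟨_, rfl⟩
  rw [← hXd] at hX
  have hRX := ratF_adj hX
  -- algebraicity over `κ(x)`
  have hmap : ∀ z : R, algebraMap M Ω (algebraMap R M z) ∈ IntermediateField.adjoin κ {X} := by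
    intro z
    have hz : z ∈ IntermediateField.adjoin κ₀ {x} := by rw [hR.gen]; trivial
    induction hz using IntermediateField.adjoin_induction with
    | mem y hy =>
      rw [Set.mem_singleton_iff] at hy
      rw [hy, hXd]
      exact IntermediateField.mem_adjoin_simple_self _ _
    | algebraMap c =>
      rw [← IsScalarTower.algebraMap_apply κ₀ R M, ← IsScalarTower.algebraMap_apply κ₀ M Ω,
        IsScalarTower.algebraMap_apply κ₀ κ Ω]
      exact IntermediateField.algebraMap_mem _ _
    | add a b _ _ ha hb => rw [map_add, map_add]; exact add_mem ha hb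
    | inv a _ ha => rw [map_inv₀, map_inv₀]; exact inv_mem ha
    | mul a b _ _ ha hb => rw [map_mul, map_mul]; exact mul_mem ha hb
  have halgM : ∀ y : M, IsAlgebraic (IntermediateField.adjoin κ {X}) (algebraMap M Ω y) := by
    intro y
    have h1 : IsAlgebraic R y := Algebra.IsAlgebraic.isAlgebraic y
    letI : Algebra R Ω := ((algebraMap M Ω).comp (algebraMap R M)).toAlgebra
    haveI : IsScalarTower R M Ω := IsScalarTower.of_algebraMap_eq fun _ => rfl
    have h2 : IsAlgebraic R (algebraMap M Ω y) := h1.algebraMap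
    let i : R →+* IntermediateField.adjoin κ {X} :=
      (algebraMap R Ω).codRestrict (IntermediateField.adjoin κ {X}).toSubfield.toSubring hmap
    letI : Algebra R (IntermediateField.adjoin κ {X}) := i.toAlgebra
    haveI : IsScalarTower R (IntermediateField.adjoin κ {X}) Ω :=
      IsScalarTower.of_algebraMap_eq fun _ => rfl
    exact h2.tower_top _
  have halgC : ∀ z ∈ comp κ M Ω, IsAlgebraic (IntermediateField.adjoin κ {X}) z := by
    intro z hz
    let P := (algebraicClosure (IntermediateField.adjoin κ {X}) Ω).toSubfield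
    have h1 : comp κ M Ω ≤ P := by
      refine Subfield.closure_le.2 ?_
      rintro _ (⟨c, rfl⟩ | ⟨y, rfl⟩)
      · have h2 : IsAlgebraic (IntermediateField.adjoin κ {X}) (algebraMap κ Ω c) :=
          (isAlgebraic_algebraMap c).tower_top _
        exact (mem_algebraicClosure_iff).2 h2
      · exact (mem_algebraicClosure_iff).2 (halgM y)
    exact (mem_algebraicClosure_iff).1 (h1 hz)
  -- the point below `W`
  have hnt : ∃ z : IntermediateField.adjoin κ {X},
      algebraMap (IntermediateField.adjoin κ {X}) Ω z ∉ W := by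
    by_contra hcon
    push Not at hcon
    obtain ⟨z, hz, hzW⟩ := hne
    exact hzW (Pool.Agent.Y948.PS.mem_of_alg W hcon (halgC z hz))
  have hXW : X ∈ W := by rw [hXd]; exact hWM _
  obtain ⟨b, hb⟩ : ∃ b : κ, W.valuation (X - algebraMap κ Ω b) < 1 := by
    rcases Pool.Agent.Y809.PS.place_or hWκ hRX hnt with ⟨b, hb, -⟩ | ⟨h1, -⟩
    · exact ⟨b, hb⟩
    · exact absurd ((W.valuation_le_one_iff _).2 hXW) (not_le.2 h1)
  have hres : ∀ y : M, ∃ c : κ, algebraMap M Ω y - algebraMap κ Ω c ∈ W.nonunits := by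
    intro y
    refine Pool.Agent.V11235.SL.residue_alg (k := κ) (F := IntermediateField.adjoin κ {X}) (K := κ)
      (algebraMap κ Ω) (fun a => rfl) W hWκ (fun z hz => ?_) _ (halgM y) (hWM y)
    obtain ⟨a, ha⟩ := res_rat (Ω := Ω) (ratF_tt hRX (some b)) (W := W) hWκ hb z hz
    exact ⟨a, by rw [map_sub]; exact ha⟩
  choose f hf using hres
  have huniq : ∀ c : κ, algebraMap κ Ω c ∈ W.nonunits → c = 0 := by
    intro c hc
    by_contra h0
    rw [ValuationSubring.mem_nonunits_iff, Pool.Agent.Y809.PS.val_const hWκ (W := W) h0] at hc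
    exact lt_irrefl _ hc
  have huniq' : ∀ (z : Ω) (c c' : κ), z - algebraMap κ Ω c ∈ W.nonunits →
      z - algebraMap κ Ω c' ∈ W.nonunits → c = c' := by
    intro z c c' h1 h2
    have h3 := non_add h1 (non_neg h2)
    have h4 : z - algebraMap κ Ω c + -(z - algebraMap κ Ω c') = algebraMap κ Ω (c' - c) := by
      rw [map_sub]; ring
    rw [h4] at h3
    exact (sub_eq_zero.1 (huniq _ h3)).symm
  refine ⟨{ toFun := f
            map_one' := ?_
            map_mul' := fun a b => ?_
            map_zero' := ?_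
            map_add' := fun a b => ?_ }, hf⟩
  · refine huniq' 1 _ _ ?_ ?_
    · have h1 := hf 1
      rwa [map_one] at h1
    · rw [map_one, sub_self]
      exact non_zero
  · refine huniq' (algebraMap M Ω (a * b)) _ _ (hf _) ?_
    have h1 : algebraMap M Ω (a * b) - algebraMap κ Ω (f a * f b) =
        algebraMap M Ω b * (algebraMap M Ω a - algebraMap κ Ω (f a)) +
          algebraMap κ Ω (f a) * (algebraMap M Ω b - algebraMap κ Ω (f b)) := by
      rw [map_mul, map_mul]; ring
    rw [h1]
    exact non_add (non_mul (hWM _) (hf a)) (non_mul (hWκ _) (hf b))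
  · refine huniq' 0 _ _ ?_ ?_
    · have h1 := hf 0
      rwa [map_zero] at h1
    · rw [map_zero, sub_self]
      exact non_zero
  · refine huniq' (algebraMap M Ω (a + b)) _ _ (hf _) ?_
    have h1 : algebraMap M Ω (a + b) - algebraMap κ Ω (f a + f b) =
        (algebraMap M Ω a - algebraMap κ Ω (f a)) + (algebraMap M Ω b - algebraMap κ Ω (f b)) := by
      rw [map_add, map_add]; ring
    rw [h1]
    exact non_add (hf a) (hf b)

/-- finiteness -/
theorem fin_of_j [IsAlgClosed κ₀] [CharZero κ₀] [Algebra.IsAlgebraic k₀ κ₀] (ht : RatF k₀ t)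
    (hR : RatF κ₀ x) (j : M →+* κ)
    (hjc : ∀ a : κ₀, j (algebraMap κ₀ M a) = algebraMap κ₀ κ a)
    (hjx : j (algebraMap R M x) ∈ TT κ₀ κ t) (E : IntermediateField (TT κ₀ κ t) κ)
    [FiniteDimensional (TT κ₀ κ t) E] (hjE : ∀ y, j y ∈ E) : FiniteDimensional R M := by
  have hT := ratT (κ := κ) ht (κ₀ := κ₀)
  have hjR : ∀ r : R, j (algebraMap R M r) ∈ TT κ₀ κ t := by
    intro r
    have hr : r ∈ IntermediateField.adjoin κ₀ {x} := by rw [hR.gen]; trivial
    induction hr using IntermediateField.adjoin_induction with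
    | mem y hy =>
      rw [Set.mem_singleton_iff] at hy
      rw [hy]
      exact hjx
    | algebraMap c =>
      rw [← IsScalarTower.algebraMap_apply κ₀ R M, hjc]
      exact IntermediateField.algebraMap_mem _ _
    | add a b _ _ ha hb => rw [map_add, map_add]; exact add_mem ha hb
    | inv a _ ha => rw [map_inv₀, map_inv₀]; exact inv_mem ha
    | mul a b _ _ ha hb => rw [map_mul, map_mul]; exact mul_mem ha hb
  let i : R →+* TT κ₀ κ t :=
    (j.comp (algebraMap R M)).codRestrict (TT κ₀ κ t).toSubfield.toSubring hjR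
  letI : Algebra R (TT κ₀ κ t) := i.toAlgebra
  have hi : ∀ r, algebraMap R (TT κ₀ κ t) r = i r := fun r => rfl
  have hic : ∀ a : κ₀, i (algebraMap κ₀ R a) = algebraMap κ₀ (TT κ₀ κ t) a := by
    intro a
    apply Subtype.ext
    change j (algebraMap R M (algebraMap κ₀ R a)) = algebraMap κ₀ κ a
    rw [← IsScalarTower.algebraMap_apply κ₀ R M, hjc]
  haveI : IsScalarTower κ₀ R (TT κ₀ κ t) := IsScalarTower.of_algebraMap_eq fun a => (hic a).symm
  -- `t` is algebraic over `R`
  have htalg : IsAlgebraic R (tT κ₀ κ t) := by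
    obtain ⟨r, s, hrs⟩ := Pool.Agent.Y809.PS.RatF_rep hT (i x)
    have hs : s ≠ 0 := by
      rintro rfl
      rw [map_zero, div_zero] at hrs
      have h1 : x = 0 := i.injective (by rw [hrs, map_zero])
      rw [h1] at hR
      exact hR.trans isAlgebraic_zero
    have hst : aeval (tT κ₀ κ t) s ≠ 0 := fun h => hs ((transcendental_iff.1 hT.trans) s h)
    refine ⟨C x * s.map (algebraMap κ₀ R) - r.map (algebraMap κ₀ R), ?_, ?_⟩
    · intro h0
      -- then `x` is in `κ₀`
      obtain ⟨n, hn⟩ : ∃ n, s.coeff n ≠ 0 := by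
        by_contra hcon
        push Not at hcon
        exact hs (Polynomial.ext hcon)
      have h1 := congrArg (fun q : R[X] => q.coeff n) h0
      simp only [coeff_sub, coeff_C_mul, coeff_map, coeff_zero] at h1
      have h2 : x = algebraMap κ₀ R (r.coeff n / s.coeff n) := by
        rw [map_div₀, eq_div_iff ((_root_.map_ne_zero _).2 hn)]
        exact sub_eq_zero.1 h1
      rw [h2] at hR
      exact hR.trans (isAlgebraic_algebraMap _)
    · rw [map_sub, map_mul, aeval_C, aeval_map_algebraMap, aeval_map_algebraMap, hi, hrs,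
        div_mul_cancel₀ _ hst, sub_self]
  haveI hfin : FiniteDimensional R (TT κ₀ κ t) := by
    have htop : IntermediateField.adjoin R {tT κ₀ κ t} = ⊤ := by
      rw [eq_top_iff]
      intro z _
      have hz : z ∈ IntermediateField.adjoin κ₀ {tT κ₀ κ t} := by rw [hT.gen]; trivial
      induction hz using IntermediateField.adjoin_induction with
      | mem y hy =>
        rw [Set.mem_singleton_iff] at hy
        rw [hy]
        exact IntermediateField.mem_adjoin_simple_self _ _
      | algebraMap c =>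
        rw [IsScalarTower.algebraMap_apply κ₀ R (TT κ₀ κ t)]
        exact IntermediateField.algebraMap_mem _ _
      | add a b _ _ ha hb => exact add_mem (ha trivial) (hb trivial)
      | inv a _ ha => exact inv_mem (ha trivial)
      | mul a b _ _ ha hb => exact mul_mem (ha trivial) (hb trivial)
    haveI h1 : FiniteDimensional R (IntermediateField.adjoin R {tT κ₀ κ t}) :=
      IntermediateField.adjoin.finiteDimensional htalg.isIntegral
    rw [htop] at h1
    exact Module.Finite.equiv (IntermediateField.topEquiv (F := R) (E := TT κ₀ κ t)).toLinearEquiv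
  letI : Algebra R E := ((algebraMap (TT κ₀ κ t) E).comp i).toAlgebra
  haveI : IsScalarTower R (TT κ₀ κ t) E := IsScalarTower.of_algebraMap_eq fun _ => rfl
  haveI hfinE : FiniteDimensional R E := FiniteDimensional.trans R (TT κ₀ κ t) E
  let g : M →ₗ[R] E :=
    { toFun := fun y => ⟨j y, hjE y⟩
      map_add' := fun a b => Subtype.ext (map_add j a b)
      map_smul' := fun r y => Subtype.ext (by
        change j (r • y) = ((algebraMap R E r * ⟨j y, hjE y⟩ : E) : κ)
        rw [Algebra.smul_def, map_mul]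
        rfl) }
  exact Module.Finite.of_injective g (fun a b hab => j.injective (congrArg Subtype.val hab))

end geo

end Pool.Agent.H889.RS
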