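import Pool.Agent.H889.RS.Sec

/-!
# The dichotomy

(helper889.)
-/

set_option autoImplicit false
set_option linter.all false

open Polynomial FF

namespace Pool.Agent.H889.RS

open Pool.Agent.Y157.PS Pool.Agent.H889.PS Pool.Agent.H889.SY
open Pool.Agent.Y903.PS (tt ratF_tt)
open Pool.Agent.Y748.PS (gal_const exists_orbit lev_of_galois)
open Pool.Agent.R925.Q (Lift)
open Pool.Agent.Y31.PS (stab_triv)

section

variable {k₀ κ₀ K κ R M : Type} [Field k₀] [Field κ₀] [Field K] [Field κ] [Field R] [Field M]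
  [Algebra k₀ κ₀]
  [Algebra k₀ K] [Algebra K κ] [Algebra κ₀ κ] [Algebra k₀ κ] [IsScalarTower k₀ K κ]
  [IsScalarTower k₀ κ₀ κ] [Algebra κ₀ R] [Algebra R M] [Algebra κ₀ M] [IsScalarTower κ₀ R M]
  {x : R} {s : (κ ≃ₐ[K] κ) →* RingAut M}
  {ℓ : ℕ} [hℓ : Fact ℓ.Prime] {B : Finset κ₀} {ε : κ₀ → ℕ} {ι : ℕ}
  {N₀ : IntermediateField R M}
  [Normal k₀ κ₀] [CharZero κ₀] [IsAlgClosed κ₀] [IsAlgClosed κ] [Algebra.IsAlgebraic K κ]
  {t : K}

/-- the index of the group of a finite extension -/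
theorem fin_index {k κ : Type} [Field k] [Field κ] [Algebra k κ] [Normal k κ] [CharZero κ]
    (L : IntermediateField k κ) [FiniteDimensional k L] : L.fixingSubgroup.index ≠ 0 := by
  haveI : CharZero k := (algebraMap k κ).charZero
  haveI : IsGalois k κ := ⟨⟩
  haveI : Finite ((κ ≃ₐ[k] κ) ⧸ L.fixingSubgroup) :=
    Subgroup.quotient_finite_of_isOpen _ (IntermediateField.fixingSubgroup_isOpen L)
  exact Subgroup.index_ne_zero_of_finite

/-- restriction of an element of the Galois group to a stable finite level -/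
theorem exists_restr (E : IntermediateField (TT κ₀ κ t) κ) (σ : κ ≃ₐ[K] κ)
    (hσ : ∀ z ∈ E, σ z ∈ E) (hσ' : ∀ z ∈ E, σ⁻¹ z ∈ E) :
    ∃ τ : E ≃+* E, ∀ z : E, ((τ z : E) : κ) = σ z :=
  ⟨{ toFun := fun z => ⟨σ z, hσ z z.2⟩
     invFun := fun z => ⟨σ⁻¹ z, hσ' z z.2⟩
     left_inv := fun z => Subtype.ext (σ.symm_apply_apply _)
     right_inv := fun z => Subtype.ext (σ.apply_symm_apply _)
     map_mul' := fun a b => Subtype.ext (map_mul σ _ _)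
     map_add' := fun a b => Subtype.ext (map_add σ _ _) }, fun z => rfl⟩

/-- **conjugation by Frobenius** -/
theorem relS (ht : RatF k₀ t) (hC : GCov ℓ κ₀ R M x B ε ι N₀) (hs : HSec κ₀ K κ R M x s)
    (V : ValuationSubring κ) (hV : ∀ a : κ₀, algebraMap κ₀ κ a ∈ V) (c : κ₀)
    (htV : V.valuation (algebraMap K κ t - algebraMap κ₀ κ c) < 1)
    {δ : κ ≃ₐ[TT κ₀ κ t] κ} (hδ : ∀ z, δ z ∈ V ↔ z ∈ V) {Φ : κ ≃ₐ[K] κ} {φ₀ : κ₀ ≃ₐ[k₀] κ₀}
    (hΦ : ∀ a : κ₀, Φ (algebraMap κ₀ κ a) = algebraMap κ₀ κ (φ₀ a)) (hΦV : ∀ z, Φ z ∈ V ↔ z ∈ V)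
    {q : ℕ} (hq : ∀ (m : ℕ) (c : κ₀), c ^ (ℓ ^ m) = 1 → φ₀ c = c ^ q) (z : M) :
    s Φ (sT ht hC.rat hs δ z) = ((sT ht hC.rat hs δ) ^ q) (s Φ z) := by
  obtain ⟨N, hN, hz, hst⟩ := exists_stab (k₀ := k₀) hC hs z
  obtain ⟨E, hE, hEU, hEst⟩ := exists_E ht hC hs hN hst
  haveI := hE.fin
  haveI := hE.gal
  haveI : Normal (TT κ₀ κ t) E := hE.gal.to_normal
  haveI : Algebra.IsAlgebraic k₀ κ₀ := inferInstance
  haveI := algT (κ₀ := κ₀) (κ := κ) ht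
  haveI : IsAlgClosure (TT κ₀ κ t) κ := ⟨inferInstance, inferInstance⟩
  haveI : Normal (TT κ₀ κ t) κ := IsAlgClosure.normal (TT κ₀ κ t) κ
  have hT := ratT (κ := κ) ht (κ₀ := κ₀)
  have htt : algebraMap (TT κ₀ κ t) κ (tt (tT κ₀ κ t) (some c)) =
      algebraMap K κ t - algebraMap κ₀ κ c := rfl
  obtain ⟨w, hwO, hw⟩ := exists_place_level (Ω := κ) hT E hE V hV (some c) (by rw [htt]; exact htV)
  have hmemO : ∀ z : E, z ∈ w.O ↔ (z : κ) ∈ V := by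
    intro z
    rw [hwO]
    rfl
  have hfixes : ∀ (τ : E ≃+* E) (τ₀ : κ₀ ≃+* κ₀),
      (∀ c, τ (algebraMap κ₀ E c) = algebraMap κ₀ E (τ₀ c)) →
      (∀ z : E, ((τ z : E) : κ) ∈ V ↔ (z : κ) ∈ V) → Fixes w τ := by
    intro τ τ₀ hc h
    let w' := Place.comapEquiv w τ τ₀ hc
    have h1 : w' = w := by
      apply Place.ext_O
      ext z
      rw [hmemO, ← h, ← hmemO, Place.mem_O, Place.mem_O]
      unfold Place.Reg
      change z = 0 ∨ 0 ≤ w.ord (τ z) ↔ τ z = 0 ∨ _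
      rw [map_eq_zero_iff τ τ.injective]
    intro z
    change w'.ord z = w.ord z
    rw [h1]
  -- the conjugate
  obtain ⟨δ', hδ'⟩ : ∃ δ' : κ ≃ₐ[TT κ₀ κ t] κ, ofT ht δ' = Φ * ofT ht δ * Φ⁻¹ := by
    refine ⟨toT (t := t) (Φ * ofT ht δ * Φ⁻¹) (fun a => ?_), by ext y; rfl⟩
    have h1 : ∀ a : κ₀, Φ⁻¹ (algebraMap κ₀ κ a) = algebraMap κ₀ κ (φ₀.symm a) := by
      intro a
      have h2 := hΦ (φ₀.symm a)
      rw [AlgEquiv.apply_symm_apply] at h2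
      rw [← h2]
      exact Φ.symm_apply_apply _
    rw [AlgEquiv.mul_apply, AlgEquiv.mul_apply, h1, ofT_const, hΦ, AlgEquiv.apply_symm_apply]
  obtain ⟨τ, hτ⟩ := exists_restr E Φ (fun z hz => hEst Φ z hz) (fun z hz => hEst Φ⁻¹ z hz)
  have hτc : ∀ c, τ (algebraMap κ₀ E c) = algebraMap κ₀ E ((φ₀ : κ₀ ≃+* κ₀) c) := fun c =>
    Subtype.ext (by
      rw [hτ]
      exact hΦ c)
  have hres : ∀ (g : κ ≃ₐ[TT κ₀ κ t] κ) (z : E),
      ((AlgEquiv.restrictNormalHom E g z : E) : κ) = g z :=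
    fun g z => AlgEquiv.restrictNormal_commutes g E z
  have h1 := rel (ℓ := ℓ) hT hE (w := w) (δ := AlgEquiv.restrictNormalHom E δ)
    (δ' := AlgEquiv.restrictNormalHom E δ')
    (hfixes ((AlgEquiv.restrictNormalHom E δ : E ≃ₐ[TT κ₀ κ t] E) : E ≃+* E) (RingEquiv.refl κ₀)
      (fun c => (AlgEquiv.restrictNormalHom E δ).commutes (algebraMap κ₀ (TT κ₀ κ t) c))
      (fun z => by
        change ((AlgEquiv.restrictNormalHom E δ z : E) : κ) ∈ V ↔ _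
        rw [hres, hδ])) (τ := τ) (τ₀ := (φ₀ : κ₀ ≃+* κ₀)) hτc
    (hfixes τ (φ₀ : κ₀ ≃+* κ₀) hτc (fun z => by rw [hτ, hΦV])) (by
      intro z
      apply Subtype.ext
      rw [hres, hτ, hτ, hres]
      have h2 : ofT ht δ' (Φ (z : κ)) = Φ (δ z) := by
        rw [hδ', AlgEquiv.mul_apply, AlgEquiv.mul_apply]
        have h3 : Φ⁻¹ (Φ (z : κ)) = z := Φ.symm_apply_apply _
        rw [h3, ofT_apply]
      exact h2) (q := q) hq (by
      obtain ⟨π, -, hπ⟩ := w.surj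
      exact ⟨π, hπ⟩)
  -- back to `M`
  have h2 : δ' * (δ ^ q)⁻¹ ∈ E.fixingSubgroup := by
    rw [← map_pow] at h1
    have h3 : AlgEquiv.restrictNormalHom E (δ' * (δ ^ q)⁻¹) = 1 := by
      rw [map_mul, map_inv, h1, mul_inv_cancel]
    rw [IntermediateField.mem_fixingSubgroup_iff]
    intro z hz
    have h4 := hres (δ' * (δ ^ q)⁻¹) ⟨z, hz⟩
    rw [h3] at h4
    exact h4.symm
  rw [hEU, mem_UN] at h2
  have h3 : sT ht hC.rat hs δ' (s Φ z) = ((sT ht hC.rat hs δ) ^ q) (s Φ z) := by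
    haveI := hN.gal
    haveI : Normal R M := by haveI := hC.gal; exact hC.gal.to_normal
    haveI : Normal R N := hN.gal.to_normal
    have h4 : ((sT ht hC.rat hs δ) ^ q) (s Φ z) ∈ N := by
      have h5 := AlgEquiv.restrictNormal_commutes ((sT ht hC.rat hs δ) ^ q) N ⟨s Φ z, hst Φ z hz⟩
      have h6 : ((sT ht hC.rat hs δ) ^ q) (s Φ z) =
        (((sT ht hC.rat hs δ) ^ q).restrictNormal N ⟨s Φ z, hst Φ z hz⟩ : N) := h5.symm
      rw [h6]
      exact SetLike.coe_mem _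
    have h5 := h2 _ h4
    rw [map_mul, map_inv, map_pow, AlgEquiv.mul_apply] at h5
    have h6 : ((sT ht hC.rat hs δ) ^ q)⁻¹ (((sT ht hC.rat hs δ) ^ q) (s Φ z)) = s Φ z :=
      ((sT ht hC.rat hs δ) ^ q).symm_apply_apply _
    rwa [h6] at h5
  rw [← h3, sT_apply ht hC.rat hs δ', hδ', s_mul, s_mul, s_inv', sT_apply]

/-- **the elements of the decomposition groups act with finite order** -/
theorem tors (ht : RatF k₀ t) (hC : GCov ℓ κ₀ R M x B ε ι N₀) (hW : WtN ℓ k₀ κ₀ x N₀)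
    (hs : HSec κ₀ K κ R M x s)
    (V : ValuationSubring κ) (hV : ∀ a : κ₀, algebraMap κ₀ κ a ∈ V) (c : κ₀)
    (htV : V.valuation (algebraMap K κ t - algebraMap κ₀ κ c) < 1)
    {δ : κ ≃ₐ[TT κ₀ κ t] κ} (hδ : ∀ z, δ z ∈ V ↔ z ∈ V) {j : ℕ}
    (hj : Module.finrank R N₀ = ℓ ^ j) : (sT ht hC.rat hs δ) ^ (ℓ ^ j) = 1 := by
  haveI := hC.gal
  haveI : Normal R M := hC.gal.to_normal
  haveI : Algebra.IsAlgebraic k₀ κ₀ := inferInstance
  -- the stabiliser of `c`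
  obtain ⟨φ₀, hφ₀, q, hcop, hq, hwt⟩ := hW
    (IntermediateField.adjoin k₀ {c}).fixingSubgroup (by
      haveI : FiniteDimensional k₀ (IntermediateField.adjoin k₀ {c}) :=
        IntermediateField.adjoin.finiteDimensional (Algebra.IsAlgebraic.isAlgebraic c).isIntegral
      exact fin_index _)
  have hc : φ₀ c = c := (IntermediateField.mem_fixingSubgroup_iff _ _).1 hφ₀ c
    (IntermediateField.mem_adjoin_simple_self _ _)
  obtain ⟨Φ, hΦ, hΦV⟩ := exists_dec (κ := κ) ht φ₀ V hV c hc htV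
  refine hwt (s Φ) ⟨fun a => hs.const Φ a _ (hΦ a), hs.fixx Φ⟩ _ (fun z => ?_) (fun z hz =>
    lev_pow hC.lev hj _ z hz)
  -- powers of the relation
  have h1 : ∀ (n : ℕ) (z : M), s Φ (((sT ht hC.rat hs δ) ^ n) z) =
      (((sT ht hC.rat hs δ) ^ q) ^ n) (s Φ z) := by
    intro n
    induction n with
    | zero => intro z; rfl
    | succ n ih =>
      intro z
      rw [pow_succ, pow_succ, AlgEquiv.mul_apply, AlgEquiv.mul_apply, ih,
        relS ht hC hs V hV c htV hδ hΦ hΦV hq]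
  rw [h1, ← pow_mul, ← pow_mul, mul_comm]

end

end Pool.Agent.H889.RS
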