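import Pool.Agent.H889.RS.Bas

/-!
# Homomorphisms from the Galois group of `k₀(t)` to the automorphisms of `M`

(helper889.)
-/

set_option autoImplicit false
set_option linter.all false

open Polynomial FF

namespace Pool.Agent.H889.RS

open Pool.Agent.Y157.PS Pool.Agent.H889.PS Pool.Agent.H889.SY
open Pool.Agent.Y903.PS (tt ratF_tt)
open Pool.Agent.Y748.PS (gal_const exists_orbit lev_of_galois)
open Pool.Agent.R925.Q (Lift)

/-- a continuous action of `Gal(κ/K)` on `M`, compatible with the action on `κ₀`, which fixes `x` -/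
structure HSec (κ₀ K κ R M : Type) [Field κ₀] [Field K] [Field κ] [Field R] [Field M]
    [Algebra K κ] [Algebra κ₀ κ] [Algebra R M] [Algebra κ₀ M] (x : R)
    (s : (κ ≃ₐ[K] κ) →* RingAut M) : Prop where
  const : ∀ (σ : κ ≃ₐ[K] κ) (a b : κ₀), σ (algebraMap κ₀ κ a) = algebraMap κ₀ κ b →
    s σ (algebraMap κ₀ M a) = algebraMap κ₀ M b
  fixx : ∀ σ, s σ (algebraMap R M x) = algebraMap R M x
  cont : ∀ z : M, ∃ E : IntermediateField K κ, FiniteDimensional K E ∧
    ∀ σ ∈ E.fixingSubgroup, s σ z = z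

section

variable {k₀ κ₀ K κ R M : Type} [Field k₀] [Field κ₀] [Field K] [Field κ] [Field R] [Field M]
  [Algebra k₀ κ₀]
  [Algebra k₀ K] [Algebra K κ] [Algebra κ₀ κ] [Algebra k₀ κ] [IsScalarTower k₀ K κ]
  [IsScalarTower k₀ κ₀ κ] [Algebra κ₀ R] [Algebra R M] [Algebra κ₀ M] [IsScalarTower κ₀ R M]
  {x : R} {s : (κ ≃ₐ[K] κ) →* RingAut M}

theorem s_mul (σ τ : κ ≃ₐ[K] κ) (z : M) : s (σ * τ) z = s σ (s τ z) := by
  rw [map_mul]; rfl

theorem s_one (z : M) : s 1 z = z := by
  rw [map_one]; rfl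

theorem s_inv (σ : κ ≃ₐ[K] κ) (z : M) : s σ (s σ⁻¹ z) = z := by
  rw [← s_mul, mul_inv_cancel, s_one]

theorem s_inv' (σ : κ ≃ₐ[K] κ) (z : M) : s σ⁻¹ (s σ z) = z := by
  rw [← s_mul, inv_mul_cancel, s_one]

theorem fixR (hx : RatF κ₀ x) (hs : HSec κ₀ K κ R M x s) {σ : κ ≃ₐ[K] κ}
    (hσ : ∀ a : κ₀, σ (algebraMap κ₀ κ a) = algebraMap κ₀ κ a) (z : R) :
    s σ (algebraMap R M z) = algebraMap R M z := by
  have hz : z ∈ IntermediateField.adjoin κ₀ {x} := by rw [hx.gen]; trivial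
  induction hz using IntermediateField.adjoin_induction with
  | mem y hy =>
    rw [Set.mem_singleton_iff] at hy
    subst hy
    rw [hs.fixx]
  | algebraMap c =>
    rw [← IsScalarTower.algebraMap_apply, hs.const σ c c (hσ c)]
  | add a b _ _ ha hb => rw [map_add, map_add, ha, hb]
  | inv a _ ha => rw [map_inv₀, map_inv₀, ha]
  | mul a b _ _ ha hb => rw [map_mul, map_mul, ha, hb]

/-- the action of the geometric Galois group -/
def sT {t : K} (ht : RatF k₀ t) (hx : RatF κ₀ x) (hs : HSec κ₀ K κ R M x s) :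
    (κ ≃ₐ[TT κ₀ κ t] κ) →* (M ≃ₐ[R] M) where
  toFun g := AlgEquiv.ofRingEquiv (f := s (ofT ht g)) (fixR hx hs (ofT_const ht g))
  map_one' := by
    ext z
    change s (ofT ht 1) z = z
    rw [map_one, s_one]
  map_mul' a b := by
    ext z
    change s (ofT ht (a * b)) z = s (ofT ht a) (s (ofT ht b) z)
    rw [map_mul, s_mul]

theorem sT_apply {t : K} (ht : RatF k₀ t) (hx : RatF κ₀ x) (hs : HSec κ₀ K κ R M x s)
    (g : κ ≃ₐ[TT κ₀ κ t] κ) (z : M) : sT ht hx hs g z = s (ofT ht g) z := rfl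

/-- the action on the constants of `k₀` -/
theorem s_k (hs : HSec κ₀ K κ R M x s) (σ : κ ≃ₐ[K] κ) (c : k₀) :
    s σ (algebraMap κ₀ M (algebraMap k₀ κ₀ c)) = algebraMap κ₀ M (algebraMap k₀ κ₀ c) := by
  apply hs.const
  rw [← IsScalarTower.algebraMap_apply, IsScalarTower.algebraMap_apply k₀ K κ, σ.commutes]

/-- the elements of `R` -/
theorem s_R [Normal k₀ κ₀] (hx : RatF κ₀ x) (hs : HSec κ₀ K κ R M x s) (σ : κ ≃ₐ[K] κ)
    (z : R) : ∃ z' : R, s σ (algebraMap R M z) = algebraMap R M z' := by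
  obtain ⟨φ₀, hφ₀⟩ := exists_res (k₀ := k₀) (κ₀ := κ₀) σ
  exact Pool.Agent.R925.Q.phi_R hx (s σ) (φ₀ : κ₀ ≃+* κ₀) (fun c => hs.const σ c _ (hφ₀ c))
    (hs.fixx σ) z

variable {ℓ : ℕ} [hℓ : Fact ℓ.Prime] {B : Finset κ₀} {ε : κ₀ → ℕ} {ι : ℕ}
  {N₀ : IntermediateField R M}

/-- stable levels -/
theorem exists_stab [Normal k₀ κ₀] [CharZero κ₀] (hC : GCov ℓ κ₀ R M x B ε ι N₀)
    (hs : HSec κ₀ K κ R M x s) (z : M) :
    ∃ N : IntermediateField R M, Lev ℓ N ∧ z ∈ N ∧ ∀ σ w, w ∈ N → s σ w ∈ N := by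
  haveI := hC.gal
  have hR := hC.rat
  haveI : CharZero R := charZero_of_injective_algebraMap (algebraMap κ₀ R).injective
  have hM : Algebra.IsAlgebraic R M := inferInstance
  have hk : Algebra.IsAlgebraic k₀ κ₀ := inferInstance
  obtain ⟨T, hT, hm, hst⟩ := exists_orbit (k := k₀) hk hR hM z
  haveI : Finite T := hT
  obtain ⟨N, hN⟩ : ∃ N, N = IntermediateField.adjoin R T := ⟨_, rfl⟩
  haveI hfin : FiniteDimensional R N := by
    rw [hN]
    exact IntermediateField.finiteDimensional_adjoin fun w _ => (hM.isAlgebraic w).isIntegral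
  have hTgal : ∀ g : M ≃ₐ[R] M, ∀ w ∈ T, g w ∈ T := by
    intro g w hw
    exact hst (g : M ≃+* M) (fun c => gal_const g _) (g.commutes x) w hw
  have hnorm : Normal R N := by
    rw [hN, IntermediateField.normal_iff_forall_map_le']
    intro g
    rw [IntermediateField.adjoin_map, IntermediateField.adjoin_le_iff]
    rintro _ ⟨w, hw, rfl⟩
    exact IntermediateField.subset_adjoin R T (hTgal g w hw)
  haveI : Algebra.IsSeparable R N := inferInstance
  have hgal : IsGalois R N := ⟨⟩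
  refine ⟨N, lev_of_galois hC.pow N hfin hgal, ?_, ?_⟩
  · rw [hN]; exact IntermediateField.subset_adjoin R T hm
  · intro σ w hw
    rw [hN] at hw ⊢
    induction hw using IntermediateField.adjoin_induction with
    | mem y hy =>
      exact IntermediateField.subset_adjoin R T (hst (s σ) (s_k hs σ) (hs.fixx σ) y hy)
    | algebraMap c =>
      obtain ⟨c', hc'⟩ := s_R (k₀ := k₀) hR hs σ c
      rw [hc']
      exact (IntermediateField.adjoin R T).algebraMap_mem c'
    | add a b _ _ ha hb => rw [map_add]; exact add_mem ha hb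
    | inv a _ ha => rw [map_inv₀]; exact inv_mem ha
    | mul a b _ _ ha hb => rw [map_mul]; exact mul_mem ha hb

/-- the kernel of the action on a level -/
def UN {t : K} (ht : RatF k₀ t) (hx : RatF κ₀ x) (hs : HSec κ₀ K κ R M x s)
    (N : IntermediateField R M) : Subgroup (κ ≃ₐ[TT κ₀ κ t] κ) where
  carrier := {g | ∀ w ∈ N, sT ht hx hs g w = w}
  mul_mem' := fun {a b} ha hb w hw => by
    rw [map_mul, AlgEquiv.mul_apply, hb w hw, ha w hw]
  one_mem' := fun w _ => by rw [map_one]; rfl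
  inv_mem' := fun {a} ha w hw => by
    have h1 := ha w hw
    have h2 : sT ht hx hs a (sT ht hx hs a⁻¹ w) = w := by
      rw [← AlgEquiv.mul_apply, ← map_mul, mul_inv_cancel, map_one]; rfl
    apply (sT ht hx hs a).injective
    rw [h2, h1]

theorem mem_UN {t : K} (ht : RatF k₀ t) (hx : RatF κ₀ x) (hs : HSec κ₀ K κ R M x s)
    (N : IntermediateField R M) (g : κ ≃ₐ[TT κ₀ κ t] κ) :
    g ∈ UN ht hx hs N ↔ ∀ w ∈ N, sT ht hx hs g w = w := Iff.rfl

/-- **the extension of `κ₀(t)` belonging to a level** -/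
theorem exists_E [Normal k₀ κ₀] [CharZero κ₀] [IsAlgClosed κ] [Algebra.IsAlgebraic K κ]
    {t : K} (ht : RatF k₀ t)
    (hC : GCov ℓ κ₀ R M x B ε ι N₀) (hs : HSec κ₀ K κ R M x s) {N : IntermediateField R M}
    (hN : Lev ℓ N) (hst : ∀ σ w, w ∈ N → s σ w ∈ N) :
    ∃ E : IntermediateField (TT κ₀ κ t) κ, Lev ℓ E ∧ E.fixingSubgroup = UN ht hC.rat hs N ∧
      ∀ (σ : κ ≃ₐ[K] κ) (z : κ), z ∈ E → σ z ∈ E := by
  haveI := hC.gal
  haveI := hN.fin
  haveI := hN.gal
  haveI : CharZero R := charZero_of_injective_algebraMap (algebraMap κ₀ R).injective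
  haveI : Normal R M := hC.gal.to_normal
  haveI : Algebra.IsAlgebraic k₀ κ₀ := inferInstance
  haveI : CharZero (TT κ₀ κ t) :=
    charZero_of_injective_algebraMap (algebraMap κ₀ (TT κ₀ κ t)).injective
  haveI := algT (κ₀ := κ₀) (κ := κ) ht
  haveI : IsAlgClosure (TT κ₀ κ t) κ := ⟨inferInstance, inferInstance⟩
  haveI : Normal (TT κ₀ κ t) κ := IsAlgClosure.normal (TT κ₀ κ t) κ
  haveI : IsGalois (TT κ₀ κ t) κ := ⟨⟩
  obtain ⟨m, hm⟩ := hN.card
  -- open
  obtain ⟨α, hα⟩ := Field.exists_primitive_element R N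
  obtain ⟨E₁, hE₁, hE₁'⟩ := hs.cont (α : M)
  haveI := hE₁
  haveI : CharZero K := by
    haveI : CharZero κ := charZero_of_injective_algebraMap (algebraMap κ₀ κ).injective
    exact (algebraMap K κ).charZero
  obtain ⟨β, hβ⟩ := Field.exists_primitive_element K E₁
  have hαN : ∀ g : M ≃ₐ[R] M, g (α : M) = α → ∀ w ∈ N, g w = w := by
    intro g hg w hw
    have h1 : ∀ y : N, y ∈ IntermediateField.adjoin R {α} → g (y : M) = y := by
      intro y hy
      induction hy using IntermediateField.adjoin_induction with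
      | mem y hy =>
        rw [Set.mem_singleton_iff] at hy
        rw [hy, hg]
      | algebraMap c => exact g.commutes c
      | add a b _ _ ha hb =>
        change g ((a : M) + (b : M)) = _
        rw [map_add, ha, hb]
        rfl
      | inv a _ ha =>
        change g ((a : M)⁻¹) = _
        rw [map_inv₀, ha]
        rfl
      | mul a b _ _ ha hb =>
        change g ((a : M) * (b : M)) = _
        rw [map_mul, ha, hb]
        rfl
    exact h1 ⟨w, hw⟩ (by rw [hα]; trivial)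
  obtain ⟨L, hL⟩ : ∃ L, L = IntermediateField.adjoin (TT κ₀ κ t) {(β : κ)} := ⟨_, rfl⟩
  haveI : FiniteDimensional (TT κ₀ κ t) L := by
    rw [hL]
    exact IntermediateField.adjoin.finiteDimensional
      (Algebra.IsAlgebraic.isAlgebraic (R := TT κ₀ κ t) (β : κ)).isIntegral
  have hLU : L.fixingSubgroup ≤ UN ht hC.rat hs N := by
    intro g hg
    rw [mem_UN]
    refine hαN _ ?_
    rw [sT_apply]
    apply hE₁'
    rw [IntermediateField.mem_fixingSubgroup_iff]
    have hgβ : g (β : κ) = β := (IntermediateField.mem_fixingSubgroup_iff _ _).1 hg _ (by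
      rw [hL]; exact IntermediateField.mem_adjoin_simple_self _ _)
    have h1 : ∀ y : E₁, y ∈ IntermediateField.adjoin K {β} → ofT ht g (y : κ) = y := by
      intro y hy
      induction hy using IntermediateField.adjoin_induction with
      | mem y hy =>
        rw [Set.mem_singleton_iff] at hy
        rw [hy, ofT_apply, hgβ]
      | algebraMap c => exact (ofT ht g).commutes c
      | add a b _ _ ha hb =>
        change ofT ht g ((a : κ) + (b : κ)) = _
        rw [map_add, ha, hb]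
        rfl
      | inv a _ ha =>
        change ofT ht g ((a : κ)⁻¹) = _
        rw [map_inv₀, ha]
        rfl
      | mul a b _ _ ha hb =>
        change ofT ht g ((a : κ) * (b : κ)) = _
        rw [map_mul, ha, hb]
        rfl
    intro y hy
    exact h1 ⟨y, hy⟩ (by rw [hβ]; trivial)
  have hnorm : (UN ht hC.rat hs N).Normal := by
    constructor
    intro g hg h w hw
    rw [map_mul, map_mul, AlgEquiv.mul_apply, AlgEquiv.mul_apply]
    have h1 : sT ht hC.rat hs h⁻¹ w ∈ N := by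
      rw [sT_apply]; exact hst _ _ hw
    rw [hg _ h1, ← AlgEquiv.mul_apply, ← map_mul, mul_inv_cancel, map_one]
    rfl
  obtain ⟨E, hE, hEU⟩ := lev_of_open (ℓ := ℓ) (UN ht hC.rat hs N) hnorm L hLU (fun g => ⟨m, by
    rw [mem_UN]
    intro w hw
    rw [map_pow]
    exact lev_pow hN hm _ w hw⟩)
  refine ⟨E, hE, hEU, fun σ z hz => ?_⟩
  -- stability
  have h1 : z ∈ IntermediateField.fixedField E.fixingSubgroup := by
    rw [InfiniteGalois.fixedField_fixingSubgroup]
    exact hz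
  have h2 : σ z ∈ IntermediateField.fixedField E.fixingSubgroup := by
    rintro ⟨g, hg⟩
    change g (σ z) = σ z
    rw [hEU] at hg
    -- `σ⁻¹ g σ`
    obtain ⟨g', hg'⟩ : ∃ g' : κ ≃ₐ[TT κ₀ κ t] κ, ofT ht g' = σ⁻¹ * ofT ht g * σ := by
      refine ⟨toT (t := t) (σ⁻¹ * ofT ht g * σ) (fun a => ?_), by ext y; rfl⟩
      obtain ⟨φ₀, hφ₀⟩ := exists_res (k₀ := k₀) (κ₀ := κ₀) σ
      rw [AlgEquiv.mul_apply, AlgEquiv.mul_apply, hφ₀, ofT_const, ← hφ₀]
      exact σ.symm_apply_apply _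
    have h3 : g' ∈ E.fixingSubgroup := by
      rw [hEU, mem_UN]
      intro w hw
      rw [sT_apply, hg', s_mul, s_mul]
      have h4 : s (ofT ht g) (s σ w) = s σ w := hg _ (hst σ w hw)
      rw [h4, s_inv']
    have h4 : g' z = z := (IntermediateField.mem_fixingSubgroup_iff _ _).1 h3 z hz
    have h5 : ofT ht g' z = z := h4
    rw [hg', AlgEquiv.mul_apply, AlgEquiv.mul_apply] at h5
    have h6 := congrArg σ h5
    have h7 : σ (σ⁻¹ (ofT ht g (σ z))) = ofT ht g (σ z) := σ.apply_symm_apply _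
    rw [h7] at h6
    exact h6
  rw [InfiniteGalois.fixedField_fixingSubgroup] at h2
  exact h2

end

end Pool.Agent.H889.RS
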