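import Pool.Agent.H889.SY.Inst

/-!
# The weight lemma: automorphisms which a lift of Frobenius raises to the `q`-th power

(helper889.)
-/

set_option autoImplicit false
set_option linter.all false

open Polynomial FF

namespace Pool.Agent.H889.RS

open Pool.Agent.Y157.PS Pool.Agent.H889.PS Pool.Agent.H889.SY
open Pool.Agent.R925.Q (Lift LD LD_gal LD_fix cj cj_apply phi_R frob_rou')

section

variable {κ R M : Type} [Field κ] [Field R] [Field M] [Algebra κ R] [Algebra R M] [Algebra κ M]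
  [IsScalarTower κ R M] {x : R} {k : Type} [Field k] [Algebra k κ]

open Pool.Agent.Y748.PS in
/-- a level inside a stable field `L`, stable under `φ`, with given elements -/
theorem exists_levelL {ℓ : ℕ} [Fact ℓ.Prime] [CharZero κ] {B : Finset κ} {ε : κ → ℕ} {ι : ℕ}
    {N₀ : IntermediateField R M}
    (hk : Algebra.IsAlgebraic k κ) (hC : GCov ℓ κ R M x B ε ι N₀) {φ : M ≃+* M} {φ₀ : κ ≃ₐ[k] κ}
    (h : Lift κ M (algebraMap R M x) φ (φ₀ : κ ≃+* κ)) {L : IntermediateField R M}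
    (hLg : ∀ (g : M ≃ₐ[R] M) (z : M), z ∈ L → g z ∈ L)
    (hLφ : ∀ z ∈ L, φ z ∈ L) (hLφ' : ∀ z ∈ L, φ.symm z ∈ L) {z₁ : M} (hz₁ : z₁ ∈ L)
    (hz₂ : N₀ ≤ L) :
    ∃ N : IntermediateField R M, Lev ℓ N ∧ z₁ ∈ N ∧ N₀ ≤ N ∧ N ≤ L ∧
      ∀ z, φ z ∈ N ↔ z ∈ N := by
  haveI := hC.gal
  have hR := hC.rat
  haveI : CharZero R := charZero_of_injective_algebraMap (algebraMap κ R).injective
  have hM : Algebra.IsAlgebraic R M := inferInstance
  haveI := hC.lev.fin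
  obtain ⟨α, hα⟩ := Field.exists_primitive_element R N₀
  obtain ⟨T₁, hT₁, hm₁, hs₁⟩ := exists_orbit (k := k) hk hR hM z₁
  obtain ⟨T₂, hT₂, hm₂, hs₂⟩ := exists_orbit (k := k) hk hR hM (α : M)
  obtain ⟨T, hT⟩ : ∃ T : Set M, T = {w | (w ∈ T₁ ∨ w ∈ T₂) ∧ w ∈ L} := ⟨_, rfl⟩
  have hTm : ∀ w, w ∈ T ↔ (w ∈ T₁ ∨ w ∈ T₂) ∧ w ∈ L := fun w => by rw [hT]; rfl
  have hTfin : T.Finite := (hT₁.union hT₂).subset fun w hw => ((hTm w).1 hw).1
  have hTgal : ∀ g : M ≃ₐ[R] M, ∀ w ∈ T, g w ∈ T := by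
    intro g w hw
    rw [hTm] at hw ⊢
    have h1 : ∀ c : k, (g : M ≃+* M) (algebraMap κ M (algebraMap k κ c)) =
      algebraMap κ M (algebraMap k κ c) := fun c => Pool.Agent.Y748.PS.gal_const g _
    have h2 : (g : M ≃+* M) (algebraMap R M x) = algebraMap R M x := g.commutes x
    refine ⟨?_, hLg g w hw.2⟩
    rcases hw.1 with h | h
    · exact Or.inl (hs₁ (g : M ≃+* M) h1 h2 w h)
    · exact Or.inr (hs₂ (g : M ≃+* M) h1 h2 w h)
  have hTs : ∀ (ψ : M ≃+* M) (ψ₀ : κ ≃ₐ[k] κ), Lift κ M (algebraMap R M x) ψ (ψ₀ : κ ≃+* κ) →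
      (∀ z ∈ L, ψ z ∈ L) → ∀ w ∈ T, ψ w ∈ T := by
    intro ψ ψ₀ hψ hψL w hw
    rw [hTm] at hw ⊢
    have h1 : ∀ c : k, ψ (algebraMap κ M (algebraMap k κ c)) =
      algebraMap κ M (algebraMap k κ c) := fun c => by
        rw [hψ.con]
        congr 1
        exact ψ₀.commutes c
    refine ⟨?_, hψL w hw.2⟩
    rcases hw.1 with h | h
    · exact Or.inl (hs₁ ψ h1 hψ.fix w h)
    · exact Or.inr (hs₂ ψ h1 hψ.fix w h)
  haveI : Finite T := hTfin
  obtain ⟨N, hN⟩ : ∃ N, N = IntermediateField.adjoin R T := ⟨_, rfl⟩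
  have hTN : ∀ w ∈ T, w ∈ N := fun w hw => by
    rw [hN]
    exact IntermediateField.subset_adjoin R T hw
  haveI hfin : FiniteDimensional R N := by
    rw [hN]
    exact IntermediateField.finiteDimensional_adjoin fun w _ => (hM.isAlgebraic w).isIntegral
  have hnorm : Normal R N := by
    rw [IntermediateField.normal_iff_forall_map_le']
    intro g
    rw [hN, IntermediateField.adjoin_map, IntermediateField.adjoin_le_iff]
    rintro _ ⟨w, hw, rfl⟩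
    exact IntermediateField.subset_adjoin R T (hTgal g w hw)
  haveI : Algebra.IsSeparable R N := inferInstance
  have hgal : IsGalois R N := ⟨⟩
  have hNs : ∀ (ψ : M ≃+* M) (ψ₀ : κ ≃ₐ[k] κ), Lift κ M (algebraMap R M x) ψ (ψ₀ : κ ≃+* κ) →
      (∀ z ∈ L, ψ z ∈ L) → ∀ z ∈ N, ψ z ∈ N := by
    intro ψ ψ₀ hψ hψδ z hz
    rw [hN] at hz ⊢
    induction hz using IntermediateField.adjoin_induction with
    | mem y hy => exact IntermediateField.subset_adjoin R T (hTs ψ ψ₀ hψ hψδ y hy)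
    | algebraMap c =>
      obtain ⟨c', hc'⟩ := phi_R hR ψ _ hψ.con hψ.fix c
      rw [hc']
      exact (IntermediateField.adjoin R T).algebraMap_mem c'
    | add a b _ _ ha hb => rw [map_add]; exact add_mem ha hb
    | inv a _ ha => rw [map_inv₀]; exact inv_mem ha
    | mul a b _ _ ha hb => rw [map_mul]; exact mul_mem ha hb
  have hαN : (α : M) ∈ N := hTN _ ((hTm _).2 ⟨Or.inr hm₂, hz₂ α.2⟩)
  refine ⟨N, lev_of_galois hC.pow N hfin hgal, ?_, ?_, ?_, fun z => ⟨fun h' => ?_, hNs φ φ₀ h hLφ z⟩⟩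
  · exact hTN _ ((hTm _).2 ⟨Or.inl hm₁, hz₁⟩)
  · intro y hy
    have h2 : (⟨y, hy⟩ : N₀) ∈ IntermediateField.adjoin R {α} := by rw [hα]; trivial
    have h3 : (IntermediateField.adjoin R {α}).map N₀.val ≤ N := by
      rw [IntermediateField.adjoin_map, IntermediateField.adjoin_le_iff]
      rintro _ ⟨w, hw, rfl⟩
      rw [Set.mem_singleton_iff] at hw
      rw [hw]
      exact hαN
    exact h3 ⟨⟨y, hy⟩, h2, rfl⟩
  · rw [hN, IntermediateField.adjoin_le_iff]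
    exact fun w hw => ((hTm w).1 hw).2
  · have := hNs φ.symm φ₀.symm h.symm hLφ' _ h'
    rwa [RingEquiv.symm_apply_apply] at this

end

/-- an automorphism of `ℓ`-power order on `z` whose `q`-th power fixes `z` fixes `z` -/
theorem fix_of_pow {ℓ : ℕ} [hℓ : Fact ℓ.Prime] {κ R M : Type} [Field κ] [Field R] [Field M]
    [Algebra κ R] [Algebra R M] [Algebra κ M] [IsScalarTower κ R M] {x : R}
    {B : Finset κ} {ε : κ → ℕ} {ι : ℕ} {N₀ : IntermediateField R M}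
    (hC : GCov ℓ κ R M x B ε ι N₀) {q : ℕ} (hq : Nat.Coprime q ℓ) (γ : M ≃ₐ[R] M) (z : M)
    (h : (γ ^ q) z = z) : γ z = z := by
  haveI := hC.gal
  haveI : Normal R M := hC.gal.to_normal
  obtain ⟨N, hz, hN⟩ := hC.pow z
  obtain ⟨m, hm⟩ := hN.card
  have h1 : (γ ^ (ℓ ^ m)) z = z := lev_pow hN hm γ z hz
  have hfix : ∀ (a : ℕ) (g : M ≃ₐ[R] M), g z = z → (g ^ a) z = z := by
    intro a g hg
    induction a with
    | zero => rfl
    | succ a ih => rw [pow_succ, AlgEquiv.mul_apply, hg, ih]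
  have hcop : Nat.Coprime q (ℓ ^ m) := Nat.Coprime.pow_right m hq
  rcases Nat.eq_zero_or_pos m with h0 | h0
  · subst h0
    rwa [pow_zero, pow_one] at h1
  have h2 : 1 < ℓ ^ m := Nat.one_lt_pow h0.ne' hℓ.out.one_lt
  obtain ⟨b, hb⟩ := Nat.exists_mul_mod_eq_one_of_coprime hcop h2
  have h3 : q * b = ℓ ^ m * (q * b / ℓ ^ m) + 1 := by
    have := Nat.div_add_mod (q * b) (ℓ ^ m)
    omega
  have h4 : (γ ^ (q * b)) z = z := by rw [pow_mul]; exact hfix b _ h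
  rw [h3, pow_succ', AlgEquiv.mul_apply, pow_mul, hfix _ _ h1] at h4
  exact h4

open Pool.Agent.Y748.PS in
/-- **weights** -/
theorem wt {ℓ : ℕ} [Fact ℓ.Prime] {k κ R M : Type} [Field k] [Field κ] [IsAlgClosed κ]
    [CharZero κ] [Field R] [Field M] [Algebra k κ] [Algebra.IsAlgebraic k κ]
    [Algebra κ R] [Algebra R M] [Algebra κ M] [IsScalarTower κ R M] {x : R}
    {B : Finset κ} {ε : κ → ℕ} {ι : ℕ} {N₀ : IntermediateField R M}
    (hC : GCov ℓ κ R M x B ε ι N₀)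
    (F : Type) [Field F] (V : ValuationSubring κ) (r : V →+* F) (hr : Res V r) (hGood : Good V B)
    (hl : IsU V (ℓ : κ)) (D : Disc ℓ V r)
    (p : ℕ) [Fact p.Prime] [CharP F p] (q a : ℕ) (ha : 0 < a) (hq : q = p ^ a)
    (hF : ∀ c : F, ∃ m : ℕ, 0 < m ∧ c ^ (q ^ m) = c)
    (O : ValuationSubring M) (hO : Gauss V (algebraMap R M x) O)
    (hu : ∀ O' : ValuationSubring M, Gauss V (algebraMap R M x) O' → O' = O)
    (φ : M ≃+* M) (φ₀ : κ ≃ₐ[k] κ) (hlift : Lift κ M (algebraMap R M x) φ (φ₀ : κ ≃+* κ))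
    (hφV : ∀ c, φ₀ c ∈ V ↔ c ∈ V) (hφq : ∀ c ∈ V, φ₀ c - c ^ q ∈ V.nonunits)
    (hcop : Nat.Coprime q ℓ)
    (γ : M ≃ₐ[R] M) (hγ : ∀ z, φ (γ z) = (γ ^ q) (φ z)) (hγN : ∀ z ∈ N₀, γ z = z) : γ = 1 := by
  have hp := (Fact.out : p.Prime)
  have hℓp := (Fact.out : ℓ.Prime)
  haveI : CharZero R := charZero_of_injective_algebraMap (algebraMap κ R).injective
  haveI := hC.gal
  haveI := hC.lev.gal
  have hR := hC.rat
  obtain ⟨E, hεE, hιE⟩ := exists_E hC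
  have hpw : ∀ (a : ℕ) (g : M ≃ₐ[R] M) (z : M), g z = z → (g ^ a) z = z := by
    intro a g z hg
    induction a with
    | zero => rfl
    | succ a ih => rw [pow_succ, AlgEquiv.mul_apply, hg, ih]
  have hY : N₀ ≤ LD γ := by
    intro z hz g
    apply hγN
    have h1 := AlgEquiv.restrictNormal_commutes g N₀ (⟨z, hz⟩ : N₀)
    have h2 : g z = algebraMap N₀ M (g.restrictNormal N₀ ⟨z, hz⟩) := h1.symm
    rw [h2]
    exact (g.restrictNormal N₀ ⟨z, hz⟩).2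
  -- stability
  have hLφ : ∀ z ∈ LD γ, φ z ∈ LD γ := by
    intro z hz g
    obtain ⟨γ', hγ'⟩ : ∃ γ' : M ≃ₐ[R] M, γ' = cj hR hlift γ := ⟨_, rfl⟩
    have h1 : ∀ w, φ (γ' w) = γ (φ w) := fun w => by rw [hγ']; exact cj_apply hR hlift γ w
    have h2 : ∀ (n : ℕ) (w : M), φ ((γ' ^ n) w) = (γ ^ n) (φ w) := by
      intro n
      induction n with
      | zero => intro w; rfl
      | succ n ih => intro w; rw [pow_succ, pow_succ, AlgEquiv.mul_apply, AlgEquiv.mul_apply, ih, h1]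
    have h3 : ∀ w, (γ' ^ q) w = γ w := by
      intro w
      apply φ.injective
      rw [h2, hγ]
    have h4 : ∀ w ∈ LD γ, γ' w = w := fun w hw => fix_of_pow hC hcop γ' w (by
      rw [h3]; exact LD_fix hw)
    have h5 := h4 _ (LD_gal hz (cj hR hlift g))
    have h6 := congrArg φ h5
    rw [h1, cj_apply hR hlift] at h6
    exact h6
  have hLφ' : ∀ z ∈ LD γ, φ.symm z ∈ LD γ := by
    intro z hz g
    obtain ⟨w, rfl⟩ := φ.surjective z
    rw [RingEquiv.symm_apply_apply]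
    apply φ.injective
    rw [hγ]
    -- `φ (g w) = g' (φ w)`
    have h1 : φ (g w) = (cj hR hlift.symm g) (φ w) := by
      have h2 := cj_apply hR hlift.symm g (φ w)
      rw [RingEquiv.symm_apply_apply] at h2
      rw [← h2, RingEquiv.apply_symm_apply]
    rw [h1]
    exact hpw q γ _ (hz _)
  have key : ∀ h : M, h ^ ℓ ∈ LD γ → γ h = h := by
    intro h hh
    by_cases h0 : h = 0
    · rw [h0, map_zero]
    obtain ⟨N, hLev, hm1, hYN, hNL, hNs⟩ := exists_levelL (k := k) inferInstance hC hlift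
      (L := LD γ) (fun g z hz => LD_gal hz g) hLφ hLφ' hh hY
    obtain ⟨g, m, w, hg0, hgm, hw, heq⟩ := a_surj ℓ M N.toSubfield φ hNs
      (divs hC N hLev hYN) (fins hC N hLev hYN)
      (fixf hC E hεE hιE F V r hr hGood hl D p q a ha hq
        hF O hO hu N hLev hYN φ (φ₀ : κ ≃+* κ) hlift.con hlift.fix hNs hφV
        hφq) h 1 h0 (by rw [pow_one]; exact hm1)
    have hconst : ∀ u : M, u ≠ 0 → γ (u ^ (ℓ ^ m)) = u ^ (ℓ ^ m) →
        ∃ c : κ, c ≠ 0 ∧ c ^ (ℓ ^ m) = 1 ∧ γ u = algebraMap κ M c * u := by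
      intro u hu0 hu1
      have h3 : (γ u / u) ^ (ℓ ^ m) = 1 := by
        rw [div_pow, ← map_pow, hu1, div_self (pow_ne_zero _ hu0)]
      obtain ⟨c, hc, hc'⟩ := rou_const (κ := κ) (pow_pos hℓp.pos m) h3
      refine ⟨c, ?_, hc, by rw [hc', div_mul_cancel₀ _ hu0]⟩
      rintro rfl
      rw [zero_pow (pow_pos hℓp.pos m).ne'] at hc
      exact zero_ne_one hc
    have hφg0 : φ g ≠ 0 := by rwa [Ne, map_eq_zero_iff _ φ.injective]
    obtain ⟨c, hc0, hcm, hγg⟩ := hconst g hg0 (LD_fix (hNL hgm))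
    obtain ⟨c', hc'0, hcm', hγφ⟩ := hconst (φ g) hφg0 (by
      have h1 : (φ g) ^ (ℓ ^ m) ∈ LD γ := by rw [← map_pow]; exact hLφ _ (hNL hgm)
      exact LD_fix h1)
    -- powers
    have hpow : ∀ (n : ℕ), (γ ^ n) (φ g) = algebraMap κ M (c' ^ n) * φ g := by
      intro n
      induction n with
      | zero => rw [pow_zero, pow_zero, map_one, one_mul]; rfl
      | succ n ih =>
        rw [pow_succ', AlgEquiv.mul_apply, ih, map_mul, gal_const, hγφ, pow_succ, map_mul]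
        ring
    have h4 := hγ g
    rw [hpow, hγg, map_mul, hlift.con] at h4
    have h5 := (algebraMap κ M).injective (mul_right_cancel₀ hφg0 h4)
    have hφc : (φ₀ : κ ≃+* κ) c = c ^ q := frob_rou' hl hφq hcm
    rw [hφc] at h5
    -- `c ^ q = c' ^ q`
    have h6 : c = c' := by
      have h7 : (c / c') ^ q = 1 := by rw [div_pow, h5, div_self (pow_ne_zero _ hc'0)]
      have h8 : (c / c') ^ (ℓ ^ m) = 1 := by rw [div_pow, hcm, hcm', div_one]
      have h9 : (c / c') ^ Nat.gcd q (ℓ ^ m) = 1 := pow_gcd_eq_one.2 ⟨h7, h8⟩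
      rw [Nat.Coprime.pow_right m hcop, pow_one, div_eq_one_iff_eq hc'0] at h9
      exact h9
    have hcM : algebraMap κ M c ≠ 0 := by
      rw [Ne, FaithfulSMul.algebraMap_eq_zero_iff]; exact hc0
    rw [heq, map_mul, map_div₀, hγφ, hγg, ← h6, LD_fix (hNL hw), mul_div_mul_left _ _ hcM]
  have hroot : ∀ h : M, h ^ ℓ ∈ LD γ → h ∈ LD γ := by
    intro h hh g
    apply key
    rw [← map_pow]
    exact LD_gal hh g
  have hprim : ∃ ζ : R, IsPrimitiveRoot ζ ℓ := by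
    haveI : NeZero ℓ := ⟨hℓp.ne_zero⟩
    haveI : NeZero (ℓ : κ) := ⟨hl.1⟩
    obtain ⟨ζ, hζ⟩ := HasEnoughRootsOfUnity.exists_primitiveRoot κ ℓ
    exact ⟨algebraMap κ R ζ, hζ.map_of_injective (algebraMap κ R).injective⟩
  have htop := a_prol ℓ R M hprim hC.gal hC.pow (LD γ) hroot
  apply AlgEquiv.ext
  intro z
  have h1 : z ∈ LD γ := by rw [htop]; trivial
  exact LD_fix h1

section dvr

variable {A k κ R M : Type} [CommRing A] [IsDomain A] [IsDiscreteValuationRing A]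
    [Finite (IsLocalRing.ResidueField A)] [Field k] [CharZero k] [Algebra A k] [IsFractionRing A k]
    [Field κ] [Algebra k κ] [Algebra A κ] [IsScalarTower A k κ] [IsAlgClosure k κ]
    [Field R] [Field M] [Algebra κ R] [Algebra R M] [Algebra κ M] [IsScalarTower κ R M]
    {ℓ : ℕ} [Fact ℓ.Prime] {V : ValuationSubring κ} {x : R} {B : Finset κ} {ε : κ → ℕ} {ι : ℕ}
    {N₀ : IntermediateField R M}

/-- weights over a field with a discrete valuation -/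
theorem wtA (hVa : ∀ a : A, algebraMap A κ a ∈ V)
    (hVm : ∀ a ∈ IsLocalRing.maximalIdeal A, algebraMap A κ a ∈ V.nonunits)
    (hℓA : IsUnit (ℓ : A)) (hC : GCov ℓ κ R M x B ε ι N₀) (hG : Good V B) {φ₀ : κ ≃ₐ[k] κ} {n : ℕ}
    (hn : 0 < n) (hφ₀ : Fro V (Nat.card (IsLocalRing.ResidueField A) ^ n) φ₀) :
    Nat.Coprime (Nat.card (IsLocalRing.ResidueField A) ^ n) ℓ ∧
    (∀ (m : ℕ) (c : κ), c ^ (ℓ ^ m) = 1 →
      φ₀ c = c ^ (Nat.card (IsLocalRing.ResidueField A) ^ n)) ∧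
    ∀ φ : M ≃+* M, Lift κ M (algebraMap R M x) φ (φ₀ : κ ≃+* κ) →
    ∀ γ : M ≃ₐ[R] M, (∀ z, φ (γ z) = (γ ^ (Nat.card (IsLocalRing.ResidueField A) ^ n)) (φ z)) →
      (∀ z ∈ N₀, γ z = z) → γ = 1 := by
  classical
  haveI : IsAlgClosed κ := IsAlgClosure.isAlgClosed k
  haveI : CharZero κ := charZero_of_injective_algebraMap (algebraMap k κ).injective
  haveI : Algebra.IsAlgebraic k κ := IsAlgClosure.isAlgebraic
  obtain ⟨F0, iF0, r, hr, ⟨D⟩⟩ := a_ndisc A k κ V hVa hVm ℓ hℓA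
  obtain ⟨ϖ, hϖ⟩ := IsDiscreteValuationRing.exists_irreducible A
  have hBase : IB ℓ A k κ V ϖ := ⟨hℓA, hVa, hVm, hϖ⟩
  obtain ⟨p, a, hp, hchar, ha, hq, hF, hcop⟩ := res_facts hBase hr
  haveI : Fact p.Prime := ⟨hp⟩
  obtain ⟨O, hO⟩ := gauss_exists hC hr hG D
  have hun : ∀ O' : ValuationSubring M, Gauss V (algebraMap R M x) O' → O' = O :=
    fun O' h => gun hC V hG O' O h hO
  have hF' : ∀ c : F0, ∃ m : ℕ, 0 < m ∧
      c ^ ((Nat.card (IsLocalRing.ResidueField A) ^ n) ^ m) = c := by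
    intro c
    obtain ⟨m, hm, hmc⟩ := hF c
    refine ⟨m, hm, ?_⟩
    rw [← pow_mul, mul_comm n m]
    exact Pool.Agent.Y732.PS.pow_orbit hmc n
  have hcop' : Nat.Coprime (Nat.card (IsLocalRing.ResidueField A) ^ n) ℓ :=
    Nat.Coprime.pow_left n hcop
  refine ⟨hcop', fun m c hc => frob_rou' hBase.ell (φ := (φ₀ : κ ≃+* κ)) hφ₀.2 hc,
    fun φ hL γ hγ hY => wt hC F0 V r hr hG hBase.ell D p
    (Nat.card (IsLocalRing.ResidueField A) ^ n) (a * n) (Nat.mul_pos ha hn)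
    (by rw [hq, pow_mul]) hF' O hO hun φ φ₀ hL hφ₀.1 hφ₀.2 hcop' γ hγ hY⟩

/-- every subgroup of finite index contains an element to which the weight lemma applies -/
def WtN (ℓ : ℕ) (k κ : Type) {R M : Type} [Field k] [Field κ] [Field R] [Field M] [Algebra k κ]
    [Algebra κ R] [Algebra R M] [Algebra κ M] (x : R) (N₀ : IntermediateField R M) : Prop :=
  ∀ U : Subgroup (κ ≃ₐ[k] κ), U.index ≠ 0 → ∃ φ₀ ∈ U, ∃ q : ℕ, Nat.Coprime q ℓ ∧
    (∀ (m : ℕ) (c : κ), c ^ (ℓ ^ m) = 1 → φ₀ c = c ^ q) ∧ ∀ φ : M ≃+* M,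
    Lift κ M (algebraMap R M x) φ (φ₀ : κ ≃+* κ) → ∀ γ : M ≃ₐ[R] M,
      (∀ z, φ (γ z) = (γ ^ q) (φ z)) → (∀ z ∈ N₀, γ z = z) → γ = 1

theorem wt_of_dvr (hVa : ∀ a : A, algebraMap A κ a ∈ V)
    (hVm : ∀ a ∈ IsLocalRing.maximalIdeal A, algebraMap A κ a ∈ V.nonunits)
    (hℓA : IsUnit (ℓ : A)) (hC : GCov ℓ κ R M x B ε ι N₀) (hG : Good V B) : WtN ℓ k κ x N₀ := by
  haveI : IsAlgClosed κ := IsAlgClosure.isAlgClosed k
  haveI : Algebra.IsAlgebraic k κ := IsAlgClosure.isAlgebraic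
  intro U hU
  obtain ⟨φ₀, hφ₀⟩ := Pool.Agent.Y183.PS.fro A k κ V hVa hVm
  obtain ⟨n, hn, hnU, hfro⟩ := Pool.Agent.R925.Q.exists_frob hφ₀ U hU
  obtain ⟨h1, h2, h3⟩ := wtA hVa hVm hℓA hC hG hn hfro
  exact ⟨φ₀ ^ n, hnU, _, h1, h2, h3⟩

end dvr

/-- weights over an algebraic extension -/
theorem wt_up {ℓ : ℕ} {k κ R M : Type} [Field k] [Field κ] [Algebra k κ] [Field R] [Field M]
    [Algebra κ R] [Algebra R M] [Algebra κ M] {x : R} {N₀ : IntermediateField R M}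
    (k₁ : IntermediateField k κ) (h : WtN ℓ k₁ κ x N₀) : WtN ℓ k κ x N₀ := by
  intro U hU
  let f : (κ ≃ₐ[k₁] κ) →* (κ ≃ₐ[k] κ) :=
    { toFun := AlgEquiv.restrictScalars k
      map_one' := rfl
      map_mul' := fun _ _ => rfl }
  obtain ⟨φ₀, hφ₀, q, h0, h1, h2⟩ := h (U.comap f) (by
    rw [Subgroup.index_comap]
    exact fun h0 => hU (Subgroup.index_eq_zero_of_relIndex_eq_zero h0))
  exact ⟨f φ₀, hφ₀, q, h0, h1, fun φ hL => h2 φ ⟨hL.con, hL.fix⟩⟩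

open Pool.Agent.Y948.PS in
/-- the weight lemma for all coverings branched over `B` and infinity -/
def WW (ℓ : ℕ) [Fact ℓ.Prime] (k κ : Type) [Field k] [Field κ] [Algebra k κ] (B : Finset κ) : Prop :=
  ∀ (R M : Type) [Field R] [Field M] [Algebra κ R] [Algebra R M] [Algebra κ M]
    [IsScalarTower κ R M] (x : R) (ε : κ → ℕ) (ι : ℕ) (N₀ : IntermediateField R M),
    GCov ℓ κ R M x B ε ι N₀ → WtN ℓ k κ x N₀

open Pool.Agent.Y948.PS Pool.Agent.H889.LM in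
theorem ww_fg {k κ : Type} [Field k] [CharZero k] [Field κ] [Algebra k κ] [IsAlgClosure k κ]
    (hk : (⊤ : IntermediateField ℚ k).FG) {ℓ : ℕ} [Fact ℓ.Prime] (B : Finset κ) :
    WW ℓ k κ B := by
  classical
  haveI : IsAlgClosed κ := IsAlgClosure.isAlgClosed k
  haveI : Algebra.IsAlgebraic k κ := IsAlgClosure.isAlgebraic
  let T : Finset κ := B ∪ (B ×ˢ B).image (fun p => p.1 - p.2)
  obtain ⟨k₁, p, hp, j, hfin, hN, hT, hj⟩ := Pool.Agent.Y157.GT.b_embp k κ hk T ℓ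
  haveI : CharZero k₁ := charZero_of_injective_algebraMap (algebraMap k k₁).injective
  obtain ⟨A, hA, hdvr, hresf, hirr, hAm⟩ := Pool.Agent.Y157.GT.b_dvrp p k₁ j
  haveI := hdvr
  haveI := hresf
  have hpl : (p : ℕ) ≠ ℓ := by omega
  -- `ℓ` is a unit
  have hℓu : IsUnit ((ℓ : ℕ) : A) := by
    by_contra h
    have h1 : ((ℓ : ℕ) : A) ∈ IsLocalRing.maximalIdeal A := (IsLocalRing.mem_maximalIdeal _).2 h
    rw [hAm] at h1
    have h2 : j (((ℓ : ℕ) : A) : k₁) = ((ℓ : ℕ) : ℚ_[p]) := by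
      have h3 : ((((ℓ : ℕ) : A)) : k₁) = ((ℓ : ℕ) : k₁) := by norm_cast
      rw [h3, map_natCast]
    rw [h2] at h1
    have h3 : ‖((ℓ : ℕ) : ℚ_[p])‖ = 1 := by
      rw [Padic.norm_natCast_eq_one_iff]
      exact (Nat.coprime_primes hp.out Fact.out).2 hpl
    rw [h3] at h1
    exact lt_irrefl _ h1
  haveI : IsAlgClosure k₁ κ := ⟨inferInstance, inferInstance⟩
  obtain ⟨V, hVA, hVm⟩ := exists_V A k₁ κ
  have hmemV : ∀ a : k₁, ‖j a‖ ≤ 1 → (a : κ) ∈ V := fun a ha => hVA ⟨a, (hA a).2 ha⟩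
  have hTin : ∀ a ∈ B, a ∈ T := fun a ha => Finset.mem_union_left _ ha
  have hTd : ∀ a ∈ B, ∀ b ∈ B, a - b ∈ T := fun a ha b hb =>
    Finset.mem_union_right _ (Finset.mem_image.2 ⟨(a, b), Finset.mk_mem_product ha hb, rfl⟩)
  have hG : Good V B := by
    constructor
    · intro e he
      by_cases h0 : e = 0
      · rw [h0]; exact zero_mem _
      have h1 := hj ⟨e, hT e (hTin e he)⟩ (hTin e he)
        (fun h => h0 (congrArg Subtype.val h))
      exact hmemV ⟨e, hT e (hTin e he)⟩ h1.le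
    · intro e he e' he' hne
      have hd := hTd e he e' he'
      have h0 : e - e' ≠ 0 := sub_ne_zero.2 hne
      have h1 := hj ⟨e - e', hT _ hd⟩ hd (fun h => h0 (congrArg Subtype.val h))
      refine ⟨h0, hmemV ⟨e - e', hT _ hd⟩ h1.le, ?_⟩
      have h2 := hmemV (⟨e - e', hT _ hd⟩⁻¹ : k₁) (by rw [map_inv₀, norm_inv, h1, inv_one])
      exact h2
  letI : Algebra A κ := ((algebraMap k₁ κ).comp (algebraMap A k₁)).toAlgebra
  haveI hst : IsScalarTower A k₁ κ := IsScalarTower.of_algebraMap_eq (fun _ => rfl)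
  have hVa : ∀ a : A, algebraMap A κ a ∈ V := hVA
  have hVm' : ∀ a ∈ IsLocalRing.maximalIdeal A, algebraMap A κ a ∈ V.nonunits := hVm
  exact fun R M _ _ _ _ _ _ x ε ι N₀ hC => wt_up k₁ (wt_of_dvr (k := k₁) hVa hVm' hℓu hC hG)

end Pool.Agent.H889.RS
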